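import Pool.Agent.Helper78.FG.Inv

/-!
# Processing a column of the grid
-/

set_option autoImplicit false

namespace Pool.Agent.Helper78.FG

/-- Is the label `x` or `y` carried by one of the remaining old edges? -/
def aliveR (σ : ℕ → ℕ) (x y : ℕ) : List ((ℤ × ℕ) × ℤ) → Bool
  | [] => false
  | r :: rs => (r.1.1 != 0 && (σ r.1.2 == x || σ r.1.2 == y)) || aliveR σ x y rs

/-- Is the label `x` or `y` carried by one of the new edges? -/
def aliveO (x y : ℕ) : List (ℤ × ℕ) → Bool
  | [] => false
  | r :: rs => (r.1 != 0 && (r.2 == x || r.2 == y)) || aliveO x y rs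

/-- Process the rows of a column from bottom to top. `v`: flow on the vertical edge into the current
vertex, `c`: its label, `σ`: the current names of the old labels, `out`: the new horizontal edges
(top row first), `f`: a fresh label. A row consists of the old horizontal edge (flow, label) and of
the flow of the new horizontal edge. -/
def col : List ((ℤ × ℕ) × ℤ) → ℤ → ℕ → (ℕ → ℕ) → List (ℤ × ℕ) → ℕ → Option (List (ℤ × ℕ))
  | [], v, _, _, out, _ => if v = 0 then some out else none
  | r :: rs, v, c, σ, out, f =>
    if r.1.1 = 0 then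
      if v = 0 then col rs (v + r.1.1 - r.2) f σ ((r.2, f) :: out) (f + 1)
      else col rs (v + r.1.1 - r.2) c σ ((r.2, c) :: out) f
    else
      if v = 0 then col rs (v + r.1.1 - r.2) (σ r.1.2) σ ((r.2, σ r.1.2) :: out) f
      else
        if r.2 ≠ 0 ∨ v + r.1.1 - r.2 ≠ 0 ∨ aliveO c (σ r.1.2) out ∨ aliveR σ c (σ r.1.2) rs then
          col rs (v + r.1.1 - r.2) c (fun x => if σ x = σ r.1.2 then c else σ x)
            ((r.2, c) :: out.map (fun t => (t.1, if t.2 = σ r.1.2 then c else t.2))) f
        else none

/-- The edges drawn in a column. -/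
def cE (x : ℤ) : ℤ → List ((ℤ × ℕ) × ℤ) → ℤ → Multiset (Vx × Vx)
  | _, [], _ => 0
  | y, r :: rs, v => ed (x, y) (x + 1, y) r.2 + ed (x, y) (x, y + 1) (v + r.1.1 - r.2) +
      cE x (y + 1) rs (v + r.1.1 - r.2)

/-- The number of the edges drawn in a column. -/
def ccost : List ((ℤ × ℕ) × ℤ) → ℤ → ℕ
  | [], _ => 0
  | r :: rs, v => r.2.natAbs + (v + r.1.1 - r.2).natAbs + ccost rs (v + r.1.1 - r.2)

theorem cE_card (x : ℤ) (rows : List ((ℤ × ℕ) × ℤ)) : ∀ (y v : ℤ),
    (cE x y rows v).card = ccost rows v := by
  induction rows with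
  | nil => intro y v; rfl
  | cons r rs ih =>
    intro y v
    unfold cE ccost
    rw [Multiset.card_add, Multiset.card_add, ed_card, ed_card, ih]

/-- Old edges, from the row `y` upwards. -/
def entR (x : ℤ) (σ : ℕ → ℕ) : ℤ → List ((ℤ × ℕ) × ℤ) → Multiset (Vx × ℤ × ℕ)
  | _, [] => 0
  | y, r :: rs => en (x, y) r.1.1 (σ r.1.2) + entR x σ (y + 1) rs

/-- New edges, from the row `y` downwards. -/
def entO (x : ℤ) : ℤ → List (ℤ × ℕ) → Multiset (Vx × ℤ × ℕ)
  | _, [] => 0
  | y, r :: rs => en (x, y) r.1 r.2 + entO x (y - 1) rs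

/-- Edges, from the row `y` upwards. -/
def entL (x : ℤ) : ℤ → List (ℤ × ℕ) → Multiset (Vx × ℤ × ℕ)
  | _, [] => 0
  | y, r :: rs => en (x, y) r.1 r.2 + entL x (y + 1) rs

theorem rl_add (ρ : ℕ → ℕ) (I J : Multiset (Vx × ℤ × ℕ)) : rl ρ (I + J) = rl ρ I + rl ρ J :=
  Multiset.map_add _ _ _

theorem rl_en (ρ : ℕ → ℕ) (q : Vx) (n : ℤ) (l : ℕ) : rl ρ (en q n l) = en q n (ρ l) := by
  unfold rl en
  split_ifs <;> simp

theorem rl_id (I : Multiset (Vx × ℤ × ℕ)) : rl (fun l => l) I = I := by
  unfold rl
  simp

theorem rl_entO (ρ : ℕ → ℕ) (x : ℤ) (out : List (ℤ × ℕ)) : ∀ y,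
    rl ρ (entO x y out) = entO x y (out.map (fun t => (t.1, ρ t.2))) := by
  induction out with
  | nil => intro y; rfl
  | cons r rs ih =>
    intro y
    simp only [entO, List.map_cons]
    rw [rl_add, rl_en, ih]

theorem rl_entR (ρ σ : ℕ → ℕ) (x : ℤ) (rows : List ((ℤ × ℕ) × ℤ)) : ∀ y,
    rl ρ (entR x σ y rows) = entR x (fun l => ρ (σ l)) y rows := by
  induction rows with
  | nil => intro y; rfl
  | cons r rs ih =>
    intro y
    simp only [entR]
    rw [rl_add, rl_en, ih]

theorem aliveO_spec {x y : ℕ} (X : ℤ) (out : List (ℤ × ℕ)) : ∀ Y, aliveO x y out = true →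
    ∃ t ∈ entO X Y out, t.2.2 = x ∨ t.2.2 = y := by
  induction out with
  | nil => intro Y h; simp [aliveO] at h
  | cons r rs ih =>
    intro Y h
    unfold aliveO at h
    rw [Bool.or_eq_true] at h
    rcases h with h | h
    · simp only [Bool.and_eq_true, bne_iff_ne, ne_eq, Bool.or_eq_true, beq_iff_eq] at h
      exact ⟨((X, Y), r.1, r.2), by simp [entO, mem_en, h.1], h.2⟩
    · obtain ⟨t, ht, h1⟩ := ih (Y - 1) h
      exact ⟨t, by simp [entO, ht], h1⟩

theorem aliveR_spec {x y : ℕ} (σ : ℕ → ℕ) (X : ℤ) (rows : List ((ℤ × ℕ) × ℤ)) : ∀ Y,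
    aliveR σ x y rows = true → ∃ t ∈ entR X σ Y rows, t.2.2 = x ∨ t.2.2 = y := by
  induction rows with
  | nil => intro Y h; simp [aliveR] at h
  | cons r rs ih =>
    intro Y h
    unfold aliveR at h
    rw [Bool.or_eq_true] at h
    rcases h with h | h
    · simp only [Bool.and_eq_true, bne_iff_ne, ne_eq, Bool.or_eq_true, beq_iff_eq] at h
      exact ⟨((X, Y), r.1.1, σ r.1.2), by simp [entR, mem_en, h.1], h.2⟩
    · obtain ⟨t, ht, h1⟩ := ih (Y + 1) h
      exact ⟨t, by simp [entR, ht], h1⟩

/-- Soundness of `col`. -/
theorem col_sound (x : ℤ) (rows : List ((ℤ × ℕ) × ℤ)) : ∀ (y v : ℤ) (c : ℕ) (σ : ℕ → ℕ)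
    (out : List (ℤ × ℕ)) (f : ℕ) (E : Multiset (Vx × Vx)) (out' : List (ℤ × ℕ)),
    Inv E (en (x, y) v c + entO (x + 1) (y - 1) out + entR x σ y rows) →
    (∀ t ∈ en (x, y) v c + entO (x + 1) (y - 1) out + entR x σ y rows, t.2.2 < f) →
    col rows v c σ out f = some out' →
    Inv (E + cE x y rows v) (entO (x + 1) (y + rows.length - 1) out') ∧
      out'.map Prod.fst = (rows.map Prod.snd).reverse ++ out.map Prod.fst := by
  induction rows with
  | nil =>
    intro y v c σ out f E out' hI _ hcol
    unfold col at hcol
    split_ifs at hcol with hv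
    simp only [Option.some.injEq] at hcol
    subst hcol
    subst hv
    have e1 : en (x, y) 0 c = 0 := by simp [en]
    simp only [e1, zero_add, entR, add_zero] at hI
    simpa [cE] using hI
  | cons r rs ih =>
    intro y v c σ out f E out' hI hf hcol
    obtain ⟨⟨a, l⟩, b⟩ := r
    unfold col at hcol
    simp only at hcol
    have hrest : en (x, y) v c + entO (x + 1) (y - 1) out + entR x σ y (((a, l), b) :: rs) =
        en (x, y) a (σ l) + en (x, y) v c +
          (entO (x + 1) (y - 1) out + entR x σ (y + 1) rs) := by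
      simp only [entR]
      abel
    rw [hrest] at hI hf
    have hy1 : y + 1 - 1 = y := by ring
    have hlen : y + ((((a, l), b) :: rs).length : ℤ) - 1 = (y + 1) + (rs.length : ℤ) - 1 := by
      simp only [List.length_cons]
      push_cast
      ring
    -- the common conclusion
    have hfin : ∀ (c' : ℕ) (σ' : ℕ → ℕ) (o' : List (ℤ × ℕ)) (f' : ℕ),
        o'.map Prod.fst = out.map Prod.fst →
        Inv (E + ed (x, y) (x + 1, y) b + ed (x, y) (x, y + 1) (v + a - b))
          (en (x + 1, y) b c' + en (x, y + 1) (v + a - b) c' +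
            (entO (x + 1) (y - 1) o' + entR x σ' (y + 1) rs)) →
        (∀ t ∈ en (x + 1, y) b c' + en (x, y + 1) (v + a - b) c' +
            (entO (x + 1) (y - 1) o' + entR x σ' (y + 1) rs), t.2.2 < f') →
        col rs (v + a - b) c' σ' ((b, c') :: o') f' = some out' →
        Inv (E + cE x y (((a, l), b) :: rs) v)
          (entO (x + 1) (y + ((((a, l), b) :: rs).length : ℤ) - 1) out') ∧
        out'.map Prod.fst = ((((a, l), b) :: rs).map Prod.snd).reverse ++ out.map Prod.fst := by
      intro c' σ' o' f' ho' hI' hf' hcol'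
      have hI2 : en (x + 1, y) b c' + en (x, y + 1) (v + a - b) c' +
            (entO (x + 1) (y - 1) o' + entR x σ' (y + 1) rs) =
          en (x, y + 1) (v + a - b) c' + entO (x + 1) (y + 1 - 1) ((b, c') :: o') +
            entR x σ' (y + 1) rs := by
        rw [hy1]
        simp only [entO]
        abel
      rw [hI2] at hI' hf'
      obtain ⟨h1, h2⟩ := ih (y + 1) (v + a - b) c' σ' ((b, c') :: o') f' _ out' hI' hf' hcol'
      refine ⟨?_, ?_⟩
      · rw [hlen]
        simp only [cE]
        rw [← add_assoc, ← add_assoc]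
        exact h1
      · rw [h2]
        simp [ho']
    split_ifs at hcol with ha hv hv hal
    · -- nothing comes in
      subst ha
      subst hv
      refine hfin f σ out (f + 1) rfl ?_ ?_ hcol
      · have := hI.step (q1 := (x + 1, y)) (q2 := (x, y + 1)) (b := b) (w := 0 + 0 - b) (c := f)
          (ρ := fun l => l) (by ring) (by intro t _ t' _ h; exact Or.inl h)
          (by
            intro t ht hl _
            have := hf t (by simp only [Multiset.mem_add] at ht ⊢; tauto)
            omega)
          (by intro h; simp at h) (by intros; trivial)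
        rw [rl_id] at this
        exact this
      · intro t ht
        rw [Multiset.mem_add, Multiset.mem_add, mem_en, mem_en] at ht
        rcases ht with (⟨_, rfl⟩ | ⟨_, rfl⟩) | ht
        · simp
        · simp
        · have := hf t (by rw [Multiset.mem_add]; exact Or.inr ht)
          omega
    · -- only the vertical edge comes in
      subst ha
      refine hfin c σ out f rfl ?_ ?_ hcol
      · have := hI.step (q1 := (x + 1, y)) (q2 := (x, y + 1)) (b := b) (w := v + 0 - b) (c := c)
          (ρ := fun l => l) (by ring) (by intro t _ t' _ h; exact Or.inl h)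
          (by intro t ht hl _; exact Or.inr ⟨hv, hl⟩)
          (by intro _ hb hw; omega) (by intros; trivial)
        rw [rl_id] at this
        exact this
      · intro t ht
        rw [Multiset.mem_add, Multiset.mem_add, mem_en, mem_en] at ht
        have hc := hf ((x, y), v, c) (by
          rw [Multiset.mem_add, Multiset.mem_add]
          exact Or.inl (Or.inr (mem_en.2 ⟨hv, rfl⟩)))
        rcases ht with (⟨_, rfl⟩ | ⟨_, rfl⟩) | ht
        · exact hc
        · exact hc
        · exact hf t (by rw [Multiset.mem_add]; exact Or.inr ht)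
    · -- only the old horizontal edge comes in
      subst hv
      refine hfin (σ l) σ out f rfl ?_ ?_ hcol
      · have := hI.step (q1 := (x + 1, y)) (q2 := (x, y + 1)) (b := b) (w := 0 + a - b) (c := σ l)
          (ρ := fun l => l) (by ring) (by intro t _ t' _ h; exact Or.inl h)
          (by intro t ht hl _; exact Or.inl ⟨ha, hl⟩)
          (by intro _ hb hw; omega) (by intros; trivial)
        rw [rl_id] at this
        exact this
      · intro t ht
        rw [Multiset.mem_add, Multiset.mem_add, mem_en, mem_en] at ht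
        have hc := hf ((x, y), a, σ l) (by
          rw [Multiset.mem_add, Multiset.mem_add]
          exact Or.inl (Or.inl (mem_en.2 ⟨ha, rfl⟩)))
        rcases ht with (⟨_, rfl⟩ | ⟨_, rfl⟩) | ht
        · exact hc
        · exact hc
        · exact hf t (by rw [Multiset.mem_add]; exact Or.inr ht)
    · -- both edges come in
      have hcf := hf ((x, y), v, c) (by
          rw [Multiset.mem_add, Multiset.mem_add]
          exact Or.inl (Or.inr (mem_en.2 ⟨hv, rfl⟩)))
      simp only at hcf
      refine hfin c (fun z => if σ z = σ l then c else σ z)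
        (out.map (fun t => (t.1, if t.2 = σ l then c else t.2))) f ?_ ?_ ?_ hcol
      · rw [List.map_map]
        rfl
      · have := hI.step (q1 := (x + 1, y)) (q2 := (x, y + 1)) (b := b) (w := v + a - b) (c := c)
          (ρ := fun z => if z = σ l then c else z) (by ring)
          (by
            intro t _ t' _ h
            split_ifs at h with h1 h2 h2
            · exact Or.inl (h1.trans h2.symm)
            · exact Or.inr ⟨Or.inl ⟨ha, h1⟩, Or.inr ⟨hv, h.symm⟩⟩
            · exact Or.inr ⟨Or.inr ⟨hv, h⟩, Or.inl ⟨ha, h2⟩⟩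
            · exact Or.inl h)
          (by
            intro t ht hl _
            split_ifs at hl with h1
            · exact Or.inl ⟨ha, h1⟩
            · exact Or.inr ⟨hv, hl⟩)
          (by
            intro _ hb hw
            rcases hal with h | h | h | h
            · exact absurd hb h
            · exact absurd hw h
            · obtain ⟨t, ht, h1⟩ := aliveO_spec (x + 1) out (y - 1) h
              refine ⟨t, by rw [Multiset.mem_add]; exact Or.inl ht, ?_⟩
              rcases h1 with h1 | h1
              · exact Or.inr ⟨hv, h1⟩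
              · exact Or.inl ⟨ha, h1⟩
            · obtain ⟨t, ht, h1⟩ := aliveR_spec σ x rs (y + 1) h
              refine ⟨t, by rw [Multiset.mem_add]; exact Or.inr ht, ?_⟩
              rcases h1 with h1 | h1
              · exact Or.inr ⟨hv, h1⟩
              · exact Or.inl ⟨ha, h1⟩)
          (by intros; trivial)
        rw [rl_add, rl_entO, rl_entR] at this
        exact this
      · intro t ht
        have hrl : en (x + 1, y) b c + en (x, y + 1) (v + a - b) c +
            (entO (x + 1) (y - 1) (out.map (fun t => (t.1, if t.2 = σ l then c else t.2))) +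
              entR x (fun z => if σ z = σ l then c else σ z) (y + 1) rs) =
            en (x + 1, y) b c + en (x, y + 1) (v + a - b) c +
            rl (fun z => if z = σ l then c else z)
              (entO (x + 1) (y - 1) out + entR x σ (y + 1) rs) := by
          rw [rl_add, rl_entO, rl_entR]
        rw [hrl, Multiset.mem_add, Multiset.mem_add, mem_en, mem_en] at ht
        rcases ht with (⟨_, rfl⟩ | ⟨_, rfl⟩) | ht
        · exact hcf
        · exact hcf
        · obtain ⟨s, hs, rfl⟩ := Multiset.mem_map.1 ht
          have := hf s (by rw [Multiset.mem_add]; exact Or.inr hs)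
          simp only
          split_ifs
          · exact hcf
          · exact this

end Pool.Agent.Helper78.FG
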