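import Pool.Agent.Helper78.FG.Run

/-!
# Counting paths with a weight vector
-/

set_option autoImplicit false

namespace Pool.Agent.Helper78.FG

open Pool.Agent.Helper62.FM Filter

/-- The horizontal flows of a state. -/
def vc (A : List (ℤ × ℕ)) : List ℤ := A.map Prod.fst

/-- Paths which can be closed. -/
def Good (A : List (ℤ × ℕ)) (p : Pa) : Prop := run A p = some [(1, 1)] ∧ ∀ s ∈ p, NB s.1

theorem Good.cons {A A' : List (ℤ × ℕ)} {B : List ℤ} {sh : ℤ} {p : Pa} (h : Good A' p)
    (hn : next A B sh = some A') (hB : NB B) : Good A ((B, sh) :: p) := by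
  refine ⟨?_, ?_⟩
  · simp only [run, hn]
    exact h.1
  · intro s hs
    rw [List.mem_cons] at hs
    rcases hs with rfl | hs
    · exact hB
    · exact h.2 s hs

theorem pcost_cons {A A' : List (ℤ × ℕ)} {B : List ℤ} {sh : ℤ} (p : Pa)
    (hn : next A B sh = some A') : pcost A ((B, sh) :: p) = nc A B sh + pcost A' p := by
  simp only [pcost, hn, Option.getD_some]

section

variable (N C P Q : ℕ) (st : ℕ → List (ℤ × ℕ)) (u rk : ℕ → ℕ) (eds : ℕ → List (ℕ × ℤ × ℕ))

/-- The conditions on a certificate. -/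
structure Cert : Prop where
  pos : 0 < N
  hQ : 0 < Q
  hPQ : Q ≤ P
  st0 : st 0 = [(1, 1)]
  edg : ∀ i < N, ∀ e ∈ eds i, e.1 < N ∧ next (st i) (vc (st e.1)) e.2.1 = some (st e.1) ∧
    nc (st i) (vc (st e.1)) e.2.1 = e.2.2 ∧ 1 ≤ e.2.2 ∧ e.2.2 ≤ C
  nd : ∀ i < N, (eds i).Nodup
  inj : ∀ i < N, ∀ j < N, st i = st j → i = j
  nb : ∀ i < N, NB (vc (st i))
  rank : ∀ i < N, i ≠ 0 → ∃ e ∈ eds i, rk e.1 < rk i
  upos : 0 < u 0
  sum : ∀ i < N, P ^ C * u i ≤ ((eds i).map (fun e => Q ^ e.2.2 * P ^ (C - e.2.2) * u e.1)).sum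

variable {N C P Q st u rk eds}

theorem Cert.complete (h : Cert N C P Q st u rk eds) : ∀ (r i : ℕ), i < N → rk i = r →
    ∃ p, Good (st i) p ∧ pcost (st i) p ≤ C * r := by
  intro r
  induction r using Nat.strong_induction_on with
  | _ r ih =>
    intro i hi hr
    by_cases h0 : i = 0
    · subst h0
      exact ⟨[], ⟨by simp [run, h.st0], by simp⟩, by simp [pcost]⟩
    · obtain ⟨e, he, hlt⟩ := h.rank i hi h0
      obtain ⟨h1, h2, h3, h4, h5⟩ := h.edg i hi e he
      obtain ⟨p, hp1, hp2⟩ := ih (rk e.1) (by omega) e.1 h1 rfl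
      refine ⟨(vc (st e.1), e.2.1) :: p, hp1.cons h2 (h.nb _ h1), ?_⟩
      rw [pcost_cons p h2, h3]
      have : C * rk e.1 + C ≤ C * r := by
        rw [← Nat.mul_succ]
        exact Nat.mul_le_mul_left _ (by omega)
      omega

theorem Cert.bound (h : Cert N C P Q st u rk eds) : ∃ (D : ℕ) (κ : ℝ), 0 < κ ∧
    ∀ (n i : ℕ), i < N → ∃ F : Finset Pa, (∀ p ∈ F, Good (st i) p ∧ pcost (st i) p ≤ n + D) ∧
      κ * u i * ((P : ℝ) / Q) ^ n ≤ F.card := by
  classical
  set R : ℕ := ∑ i ∈ Finset.range N, rk i with hR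
  set U : ℕ := 1 + ∑ i ∈ Finset.range N, u i with hU
  have hRi : ∀ i < N, rk i ≤ R := fun i hi =>
    Finset.single_le_sum (f := rk) (fun _ _ => Nat.zero_le _) (Finset.mem_range.2 hi)
  have hUi : ∀ i < N, u i ≤ U := fun i hi => by
    have := Finset.single_le_sum (f := u) (fun _ _ => Nat.zero_le _) (Finset.mem_range.2 hi)
    omega
  have hQ0 : (0 : ℝ) < Q := by exact_mod_cast h.hQ
  have hP0 : (0 : ℝ) < P := by exact_mod_cast lt_of_lt_of_le h.hQ h.hPQ
  set lam : ℝ := (P : ℝ) / Q with hlam
  have hlam1 : 1 ≤ lam := by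
    rw [hlam, one_le_div hQ0]
    exact_mod_cast h.hPQ
  have hlam0 : 0 < lam := by linarith
  have hU0 : (0 : ℝ) < U := by
    have : 0 < U := by omega
    exact_mod_cast this
  refine ⟨C * R, 1 / (U * lam ^ C), by positivity, ?_⟩
  set κ : ℝ := 1 / (U * lam ^ C) with hκ
  have hκ0 : 0 < κ := by positivity
  intro n
  induction n using Nat.strong_induction_on with
  | _ n ih =>
    intro i hi
    by_cases hn : n < C
    · obtain ⟨p, hp1, hp2⟩ := h.complete (rk i) i hi rfl
      refine ⟨{p}, ?_, ?_⟩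
      · intro p' hp'
        rw [Finset.mem_singleton] at hp'
        subst hp'
        refine ⟨hp1, hp2.trans ?_⟩
        have := Nat.mul_le_mul_left C (hRi i hi)
        omega
      · rw [Finset.card_singleton, hκ]
        have h1 : (u i : ℝ) ≤ U := by exact_mod_cast hUi i hi
        have h2 : lam ^ n ≤ lam ^ C := pow_le_pow_right₀ hlam1 hn.le
        have h3 : (u i : ℝ) * lam ^ n ≤ U * lam ^ C := by gcongr
        rw [mul_assoc, one_div, inv_mul_le_iff₀ (by positivity)]
        push_cast
        linarith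
    · push Not at hn
      have hch : ∀ e : ℕ × ℤ × ℕ, ∃ F : Finset Pa, e ∈ eds i →
          (∀ p ∈ F, Good (st e.1) p ∧ pcost (st e.1) p ≤ (n - e.2.2) + C * R) ∧
          κ * u e.1 * lam ^ (n - e.2.2) ≤ F.card := by
        intro e
        by_cases he : e ∈ eds i
        · obtain ⟨h1, _, _, h4, h5⟩ := h.edg i hi e he
          obtain ⟨F, hF⟩ := ih (n - e.2.2) (by omega) e.1 h1
          exact ⟨F, fun _ => hF⟩
        · exact ⟨∅, fun h' => absurd h' he⟩
      choose F hF using hch
      set G : ℕ × ℤ × ℕ → Finset Pa := fun e =>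
        (F e).image (fun p => (vc (st e.1), e.2.1) :: p) with hG
      refine ⟨(eds i).toFinset.biUnion G, ?_, ?_⟩
      · intro p hp
        rw [Finset.mem_biUnion] at hp
        obtain ⟨e, he, hp⟩ := hp
        rw [List.mem_toFinset] at he
        rw [hG, Finset.mem_image] at hp
        obtain ⟨p', hp', rfl⟩ := hp
        obtain ⟨h1, h2, h3, h4, h5⟩ := h.edg i hi e he
        obtain ⟨h6, h7⟩ := (hF e he).1 p' hp'
        refine ⟨h6.cons h2 (h.nb _ h1), ?_⟩
        rw [pcost_cons p' h2, h3]
        omega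
      · have hdis : (((eds i).toFinset : Finset (ℕ × ℤ × ℕ)) : Set (ℕ × ℤ × ℕ)).PairwiseDisjoint
            G := by
          intro e he e' he' hne
          rw [Function.onFun, Finset.disjoint_left]
          intro p hp hp'
          rw [hG, Finset.mem_image] at hp hp'
          obtain ⟨q, _, rfl⟩ := hp
          obtain ⟨q', _, hq'⟩ := hp'
          rw [List.cons.injEq, Prod.mk.injEq] at hq'
          have he1 : e ∈ eds i := List.mem_toFinset.1 he
          have he2 : e' ∈ eds i := List.mem_toFinset.1 he'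
          obtain ⟨h1, h2, h3, _, _⟩ := h.edg i hi e he1
          obtain ⟨h1', h2', h3', _, _⟩ := h.edg i hi e' he2
          rw [hq'.1.1, hq'.1.2] at h2' h3'
          rw [h2] at h2'
          have h8 := h.inj _ h1 _ h1' (Option.some.inj h2')
          apply hne
          refine Prod.ext h8 (Prod.ext hq'.1.2.symm ?_)
          rw [← h3, ← h3']
        rw [Finset.card_biUnion hdis]
        have hcardG : ∀ e, (G e).card = (F e).card := by
          intro e
          rw [hG]
          exact Finset.card_image_of_injective _ (fun a b hab => by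
            rw [List.cons.injEq] at hab
            exact hab.2)
        simp only [hcardG]
        push_cast
        have hs := h.sum i hi
        have hs' : ((P : ℝ) ^ C) * u i ≤ ∑ e ∈ (eds i).toFinset,
            ((Q : ℝ) ^ e.2.2 * (P : ℝ) ^ (C - e.2.2) * u e.1) := by
          rw [List.sum_toFinset _ (h.nd i hi)]
          have : (((P ^ C * u i : ℕ)) : ℝ) ≤ (((((eds i).map
            (fun e => Q ^ e.2.2 * P ^ (C - e.2.2) * u e.1)).sum : ℕ)) : ℝ) := by exact_mod_cast hs
          push_cast at this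
          refine this.trans (le_of_eq ?_)
          congr 1
          rw [List.map_map]
          apply List.map_congr_left
          intro e _
          simp only [Function.comp]
          push_cast
          ring
        have hterm : ∀ e ∈ (eds i).toFinset, κ * lam ^ n / (P : ℝ) ^ C *
            ((Q : ℝ) ^ e.2.2 * (P : ℝ) ^ (C - e.2.2) * u e.1) ≤ ((F e).card : ℝ) := by
          intro e he
          rw [List.mem_toFinset] at he
          obtain ⟨_, _, _, h4, h5⟩ := h.edg i hi e he
          refine le_trans (le_of_eq ?_) (hF e he).2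
          have e1 : (P : ℝ) ^ C = (P : ℝ) ^ (C - e.2.2) * (P : ℝ) ^ e.2.2 := by
            rw [← pow_add]
            congr 1
            omega
          have e2 : lam ^ n = lam ^ (n - e.2.2) * ((P : ℝ) ^ e.2.2 / (Q : ℝ) ^ e.2.2) := by
            rw [← div_pow, ← hlam, ← pow_add]
            congr 1
            omega
          rw [e1, e2]
          field_simp
        calc κ * (u i : ℝ) * lam ^ n
            = κ * lam ^ n / (P : ℝ) ^ C * ((P : ℝ) ^ C * u i) := by field_simp
          _ ≤ κ * lam ^ n / (P : ℝ) ^ C * ∑ e ∈ (eds i).toFinset,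
                ((Q : ℝ) ^ e.2.2 * (P : ℝ) ^ (C - e.2.2) * u e.1) :=
              mul_le_mul_of_nonneg_left hs' (by positivity)
          _ = ∑ e ∈ (eds i).toFinset, κ * lam ^ n / (P : ℝ) ^ C *
                ((Q : ℝ) ^ e.2.2 * (P : ℝ) ^ (C - e.2.2) * u e.1) := Finset.mul_sum _ _ _
          _ ≤ ∑ e ∈ (eds i).toFinset, ((F e).card : ℝ) := Finset.sum_le_sum hterm

/-- A certificate gives a lower bound for the growth rate. -/
theorem Cert.le_growth (h : Cert N C P Q st u rk eds) (hr : 1 ≤ 2) :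
    ((P : ℝ) / Q) ≤ Pool.Agent.Helper44.FMet.om 2 hr := by
  classical
  obtain ⟨D, κ, hκ, hb⟩ := h.bound
  have hQ0 : (0 : ℝ) < Q := by exact_mod_cast h.hQ
  have hP0 : (0 : ℝ) < P := by exact_mod_cast lt_of_lt_of_le h.hQ h.hPQ
  set lam : ℝ := (P : ℝ) / Q with hlam
  have hlam0 : 0 < lam := by positivity
  have hu0 : (0 : ℝ) < u 0 := by exact_mod_cast h.upos
  -- words of paths
  have hw : ∀ p : Pa, ∃ w : Wd 2, Good [(1, 1)] p → w.length = pcost [(1, 1)] p + 1 ∧
      ∀ x : Vx, fl w (toPt x - toPt 0) (0, true) =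
        hc (ed 0 (1, 0) 1) x + hc (pE 1 0 [(1, 1)] p) x := by
    intro p
    by_cases hp : Good [(1, 1)] p
    · obtain ⟨w, hw⟩ := exists_word p hp.1
      exact ⟨w, fun _ => hw⟩
    · exact ⟨[], fun h' => absurd h' hp⟩
  choose W hW using hw
  have hF : ∀ n, ∃ F : Finset Pa, (∀ p ∈ F, Good [(1, 1)] p ∧ pcost [(1, 1)] p ≤ n + D) ∧
      κ * u 0 * lam ^ n ≤ F.card := by
    intro n
    have := hb n 0 h.pos
    rw [h.st0] at this
    exact this
  choose F hF using hF
  have hinj : ∀ p p' : Pa, Good [(1, 1)] p → Good [(1, 1)] p' → el (W p) = el (W p') → p = p' :=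
    fun p p' hp hp' he => word_inj hp.2 hp'.2 (hW p hp).2 (hW p' hp').2 he
  refine Pool.Agent.Helper44.FMet.le_om (r := 2) hr (c := κ * u 0 / lam ^ (D + 1)) (by positivity)
    hlam0.le (fun n => if n < D + 1 then ∅ else (F (n - (D + 1))).image W) ?_ ?_ ?_
  · intro n w hw
    split_ifs at hw with hn
    · simp at hw
    · rw [Finset.mem_image] at hw
      obtain ⟨p, hp, rfl⟩ := hw
      obtain ⟨h1, h2⟩ := (hF _).1 p hp
      rw [(hW p h1).1]
      omega
  · intro n w hw w' hw' he
    split_ifs at hw hw' with hn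
    · simp at hw
    · rw [Finset.mem_image] at hw hw'
      obtain ⟨p, hp, rfl⟩ := hw
      obtain ⟨p', hp', rfl⟩ := hw'
      rw [hinj p p' ((hF _).1 p hp).1 ((hF _).1 p' hp').1 he]
  · filter_upwards [eventually_ge_atTop (D + 1)] with n hn
    rw [if_neg (by omega), Finset.card_image_of_injOn]
    · refine le_trans (le_of_eq ?_) (hF (n - (D + 1))).2
      have : lam ^ n = lam ^ (n - (D + 1)) * lam ^ (D + 1) := by
        rw [← pow_add]
        congr 1
        omega
      rw [this]
      field_simp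
    · intro p hp p' hp' he
      exact hinj p p' ((hF _).1 p hp).1 ((hF _).1 p' hp').1 (by rw [he])

end

end Pool.Agent.Helper78.FG
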