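import Mathlib

/-!
# Eulerian trails in directed multigraphs
-/

set_option autoImplicit false

namespace Pool.Agent.Helper78.FG

variable {V : Type*} [DecidableEq V]

/-- There is a trail from `a` to `b` whose edges (with multiplicities) are those of `M`. -/
inductive Tr : V → V → Multiset (V × V) → Prop
  | nil (a : V) : Tr a a 0
  | cons {a b c : V} {M : Multiset (V × V)} (h : Tr b c M) : Tr a c ((a, b) ::ₘ M)

/-- Every vertex is left as often as it is entered, except for `a` and `b`. -/
def Bal (E : Multiset (V × V)) (a b : V) : Prop :=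
  ∀ v, E.countP (fun e => e.1 = v) + (if v = b then 1 else 0) =
    E.countP (fun e => e.2 = v) + (if v = a then 1 else 0)

theorem Tr.bal {a b : V} {M : Multiset (V × V)} (h : Tr a b M) : Bal M a b := by
  induction h with
  | nil a => intro v; simp
  | @cons a b c M _ ih =>
    intro v
    have := ih v
    rw [Multiset.countP_cons, Multiset.countP_cons]
    simp only
    have e1 : (if a = v then 1 else 0) = (if v = a then 1 else 0) := by simp [eq_comm]
    have e2 : (if b = v then 1 else 0) = (if v = b then 1 else 0) := by simp [eq_comm]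
    rw [e1, e2]
    omega

theorem Tr.append {a b c : V} {M N : Multiset (V × V)} (h : Tr a b M) (h' : Tr b c N) :
    Tr a c (M + N) := by
  induction h with
  | nil a => simpa using h'
  | @cons a b c M _ ih =>
    rw [Multiset.cons_add]
    exact Tr.cons (ih h')

/-- A trail can be cut at every vertex it visits. -/
theorem Tr.split {a b : V} {M : Multiset (V × V)} (h : Tr a b M) (v : V)
    (hv : v = a ∨ ∃ e ∈ M, v = e.1 ∨ v = e.2) :
    ∃ M1 M2, M = M1 + M2 ∧ Tr a v M1 ∧ Tr v b M2 := by
  induction h with
  | nil a =>
    rcases hv with rfl | ⟨e, he, _⟩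
    · exact ⟨0, 0, by simp, Tr.nil _, Tr.nil _⟩
    · simp at he
  | @cons a b c M h ih =>
    rcases hv with rfl | ⟨e, he, hv⟩
    · exact ⟨0, (v, b) ::ₘ M, by simp, Tr.nil _, Tr.cons h⟩
    · rw [Multiset.mem_cons] at he
      rcases he with rfl | he
      · rcases hv with hv | hv
        · simp only at hv
          subst hv
          exact ⟨0, _, (zero_add _).symm, Tr.nil _, Tr.cons h⟩
        · simp only at hv
          subst hv
          exact ⟨{(a, v)}, M, rfl, Tr.cons (Tr.nil v), h⟩
      · obtain ⟨M1, M2, h1, h2, h3⟩ := ih (Or.inr ⟨e, he, hv⟩)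
        exact ⟨(a, b) ::ₘ M1, M2, by rw [h1, Multiset.cons_add], Tr.cons h2, h3⟩

/-- Greedy walks reach the end point. -/
theorem exists_tr : ∀ (n : ℕ) (E : Multiset (V × V)) (a b : V), E.card = n → Bal E a b →
    ∃ M, M ≤ E ∧ Tr a b M := by
  intro n
  induction n with
  | zero =>
    intro E a b hn hE
    rw [Multiset.card_eq_zero] at hn
    subst hn
    have := hE a
    simp only [Multiset.countP_zero] at this
    have hab : a = b := by
      by_contra hne
      simp [hne] at this
    subst hab
    exact ⟨0, le_refl _, Tr.nil _⟩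
  | succ n ih =>
    intro E a b hn hE
    by_cases hab : a = b
    · subst hab
      exact ⟨0, Multiset.zero_le _, Tr.nil _⟩
    · have h1 := hE a
      simp only [hab, if_false, if_true] at h1
      have h2 : 0 < E.countP (fun e => e.1 = a) := by omega
      obtain ⟨e, he, hea⟩ := Multiset.countP_pos.1 h2
      obtain ⟨E', rfl⟩ := Multiset.exists_cons_of_mem he
      obtain ⟨x, c⟩ := e
      simp only at hea
      subst hea
      have hb : Bal E' c b := by
        intro v
        have := hE v
        rw [Multiset.countP_cons, Multiset.countP_cons] at this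
        simp only at this
        have e1 : (if x = v then 1 else 0) = (if v = x then 1 else 0) := by simp [eq_comm]
        have e2 : (if c = v then 1 else 0) = (if v = c then 1 else 0) := by simp [eq_comm]
        rw [e1, e2] at this
        omega
      obtain ⟨M, hM, hT⟩ := ih E' c b (by simpa using hn) hb
      exact ⟨(x, c) ::ₘ M, Multiset.cons_le_cons _ hM, Tr.cons hT⟩

/-- Through every edge of a balanced multigraph there is a circuit. -/
theorem exists_circuit (R : Multiset (V × V))
    (hR : ∀ v, R.countP (fun e => e.1 = v) = R.countP (fun e => e.2 = v))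
    (e : V × V) (he : e ∈ R) : ∃ M, M ≤ R ∧ Tr e.1 e.1 M ∧ 0 < M.card := by
  obtain ⟨R', rfl⟩ := Multiset.exists_cons_of_mem he
  obtain ⟨x, c⟩ := e
  have hb : Bal R' c x := by
    intro v
    have := hR v
    rw [Multiset.countP_cons, Multiset.countP_cons] at this
    simp only at this
    have e1 : (if x = v then 1 else 0) = (if v = x then 1 else 0) := by simp [eq_comm]
    have e2 : (if c = v then 1 else 0) = (if v = c then 1 else 0) := by simp [eq_comm]
    rw [e1, e2] at this
    omega
  obtain ⟨M, hM, hT⟩ := exists_tr _ R' c x rfl hb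
  exact ⟨(x, c) ::ₘ M, Multiset.cons_le_cons _ hM, Tr.cons hT, by simp⟩

/-- **Euler's theorem** for directed multigraphs: connectedness is expressed by closed sets. -/
theorem euler (E : Multiset (V × V)) (a b : V) (hE : Bal E a b)
    (hc : ∀ S : V → Prop, S a → (∀ e ∈ E, (S e.1 ↔ S e.2)) → ∀ e ∈ E, S e.1) : Tr a b E := by
  classical
  -- a trail with the largest number of edges
  obtain ⟨M0, hM0, hT0⟩ := exists_tr _ E a b rfl hE
  have hex : ∃ k, ∃ M, M ≤ E ∧ Tr a b M ∧ M.card + k = E.card :=
    ⟨E.card - M0.card, M0, hM0, hT0, by have := Multiset.card_le_card hM0; omega⟩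
  obtain ⟨M, hM, hT, hk⟩ := Nat.find_spec hex
  set k := Nat.find hex with hkdef
  by_cases hME : E - M = 0
  · have : E = M := by
      have h1 : E ≤ M := by simpa using (tsub_eq_zero_iff_le.1 hME)
      exact le_antisymm h1 hM
    rw [this]
    exact hT
  exfalso
  set R := E - M with hR
  have hsum : M + R = E := by rw [hR]; exact add_tsub_cancel_of_le hM
  have hbal : ∀ v, R.countP (fun e => e.1 = v) = R.countP (fun e => e.2 = v) := by
    intro v
    have h1 := hE v
    have h2 := hT.bal v
    rw [← hsum, Multiset.countP_add, Multiset.countP_add] at h1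
    omega
  -- no edge of the rest touches the trail
  have hno : ∀ v, (v = a ∨ ∃ e ∈ M, v = e.1 ∨ v = e.2) → ∀ e ∈ R, e.1 ≠ v ∧ e.2 ≠ v := by
    intro v hv
    have key : ∀ e ∈ R, e.1 ≠ v := by
      intro e he hev
      obtain ⟨C, hC, hCT, hC0⟩ := exists_circuit R hbal e he
      rw [hev] at hCT
      obtain ⟨M1, M2, h1, h2, h3⟩ := hT.split v hv
      have h4 : Tr a b (M1 + C + M2) := (h2.append hCT).append h3
      have h5 : M1 + C + M2 = M + C := by rw [h1]; abel
      rw [h5] at h4
      have h6 : M + C ≤ E := by rw [← hsum]; exact add_le_add_right hC M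
      have h7 : ∃ M', M' ≤ E ∧ Tr a b M' ∧ M'.card + (k - C.card) = E.card := by
        refine ⟨M + C, h6, h4, ?_⟩
        have := Multiset.card_le_card h6
        rw [Multiset.card_add] at this ⊢
        omega
      have h8 := Nat.find_min' hex h7
      have h9 := Multiset.card_le_card h6
      rw [Multiset.card_add] at h9
      omega
    intro e he
    refine ⟨key e he, ?_⟩
    intro hev
    have h1 : 0 < R.countP (fun e => e.2 = v) := Multiset.countP_pos.2 ⟨e, he, hev⟩
    rw [← hbal v] at h1
    obtain ⟨e', he', hev'⟩ := Multiset.countP_pos.1 h1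
    exact key e' he' hev'
  set S : V → Prop := fun v => v = a ∨ ∃ e ∈ M, v = e.1 ∨ v = e.2 with hS
  have hcl : ∀ e ∈ E, (S e.1 ↔ S e.2) := by
    intro e he
    rw [← hsum, Multiset.mem_add] at he
    rcases he with he | he
    · constructor
      · intro _; exact Or.inr ⟨e, he, Or.inr rfl⟩
      · intro _; exact Or.inr ⟨e, he, Or.inl rfl⟩
    · constructor
      · intro h; exact absurd rfl (hno _ h e he).1
      · intro h; exact absurd rfl (hno _ h e he).2
  have hall := hc S (Or.inl rfl) hcl
  obtain ⟨e, he⟩ := Multiset.exists_mem_of_ne_zero hME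
  have heE : e ∈ E := by rw [← hsum]; exact Multiset.mem_add.2 (Or.inr he)
  exact (hno _ (hall e heE) e he).1 rfl

end Pool.Agent.Helper78.FG
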