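import Pool.Agent.Helper78.FG.Euler

/-!
# Growing a flow on the grid vertex by vertex
-/

set_option autoImplicit false

namespace Pool.Agent.Helper78.FG

/-- Vertices of the grid. -/
abbrev Vx := ℤ × ℤ

/-- Sets of vertices which contain both ends or no end of every edge. -/
def Closed (E : Multiset (Vx × Vx)) (S : Vx → Prop) : Prop := ∀ e ∈ E, (S e.1 ↔ S e.2)

/-- `|n|` parallel edges from `p` to `q` (from `q` to `p` if `n < 0`). -/
def ed (p q : Vx) (n : ℤ) : Multiset (Vx × Vx) :=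
  if 0 ≤ n then Multiset.replicate n.toNat (p, q) else Multiset.replicate (-n).toNat (q, p)

theorem ed_zero (p q : Vx) : ed p q 0 = 0 := by simp [ed]

theorem ed_card (p q : Vx) (n : ℤ) : (ed p q n).card = n.natAbs := by
  unfold ed
  split_ifs with h
  · rw [Multiset.card_replicate]; omega
  · rw [Multiset.card_replicate]; omega

theorem mem_ed {p q : Vx} {n : ℤ} {e : Vx × Vx} (h : e ∈ ed p q n) :
    n ≠ 0 ∧ (e = (p, q) ∨ e = (q, p)) := by
  unfold ed at h
  split_ifs at h with h0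
  · rw [Multiset.mem_replicate] at h
    exact ⟨by omega, Or.inl h.2⟩
  · rw [Multiset.mem_replicate] at h
    exact ⟨by omega, Or.inr h.2⟩

theorem ed_closed {p q : Vx} {n : ℤ} (hn : n ≠ 0) {S : Vx → Prop} (h : Closed (ed p q n) S) :
    S p ↔ S q := by
  unfold ed at h
  split_ifs at h with h0
  · exact h (p, q) (Multiset.mem_replicate.2 ⟨by omega, rfl⟩)
  · exact (h (q, p) (Multiset.mem_replicate.2 ⟨by omega, rfl⟩)).symm

theorem ed_div (p q u : Vx) (n : ℤ) :
    ((ed p q n).countP (fun e => e.1 = u) : ℤ) - (ed p q n).countP (fun e => e.2 = u) =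
      (if p = u then n else 0) - (if q = u then n else 0) := by
  have hc : ∀ (k : ℕ) (x : Vx × Vx) (P : Vx × Vx → Prop) [DecidablePred P],
      (Multiset.replicate k x).countP P = if P x then k else 0 := by
    intro k x P _
    rw [← Multiset.coe_replicate, Multiset.coe_countP, List.countP_replicate]
    simp
  unfold ed
  split_ifs with h0 <;> rw [hc, hc] <;> dsimp only <;> split_ifs <;> omega

/-- The entry of an edge with flow `n` into the vertex `q`, with label `l`. -/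
def en (q : Vx) (n : ℤ) (l : ℕ) : Multiset (Vx × ℤ × ℕ) := if n = 0 then 0 else {(q, n, l)}

theorem mem_en {q : Vx} {n : ℤ} {l : ℕ} {t : Vx × ℤ × ℕ} :
    t ∈ en q n l ↔ n ≠ 0 ∧ t = (q, n, l) := by
  unfold en
  split_ifs with h
  · simp [h]
  · simp [h]

/-- Net flow of the interface into the vertex `u`. -/
def net (I : Multiset (Vx × ℤ × ℕ)) (u : Vx) : ℤ := (I.map (fun t => if t.1 = u then t.2.1 else 0)).sum

theorem net_add (I J : Multiset (Vx × ℤ × ℕ)) (u : Vx) : net (I + J) u = net I u + net J u := by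
  unfold net
  rw [Multiset.map_add, Multiset.sum_add]

theorem net_en (q u : Vx) (n : ℤ) (l : ℕ) : net (en q n l) u = if q = u then n else 0 := by
  unfold net en
  split_ifs with h h1 <;> simp_all

/-- The relabelling of an interface. -/
def rl (ρ : ℕ → ℕ) (I : Multiset (Vx × ℤ × ℕ)) : Multiset (Vx × ℤ × ℕ) :=
  I.map (fun t => (t.1, t.2.1, ρ t.2.2))

theorem net_rl (ρ : ℕ → ℕ) (I : Multiset (Vx × ℤ × ℕ)) (u : Vx) : net (rl ρ I) u = net I u := by
  unfold net rl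
  rw [Multiset.map_map]
  rfl

/-- The invariant of the growth process: `E` is the multiset of the edges drawn so far, `I` the
list of the edges into vertices which are not yet processed. -/
structure Inv (E : Multiset (Vx × Vx)) (I : Multiset (Vx × ℤ × ℕ)) : Prop where
  bal : ∀ u, (E.countP (fun e => e.1 = u) : ℤ) - E.countP (fun e => e.2 = u) =
    (if u = 0 then 1 else 0) - net I u
  con : ∀ S, Closed E S → ∀ t ∈ I, ∀ t' ∈ I, t.2.2 = t'.2.2 → (S t.1 ↔ S t'.1)
  acc : ∀ e ∈ E, ∃ t ∈ I, ∀ S, Closed E S → (S e.1 ↔ S t.1)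
  org : ∃ t ∈ I, ∀ S, Closed E S → (S 0 ↔ S t.1)

/-- One vertex is processed. -/
theorem Inv.step {E : Multiset (Vx × Vx)} {I0 : Multiset (Vx × ℤ × ℕ)} {p q1 q2 : Vx}
    {a v b w : ℤ} {la lv c : ℕ} {ρ : ℕ → ℕ}
    (h : Inv E (en p a la + en p v lv + I0)) (hsum : a + v = b + w)
    (hρ1 : ∀ t ∈ I0, ∀ t' ∈ I0, ρ t.2.2 = ρ t'.2.2 → t.2.2 = t'.2.2 ∨
      (((a ≠ 0 ∧ t.2.2 = la) ∨ (v ≠ 0 ∧ t.2.2 = lv)) ∧
        ((a ≠ 0 ∧ t'.2.2 = la) ∨ (v ≠ 0 ∧ t'.2.2 = lv))))
    (hρ2 : ∀ t ∈ I0, ρ t.2.2 = c → (b ≠ 0 ∨ w ≠ 0) →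
      ((a ≠ 0 ∧ t.2.2 = la) ∨ (v ≠ 0 ∧ t.2.2 = lv)))
    (halive : (a ≠ 0 ∨ v ≠ 0) → b = 0 → w = 0 → ∃ t ∈ I0, ((a ≠ 0 ∧ t.2.2 = la) ∨
      (v ≠ 0 ∧ t.2.2 = lv)))
    (hmerge : a ≠ 0 → v ≠ 0 → True) :
    Inv (E + ed p q1 b + ed p q2 w) (en q1 b c + en q2 w c + rl ρ I0) := by
  have hclE : ∀ S, Closed (E + ed p q1 b + ed p q2 w) S →
      Closed E S ∧ (b ≠ 0 → (S p ↔ S q1)) ∧ (w ≠ 0 → (S p ↔ S q2)) := by
    intro S hS
    refine ⟨fun e he => hS e (by simp [he]), fun hb => ?_, fun hw => ?_⟩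
    · exact ed_closed hb (fun e he => hS e (by simp [he]))
    · exact ed_closed hw (fun e he => hS e (by simp [he]))
  -- entries with touched labels are connected with `p`
  have htouch : ∀ S, Closed E S → ∀ t ∈ I0, ((a ≠ 0 ∧ t.2.2 = la) ∨ (v ≠ 0 ∧ t.2.2 = lv)) →
      (S t.1 ↔ S p) := by
    intro S hS t ht hT
    rcases hT with ⟨ha, hl⟩ | ⟨hv, hl⟩
    · exact h.con S hS t (by simp [ht]) (p, a, la) (by simp [mem_en, ha]) hl
    · exact h.con S hS t (by simp [ht]) (p, v, lv) (by simp [mem_en, hv]) hl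
  -- witnesses for `p`
  have hwit : (a ≠ 0 ∨ v ≠ 0 ∨ b ≠ 0 ∨ w ≠ 0) → ∃ t ∈ en q1 b c + en q2 w c + rl ρ I0,
      ∀ S, Closed (E + ed p q1 b + ed p q2 w) S → (S p ↔ S t.1) := by
    intro hne
    by_cases hb : b = 0
    · by_cases hw : w = 0
      · have hav : a ≠ 0 ∨ v ≠ 0 := by tauto
        obtain ⟨t, ht, hT⟩ := halive hav hb hw
        refine ⟨(t.1, t.2.1, ρ t.2.2), ?_, ?_⟩
        · rw [Multiset.mem_add]
          right
          exact Multiset.mem_map.2 ⟨t, ht, rfl⟩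
        · intro S hS
          exact (htouch S (hclE S hS).1 t ht hT).symm
      · exact ⟨(q2, w, c), by simp [mem_en, hw], fun S hS => (hclE S hS).2.2 hw⟩
    · exact ⟨(q1, b, c), by simp [mem_en, hb], fun S hS => (hclE S hS).2.1 hb⟩
  have hold : ∀ t ∈ en p a la + en p v lv + I0, ∃ t' ∈ en q1 b c + en q2 w c + rl ρ I0,
      ∀ S, Closed (E + ed p q1 b + ed p q2 w) S → (S t.1 ↔ S t'.1) := by
    intro t ht
    rw [Multiset.mem_add, Multiset.mem_add, mem_en, mem_en] at ht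
    rcases ht with (⟨ha, rfl⟩ | ⟨hv, rfl⟩) | ht
    · exact hwit (Or.inl ha)
    · exact hwit (Or.inr (Or.inl hv))
    · exact ⟨(t.1, t.2.1, ρ t.2.2), Multiset.mem_add.2 (Or.inr (Multiset.mem_map.2 ⟨t, ht, rfl⟩)),
        fun S _ => Iff.rfl⟩
  refine ⟨?_, ?_, ?_, ?_⟩
  · intro u
    have h1 := h.bal u
    have h2 := ed_div p q1 u b
    have h3 := ed_div p q2 u w
    rw [net_add, net_add, net_en, net_en] at h1
    rw [net_add, net_add, net_en, net_en, net_rl]
    rw [Multiset.countP_add, Multiset.countP_add, Multiset.countP_add, Multiset.countP_add]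
    push_cast
    split_ifs at h1 h2 h3 ⊢ <;> omega
  · intro S hS t ht t' ht' hl
    obtain ⟨hSE, hb, hw⟩ := hclE S hS
    -- reduce to `p`
    have hnew : ∀ t ∈ en q1 b c + en q2 w c, t.2.2 = c ∧ (S t.1 ↔ S p) ∧ (b ≠ 0 ∨ w ≠ 0) := by
      intro t ht
      rw [Multiset.mem_add, mem_en, mem_en] at ht
      rcases ht with ⟨h1, rfl⟩ | ⟨h1, rfl⟩
      · exact ⟨rfl, (hb h1).symm, Or.inl h1⟩
      · exact ⟨rfl, (hw h1).symm, Or.inr h1⟩
    have hcross : ∀ t ∈ en q1 b c + en q2 w c, ∀ t' ∈ I0, t.2.2 = ρ t'.2.2 →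
        (S t.1 ↔ S t'.1) := by
      intro t ht t' ht' hl
      obtain ⟨h1, h2, h3⟩ := hnew t ht
      exact h2.trans (htouch S hSE t' ht' (hρ2 t' ht' (hl.symm.trans h1) h3)).symm
    rw [Multiset.mem_add] at ht ht'
    rcases ht with ht | ht <;> rcases ht' with ht' | ht'
    · exact (hnew t ht).2.1.trans (hnew t' ht').2.1.symm
    · obtain ⟨s', hs', rfl⟩ := Multiset.mem_map.1 ht'
      exact hcross t ht s' hs' hl
    · obtain ⟨s, hs, rfl⟩ := Multiset.mem_map.1 ht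
      exact (hcross t' ht' s hs hl.symm).symm
    · obtain ⟨s, hs, rfl⟩ := Multiset.mem_map.1 ht
      obtain ⟨s', hs', rfl⟩ := Multiset.mem_map.1 ht'
      rcases hρ1 s hs s' hs' hl with h1 | ⟨h1, h2⟩
      · exact h.con S hSE s (by simp [hs]) s' (by simp [hs']) h1
      · exact (htouch S hSE s hs h1).trans (htouch S hSE s' hs' h2).symm
  · intro e he
    rw [Multiset.mem_add, Multiset.mem_add] at he
    rcases he with (he | he) | he
    · obtain ⟨t, ht, h1⟩ := h.acc e he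
      obtain ⟨t', ht', h2⟩ := hold t ht
      exact ⟨t', ht', fun S hS => (h1 S (hclE S hS).1).trans (h2 S hS)⟩
    · obtain ⟨hb, he'⟩ := mem_ed he
      obtain ⟨t', ht', h2⟩ := hwit (Or.inr (Or.inr (Or.inl hb)))
      refine ⟨t', ht', fun S hS => ?_⟩
      rcases he' with rfl | rfl
      · exact h2 S hS
      · exact ((hclE S hS).2.1 hb).symm.trans (h2 S hS)
    · obtain ⟨hw, he'⟩ := mem_ed he
      obtain ⟨t', ht', h2⟩ := hwit (Or.inr (Or.inr (Or.inr hw)))
      refine ⟨t', ht', fun S hS => ?_⟩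
      rcases he' with rfl | rfl
      · exact h2 S hS
      · exact ((hclE S hS).2.2 hw).symm.trans (h2 S hS)
  · obtain ⟨t, ht, h1⟩ := h.org
    obtain ⟨t', ht', h2⟩ := hold t ht
    exact ⟨t', ht', fun S hS => (h1 S (hclE S hS).1).trans (h2 S hS)⟩

/-- A relabelling which does not identify labels. -/
theorem Inv.relabel {E : Multiset (Vx × Vx)} {I : Multiset (Vx × ℤ × ℕ)} {ρ : ℕ → ℕ}
    (h : Inv E I) (hρ : ∀ t ∈ I, ∀ t' ∈ I, ρ t.2.2 = ρ t'.2.2 → t.2.2 = t'.2.2) :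
    Inv E (rl ρ I) := by
  refine ⟨?_, ?_, ?_, ?_⟩
  · intro u
    rw [net_rl]
    exact h.bal u
  · intro S hS t ht t' ht' hl
    obtain ⟨s, hs, rfl⟩ := Multiset.mem_map.1 ht
    obtain ⟨s', hs', rfl⟩ := Multiset.mem_map.1 ht'
    exact h.con S hS s hs s' hs' (hρ s hs s' hs' hl)
  · intro e he
    obtain ⟨t, ht, h1⟩ := h.acc e he
    exact ⟨_, Multiset.mem_map.2 ⟨t, ht, rfl⟩, h1⟩
  · obtain ⟨t, ht, h1⟩ := h.org
    exact ⟨_, Multiset.mem_map.2 ⟨t, ht, rfl⟩, h1⟩

/-- The start: one edge from the origin to the right. -/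
theorem inv_start : Inv (ed 0 (1, 0) 1) (en (1, 0) 1 1) := by
  have he : ed 0 (1, 0) 1 = {((0 : Vx), ((1, 0) : Vx))} := by
    unfold ed
    simp
  have hn : en ((1, 0) : Vx) 1 1 = {(((1, 0) : Vx), (1 : ℤ), 1)} := by
    unfold en
    simp
  refine ⟨?_, ?_, ?_, ?_⟩
  · intro u
    have h1 := ed_div 0 (1, 0) u 1
    rw [h1, net_en]
    have : (if (0 : Vx) = u then (1 : ℤ) else 0) = if u = 0 then 1 else 0 := by simp [eq_comm]
    rw [this]
  · intro S _ t ht t' ht' _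
    rw [hn, Multiset.mem_singleton] at ht ht'
    rw [ht, ht']
  · intro e h
    refine ⟨_, by rw [hn]; exact Multiset.mem_singleton_self _, ?_⟩
    intro S hS
    rw [he, Multiset.mem_singleton] at h
    subst h
    exact hS _ (by rw [he]; exact Multiset.mem_singleton_self _)
  · refine ⟨_, by rw [hn]; exact Multiset.mem_singleton_self _, ?_⟩
    intro S hS
    exact hS ((0 : Vx), ((1, 0) : Vx)) (by rw [he]; exact Multiset.mem_singleton_self _)

/-- The end: if only one edge with flow `1` is left, there is an Eulerian trail. -/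
theorem Inv.trail {E : Multiset (Vx × Vx)} {q : Vx} {l : ℕ} (h : Inv E (en q 1 l)) :
    Tr 0 q E := by
  have hn : en q 1 l = {(q, (1 : ℤ), l)} := by
    unfold en
    simp
  apply euler
  · intro u
    have h1 := h.bal u
    rw [net_en] at h1
    have h2 : (if q = u then (1 : ℤ) else 0) = if u = q then 1 else 0 := by simp [eq_comm]
    rw [h2] at h1
    split_ifs at h1 ⊢ <;> omega
  · intro S h0 hS e he
    obtain ⟨t, ht, h1⟩ := h.acc e he
    obtain ⟨t', ht', h2⟩ := h.org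
    rw [hn, Multiset.mem_singleton] at ht ht'
    rw [ht] at h1
    rw [ht'] at h2
    exact (h1 S hS).2 ((h2 S hS).1 h0)

end Pool.Agent.Helper78.FG
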