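import Pool.Agent.Helper78.FG.Count

/-!
# Kernel-friendly check of a certificate
-/

set_option autoImplicit false

namespace Pool.Agent.Helper78.FG

universe u

/-- Bool case distinction. -/
noncomputable def ib {α : Sort u} (b : Bool) (t e : α) : α := @Bool.rec (fun _ => α) e t b

/-- Application to an evaluated argument. -/
noncomputable def fo {α : Sort u} (n : ℕ) (f : ℕ → α) : α :=
  @Nat.rec (fun _ => α) (f 0) (fun m _ => f (Nat.succ m)) n

theorem fo_eq {α : Sort u} (n : ℕ) (f : ℕ → α) : fo n f = f n := by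
  cases n <;> rfl

theorem ib_true {b : Bool} {t e : Bool} : ib b t e = true ↔ (b = true ∧ t = true) ∨ (b = false ∧ e = true) := by
  cases b <;> simp [ib]

theorem ib_and {b t : Bool} : ib b t false = true ↔ b = true ∧ t = true := by
  cases b <;> simp [ib]

theorem ib_tr {α : Sort u} {t e : α} : ib true t e = t := rfl
theorem ib_fa {α : Sort u} {t e : α} : ib false t e = e := rfl

/-- Decode the rows of a state. -/
noncomputable def decV (k : ℕ) : ℕ → List (ℕ × ℕ) :=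
  @Nat.rec (fun _ => ℕ → List (ℕ × ℕ)) (fun _ => [])
    (fun _ ih s => ib (Nat.beq s 0) []
      ((Nat.div (Nat.mod s 256) 16, Nat.mod s 16) :: ih (Nat.div s 256))) k

noncomputable def alO (x y : ℕ) (L : List (ℕ × ℕ)) : Bool :=
  @List.rec (ℕ × ℕ) (fun _ => Bool) false
    (fun r _ ih => ib (Nat.beq r.1 8) ih (ib (Nat.beq r.2 x) true (ib (Nat.beq r.2 y) true ih))) L

noncomputable def alR (σ : ℕ → ℕ) (x y : ℕ) (L : List (ℕ × ℕ)) : Bool :=
  @List.rec (ℕ × ℕ) (fun _ => Bool) false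
    (fun r _ ih => ib (Nat.beq r.1 8) ih
      (ib (Nat.beq (σ r.2) x) true (ib (Nat.beq (σ r.2) y) true ih))) L

/-- Relabel. -/
noncomputable def rlL (l c : ℕ) (L : List (ℕ × ℕ)) : List (ℕ × ℕ) :=
  @List.rec (ℕ × ℕ) (fun _ => List (ℕ × ℕ)) []
    (fun r _ ih => (r.1, ib (Nat.beq r.2 l) c r.2) :: ih) L

/-- One row of a column. -/
noncomputable def row
    (ih : List (ℕ × ℕ) → List (ℕ × ℕ) → ℕ → ℕ → (ℕ → ℕ) → List (ℕ × ℕ) → ℕ → ℕ → Bool)
    (a la b : ℕ) (A B : List (ℕ × ℕ)) (v w c : ℕ) (σ : ℕ → ℕ) (out : List (ℕ × ℕ)) (f k : ℕ) :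
    Bool :=
  ib (Nat.beq a 8)
    (ib (Nat.beq v 64) (ih A B w f σ ((b, f) :: out) (Nat.succ f) k)
      (ih A B w c σ ((b, c) :: out) f k))
    (ib (Nat.beq v 64) (ih A B w (σ la) σ ((b, σ la) :: out) f k)
      (ib (ib (Nat.beq b 8)
          (ib (Nat.beq w 64) (ib (alO c (σ la) out) true (alR σ c (σ la) A)) true) true)
        (ib (Nat.beq c (σ la)) (ih A B w c σ ((b, c) :: out) f k)
          (ih A B w c (fun x => ib (Nat.beq (σ x) (σ la)) c (σ x))
            ((b, c) :: rlL (σ la) c out) f k))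
        false))

/-- The cost of a row. -/
noncomputable def cs (b w : ℕ) : ℕ :=
  Nat.add (Nat.add (Nat.sub b 8) (Nat.sub 8 b)) (Nat.add (Nat.sub w 64) (Nat.sub 64 w))

/-- The column. -/
noncomputable def colV (fin : List (ℕ × ℕ) → ℕ → Bool) (n : ℕ) :
    List (ℕ × ℕ) → List (ℕ × ℕ) → ℕ → ℕ → (ℕ → ℕ) → List (ℕ × ℕ) → ℕ → ℕ → Bool :=
  @Nat.rec (fun _ => List (ℕ × ℕ) → List (ℕ × ℕ) → ℕ → ℕ → (ℕ → ℕ) → List (ℕ × ℕ) → ℕ → ℕ → Bool)
    (fun _ _ _ _ _ _ _ _ => false)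
    (fun _ ih A B v c σ out f k =>
      @List.rec (ℕ × ℕ) (fun _ => Bool)
        (@List.rec (ℕ × ℕ) (fun _ => Bool)
          (ib (Nat.beq v 64) (fin out k) false)
          (fun b B _ => ib (Nat.ble b.1 (Nat.add v 8)) (fo (Nat.sub (Nat.add v 8) b.1) (fun w =>
            row ih 8 0 b.1 [] B v w c σ out f (Nat.add k (cs b.1 w)))) false) B)
        (fun a A _ => @List.rec (ℕ × ℕ) (fun _ => Bool)
          (ib (Nat.ble 8 (Nat.add v a.1)) (fo (Nat.sub (Nat.add v a.1) 8) (fun w =>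
            row ih a.1 a.2 8 A [] v w c σ out f (Nat.add k (cs 8 w)))) false)
          (fun b B _ => ib (Nat.ble b.1 (Nat.add v a.1)) (fo (Nat.sub (Nat.add v a.1) b.1) (fun w =>
            row ih a.1 a.2 b.1 A B v w c σ out f (Nat.add k (cs b.1 w)))) false) B) A) n

/-- One plus the position of the first nonzero entry with the label `l`. -/
noncomputable def fiV (L : List (ℕ × ℕ)) (l : ℕ) : ℕ :=
  @List.rec (ℕ × ℕ) (fun _ => ℕ) 1
    (fun r _ ih => ib (Nat.beq r.1 8) (Nat.succ ih) (ib (Nat.beq r.2 l) 1 (Nat.succ ih))) L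

/-- Comparison of the labels. -/
noncomputable def eqV (O L B : List (ℕ × ℕ)) : Bool :=
  @List.rec (ℕ × ℕ) (fun _ => List (ℕ × ℕ) → Bool) (fun _ => true)
    (fun b _ ih L => @List.rec (ℕ × ℕ) (fun _ => Bool) false
      (fun o L' _ => ib (Nat.beq o.1 b.1) (ib (Nat.beq b.1 8) (ib (Nat.beq b.2 0) (ih L') false)
        (ib (Nat.beq b.2 (fiV O o.2)) (ih L') false)) false) L) B L

noncomputable def repV (k : ℕ) (L : List (ℕ × ℕ)) : List (ℕ × ℕ) :=
  @Nat.rec (fun _ => List (ℕ × ℕ)) L (fun _ ih => (8, 0) :: ih) k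

noncomputable def dropV (k : ℕ) (L : List (ℕ × ℕ)) : List (ℕ × ℕ) :=
  @Nat.rec (fun _ => List (ℕ × ℕ) → List (ℕ × ℕ)) (fun L => L)
    (fun _ ih L => @List.rec (ℕ × ℕ) (fun _ => List (ℕ × ℕ)) [] (fun _ L' _ => ih L') L) k L

noncomputable def revV (L : List (ℕ × ℕ)) : List (ℕ × ℕ) → List (ℕ × ℕ) :=
  @List.rec (ℕ × ℕ) (fun _ => List (ℕ × ℕ) → List (ℕ × ℕ)) (fun M => M)
    (fun r _ ih M => ih (r :: M)) L

/-- A fresh label. -/
noncomputable def frV (L : List (ℕ × ℕ)) : ℕ :=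
  Nat.succ (@List.rec (ℕ × ℕ) (fun _ => ℕ) 0 (fun r _ ih => ib (Nat.ble r.2 ih) ih r.2) L)

/-- The check of one transition. -/
noncomputable def chkV (A B : List (ℕ × ℕ)) (sh c : ℕ) : Bool :=
  fo (frV A) (fun f =>
  colV (fun out k => ib (Nat.beq k c)
    ((fun O => eqV O O B) (dropV (Nat.sub sh 32) (revV out []))) false) 40
    (repV (Nat.sub 32 sh) A) (repV (Nat.sub sh 32) B) 64 0 (fun x => x) [] f 0)

/-- The state with the number `i`. -/
noncomputable def stV (S i : ℕ) : List (ℕ × ℕ) :=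
  decV 12 (Nat.mod (Nat.div S (Nat.pow 2 (Nat.mul 96 i))) (Nat.pow 2 96))

/-- The weight with the number `i`. -/
noncomputable def uV (U i : ℕ) : ℕ :=
  Nat.mod (Nat.div U (Nat.pow 2 (Nat.mul 24 i))) (Nat.pow 2 24)

/-- The edges of a state. -/
noncomputable def edV (P Q C S U N i : ℕ) (n : ℕ) : ℕ → ℕ → ℕ → Bool :=
  @Nat.rec (fun _ => ℕ → ℕ → ℕ → Bool)
    (fun X _ acc => ib (Nat.beq X 0) (Nat.ble (Nat.mul (Nat.pow P C) (uV U i)) acc) false)
    (fun _ ih X p acc => fo (Nat.mod X (Nat.pow 2 20)) (fun e => ib (Nat.ble e p) false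
      (fo (Nat.div e 1024) (fun j => fo (Nat.mod (Nat.div e 16) 64) (fun sh =>
        fo (Nat.mod e 16) (fun c => ib (Nat.ble N j) false (ib (Nat.beq c 0) false
          (ib (Nat.ble c C) (ib (chkV (stV S i) (stV S j) sh c)
            (fo (Nat.div X (Nat.pow 2 20)) (fun X' =>
            fo (Nat.add acc (Nat.mul (Nat.mul (Nat.pow Q c) (Nat.pow P (Nat.sub C c))) (uV U j)))
              (fun acc' => ih X' e acc'))) false) false)))))))) n

/-- An increasing code of the states. -/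
noncomputable def encV (L : List (ℕ × ℕ)) : ℕ → ℕ :=
  @List.rec (ℕ × ℕ) (fun _ => ℕ → ℕ) (fun a => a)
    (fun r _ ih a => ih (Nat.add (Nat.add (Nat.mul a 256) (Nat.mul r.1 16)) r.2)) L

/-- The last flow is nonzero. -/
noncomputable def lastV (L : List (ℕ × ℕ)) : ℕ → Bool :=
  @List.rec (ℕ × ℕ) (fun _ => ℕ → Bool) (fun a => ib (Nat.beq a 8) false true)
    (fun r _ ih _ => ih r.1) L

/-- The conditions on a state. -/
noncomputable def stc (L : List (ℕ × ℕ)) : Bool :=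
  @List.rec (ℕ × ℕ) (fun _ => Bool) false
    (fun r _ _ => ib (Nat.beq r.1 8) false (lastV L 8)) L

/-- The conditions on a state and its edges. -/
noncomputable def chkS (P Q C S U N i X : ℕ) : Bool :=
  ib (stc (stV S i))
    (ib (Nat.ble (Nat.succ (encV (stV S i) 0)) (encV (stV S (Nat.succ i)) 0))
      (ib (Nat.ble (Nat.mod X (Nat.pow 2 20)) 1023)
        (edV P Q C S U N i (Nat.succ (Nat.div (Nat.log2 X) 20)) X 0 0) false) false) false

/-- The conditions on a list of states and their edges. -/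
noncomputable def chkL (P Q C S U N : ℕ) (L : List ℕ) : ℕ → Bool :=
  @List.rec ℕ (fun _ => ℕ → Bool) (fun _ => true)
    (fun X _ ih i => ib (chkS P Q C S U N i X) (fo (Nat.succ i) ih) false) L

end Pool.Agent.Helper78.FG
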