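import Pool.Agent.Helper78.FG.Snd

/-!
# Soundness of the kernel-friendly check, second part
-/

set_option autoImplicit false

namespace Pool.Agent.Helper78.FG

theorem fiV_eq (L : List (ℕ × ℕ)) (l : ℕ) : fiV L l = 1 + fi (L.map dc) l := by
  induction L with
  | nil => rfl
  | cons r L ih =>
    have e : fiV (r :: L) l = ib (Nat.beq r.1 8) (Nat.succ (fiV L l))
      (ib (Nat.beq r.2 l) 1 (Nat.succ (fiV L l))) := rfl
    rw [e, ib_beq, ib_beq, ih]
    unfold fi
    rw [List.map_cons, List.findIdx_cons]
    simp only [dc]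
    by_cases h : r.1 = 8
    · simp only [h, if_true]
      have e2 : ((((8 : ℕ) : ℤ) - 8) != 0) = false := by norm_num
      rw [e2, Bool.false_and, cond_false]
      rfl
    · rw [if_neg h]
      have h' : ((r.1 : ℤ) - 8) ≠ 0 := by omega
      have h2 : (((r.1 : ℤ) - 8) != 0) = true := by simp [h']
      rw [h2, Bool.true_and]
      by_cases h3 : r.2 = l
      · rw [if_pos h3, h3]
        simp
      · rw [if_neg h3]
        have h4 : (r.2 == l) = false := by simp [h3]
        rw [h4, cond_false]
        rfl

theorem eqV_cons (O : List (ℕ × ℕ)) (o b : ℕ × ℕ) (L B : List (ℕ × ℕ)) :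
    eqV O (o :: L) (b :: B) = ib (Nat.beq o.1 b.1) (ib (Nat.beq b.1 8)
      (ib (Nat.beq b.2 0) (eqV O L B) false)
        (ib (Nat.beq b.2 (fiV O o.2)) (eqV O L B) false)) false := rfl

/-- The entries of the comparison. -/
theorem eqV_spec (O : List (ℕ × ℕ)) (B : List (ℕ × ℕ)) : ∀ L, eqV O L B = true →
    B.length ≤ L.length ∧ (L.take B.length).map (fun t => if (dc t).1 = 0 then ((0 : ℤ), 0)
      else ((dc t).1, fiV O t.2)) = B.map dc := by
  induction B with
  | nil => intro L _; simp
  | cons b B ih =>
    intro L h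
    cases L with
    | nil => exact absurd h (by simp [eqV])
    | cons o L =>
      rw [eqV_cons, ib_and, beq_iff] at h
      obtain ⟨h1, h2⟩ := h
      rw [ib_beq] at h2
      by_cases hb : b.1 = 8
      · rw [if_pos hb, ib_and, beq_iff] at h2
        obtain ⟨h3, h4⟩ := ih L h2.2
        refine ⟨by simp only [List.length_cons]; omega, ?_⟩
        rw [List.length_cons, List.take_succ_cons, List.map_cons, h4, List.map_cons]
        congr 1
        have : (dc o).1 = 0 := by
          unfold dc
          dsimp only
          omega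
        rw [if_pos this]
        unfold dc
        rw [hb, h2.1]
        norm_num
      · rw [if_neg hb, ib_and, beq_iff] at h2
        obtain ⟨h3, h4⟩ := ih L h2.2
        refine ⟨by simp only [List.length_cons]; omega, ?_⟩
        rw [List.length_cons, List.take_succ_cons, List.map_cons, h4, List.map_cons]
        congr 1
        have : ¬ (dc o).1 = 0 := by
          unfold dc
          dsimp only
          omega
        rw [if_neg this, ← h2.1]
        unfold dc
        rw [h1]

theorem findIdx_take {α : Type*} (p : α → Bool) (L : List α) (n : ℕ) {t : α} (ht : t ∈ L.take n)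
    (hp : p t = true) : (L.take n).findIdx p = L.findIdx p := by
  conv_rhs => rw [← List.take_append_drop n L, List.findIdx_append]
  rw [if_pos]
  exact List.findIdx_lt_length_of_exists ⟨t, ht, hp⟩

theorem eqV_sound {O B : List (ℕ × ℕ)} (h : eqV O O B = true) :
    nrm ((O.map dc).take B.length) = B.map dc := by
  obtain ⟨h1, h2⟩ := eqV_spec O B O h
  unfold nrm
  rw [← h2, ← List.map_take, List.map_map]
  apply List.map_congr_left
  intro t ht
  simp only [Function.comp]
  split_ifs with h0
  · rfl
  · congr 1
    rw [fiV_eq]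
    congr 1
    unfold fi
    rw [List.map_take]
    apply findIdx_take (t := dc t)
    · rw [← List.map_take]
      exact List.mem_map_of_mem ht
    · simp only [dc] at h0 ⊢
      simp [h0]

theorem dc_pad : dc (8, 0) = (0, 0) := by
  unfold dc
  norm_num

theorem db_pad : db (8, 0) = 0 := by
  unfold db
  norm_num

/-- Soundness of the check of a transition. -/
theorem chkV_sound {A B : List (ℕ × ℕ)} {sh c : ℕ} (h : chkV A B sh c = true) :
    next (A.map dc) (B.map db) ((sh : ℤ) - 32) = some (B.map dc) ∧
      nc (A.map dc) (B.map db) ((sh : ℤ) - 32) = c := by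
  unfold chkV at h
  rw [fo_eq] at h
  obtain ⟨out', k', h1, h2, h3⟩ := colV_sound _ _ _ _ _ _ _ _ _ _ h
  rw [ib_and, beq_iff] at h2
  obtain ⟨h4, h5⟩ := h2
  have e1 : (-((sh : ℤ) - 32)).toNat = Nat.sub 32 sh := by
    have : Nat.sub 32 sh = 32 - sh := rfl
    rw [this]
    omega
  have e2 : ((sh : ℤ) - 32).toNat = Nat.sub sh 32 := by
    have : Nat.sub sh 32 = sh - 32 := rfl
    rw [this]
    omega
  have hrows : zz ((repV (Nat.sub 32 sh) A).map dc) ((repV (Nat.sub sh 32) B).map db) =
      rowsOf (A.map dc) (B.map db) ((sh : ℤ) - 32) := by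
    unfold rowsOf
    rw [repV_eq, repV_eq, List.map_append, List.map_append, List.map_replicate,
      List.map_replicate, dc_pad, db_pad, e1, e2]
  rw [hrows, frV_eq, List.map_nil] at h1
  rw [hrows] at h3
  have e64 : ((64 : ℕ) : ℤ) - 64 = 0 := by norm_num
  rw [e64] at h1 h3
  constructor
  · unfold next
    rw [h1]
    simp only
    congr 1
    dsimp only at h5
    rw [dropV_eq, revV_eq, List.append_nil] at h5
    have := eqV_sound h5
    rw [List.map_drop, List.map_reverse] at this
    rw [e2, List.length_map]
    exact this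
  · unfold nc
    rw [← h4, h3]
    omega

/-! ### The edges of a state -/

/-- The codes of the edges. -/
noncomputable def cds (n : ℕ) : ℕ → List ℕ :=
  @Nat.rec (fun _ => ℕ → List ℕ) (fun _ => [])
    (fun _ ih X => Nat.mod X (Nat.pow 2 20) :: ih (Nat.div X (Nat.pow 2 20))) n

theorem cds_succ (n X : ℕ) : cds (n + 1) X =
    Nat.mod X (Nat.pow 2 20) :: cds n (Nat.div X (Nat.pow 2 20)) := rfl

/-- The edge of a code. -/
def dE (e : ℕ) : ℕ × ℤ × ℕ := (e / 1024, ((e / 16 % 64 : ℕ) : ℤ) - 32, e % 16)

theorem dE_inj {e e' : ℕ} (h : dE e = dE e') : e = e' := by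
  unfold dE at h
  rw [Prod.mk.injEq, Prod.mk.injEq] at h
  omega

/-- The conditions on the codes of the edges. -/
structure GoodE (P Q C S U N i : ℕ) (e : ℕ) : Prop where
  lt : e / 1024 < N
  nx : next ((stV S i).map dc) ((stV S (e / 1024)).map db) (dE e).2.1 =
    some ((stV S (e / 1024)).map dc)
  co : nc ((stV S i).map dc) ((stV S (e / 1024)).map db) (dE e).2.1 = (dE e).2.2
  c1 : 1 ≤ (dE e).2.2
  c2 : (dE e).2.2 ≤ C

theorem edV_sound (P Q C S U N i : ℕ) (n : ℕ) : ∀ X p acc, edV P Q C S U N i n X p acc = true →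
    (∀ e ∈ cds n X, p < e ∧ GoodE P Q C S U N i e) ∧ (cds n X).Pairwise (· < ·) ∧
    P ^ C * uV U i ≤ acc + ((cds n X).map
      (fun e => Q ^ (dE e).2.2 * P ^ (C - (dE e).2.2) * uV U (dE e).1)).sum := by
  induction n with
  | zero =>
    intro X p acc h
    have e : edV P Q C S U N i 0 X p acc =
      ib (Nat.beq X 0) (Nat.ble (Nat.mul (Nat.pow P C) (uV U i)) acc) false := rfl
    rw [e, ib_and, ble_iff] at h
    refine ⟨by simp [cds], by simp [cds], ?_⟩
    simpa [cds] using h.2
  | succ n ih =>
    intro X p acc h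
    have e : edV P Q C S U N i (n + 1) X p acc =
      fo (Nat.mod X (Nat.pow 2 20)) (fun e => ib (Nat.ble e p) false
      (fo (Nat.div e 1024) (fun j => fo (Nat.mod (Nat.div e 16) 64) (fun sh =>
        fo (Nat.mod e 16) (fun c => ib (Nat.ble N j) false (ib (Nat.beq c 0) false
          (ib (Nat.ble c C) (ib (chkV (stV S i) (stV S j) sh c)
            (fo (Nat.div X (Nat.pow 2 20)) (fun X' =>
            fo (Nat.add acc (Nat.mul (Nat.mul (Nat.pow Q c) (Nat.pow P (Nat.sub C c))) (uV U j)))
              (fun acc' => edV P Q C S U N i n X' e acc'))) false) false))))))) := rfl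
    rw [e, fo_eq] at h
    set x := Nat.mod X (Nat.pow 2 20) with hx
    rw [ib_ble] at h
    split_ifs at h with h0
    rw [fo_eq, fo_eq, fo_eq, ib_ble] at h
    split_ifs at h with h1
    rw [ib_beq] at h
    split_ifs at h with h2
    rw [ib_ble] at h
    split_ifs at h with h3
    rw [ib_and, fo_eq, fo_eq] at h
    obtain ⟨h4, h5⟩ := h
    obtain ⟨h6, h7, h8⟩ := ih _ _ _ h5
    obtain ⟨h9, h10⟩ := chkV_sound h4
    have d1 : Nat.div x 1024 = x / 1024 := rfl
    have d2 : Nat.mod (Nat.div x 16) 64 = x / 16 % 64 := rfl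
    have d3 : Nat.mod x 16 = x % 16 := rfl
    rw [d1, d2] at h9
    rw [d1, d2, d3] at h10
    rw [d1] at h1
    rw [d3] at h2 h3
    have hG : GoodE P Q C S U N i x := by
      refine ⟨by omega, h9, h10, ?_, h3⟩
      unfold dE
      dsimp only
      omega
    have hp : p < x := by omega
    refine ⟨?_, ?_, ?_⟩
    · intro y hy
      rw [cds_succ, List.mem_cons] at hy
      rcases hy with rfl | hy
      · exact ⟨hp, hG⟩
      · obtain ⟨h11, h12⟩ := h6 y hy
        exact ⟨by omega, h12⟩
    · rw [cds_succ, List.pairwise_cons]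
      exact ⟨fun y hy => (h6 y hy).1, h7⟩
    · rw [cds_succ, List.map_cons, List.sum_cons, ← add_assoc]
      exact h8

/-! ### States -/

theorem lastV_spec (L : List (ℕ × ℕ)) : ∀ a, lastV L a = true →
    ((L.map Prod.fst).getLastD a) ≠ 8 := by
  induction L with
  | nil =>
    intro a h
    have e : lastV [] a = ib (Nat.beq a 8) false true := rfl
    rw [e, ib_beq] at h
    split_ifs at h with h0
    simpa using h0
  | cons r L ih =>
    intro a h
    have e : lastV (r :: L) a = lastV L r.1 := rfl
    rw [e] at h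
    have := ih r.1 h
    rw [List.map_cons, List.getLastD_cons]
    exact this

theorem stc_sound {L : List (ℕ × ℕ)} (h : stc L = true) : NB (vc (L.map dc)) := by
  cases L with
  | nil => exact absurd h (by simp [stc])
  | cons r L =>
    have e : stc (r :: L) = ib (Nat.beq r.1 8) false (lastV (r :: L) 8) := rfl
    rw [e, ib_beq] at h
    split_ifs at h with h0
    have h1 := lastV_spec _ _ h
    constructor
    · unfold getZ vc
      simp only [le_refl, if_true, List.map_cons, Int.toNat_zero, List.getD_cons_zero, dc]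
      omega
    · unfold getZ
      have hlen : (vc ((r :: L).map dc)).length = L.length + 1 := by simp [vc]
      rw [hlen, if_pos (by omega)]
      have e1 : (((L.length + 1 : ℕ) : ℤ) - 1).toNat = L.length := by omega
      rw [e1]
      have e2 : vc ((r :: L).map dc) = ((r :: L).map Prod.fst).map (fun x : ℕ => (x : ℤ) - 8) := by
        unfold vc
        rw [List.map_map, List.map_map]
        rfl
      rw [e2]
      have h2 : ((r :: L).map Prod.fst).getLastD 8 = ((r :: L).map Prod.fst).getD L.length 0 := by
        rw [List.getLastD_eq_getLast?, List.getLast?_eq_getElem?, List.getD_eq_getElem?_getD]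
        simp only [List.length_map, List.length_cons, Nat.add_sub_cancel]
        have : ((r :: L).map Prod.fst)[L.length]? = some (((r :: L).map Prod.fst)[L.length]'(by
          simp)) := List.getElem?_eq_getElem _
        rw [this]
        rfl
      rw [h2] at h1
      rw [List.getD_eq_getElem _ _ (by simp)] at h1 ⊢
      rw [List.getElem_map]
      intro h3
      apply h1
      omega

theorem chkS_sound {P Q C S U N i X : ℕ} (h : chkS P Q C S U N i X = true) :
    NB (vc ((stV S i).map dc)) ∧ encV (stV S i) 0 < encV (stV S (i + 1)) 0 ∧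
    X % 2 ^ 20 ≤ 1023 ∧
    edV P Q C S U N i (Nat.succ (Nat.div (Nat.log2 X) 20)) X 0 0 = true := by
  unfold chkS at h
  rw [ib_and, ib_and, ib_and, ble_iff, ble_iff] at h
  exact ⟨stc_sound h.1, h.2.1, h.2.2.1, h.2.2.2⟩

theorem chkL_cons (P Q C S U N X : ℕ) (L : List ℕ) (i : ℕ) :
    chkL P Q C S U N (X :: L) i = ib (chkS P Q C S U N i X) (fo (Nat.succ i) (chkL P Q C S U N L))
      false := rfl

theorem chkL_sound (P Q C S U N : ℕ) (L : List ℕ) : ∀ i, chkL P Q C S U N L i = true →
    ∀ k < L.length, chkS P Q C S U N (i + k) (L.getD k 0) = true := by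
  induction L with
  | nil => intro i _ k hk; simp at hk
  | cons X L ih =>
    intro i h k hk
    rw [chkL_cons, ib_and, fo_eq] at h
    cases k with
    | zero => exact h.1
    | succ k =>
      have := ih (Nat.succ i) h.2 k (by simpa using hk)
      rw [List.getD_cons_succ]
      have e : i + (k + 1) = Nat.succ i + k := by omega
      rw [e]
      exact this

/-- The list of the edges of a state. -/
noncomputable def eL (X : ℕ) : List (ℕ × ℤ × ℕ) :=
  (cds (Nat.succ (Nat.div (Nat.log2 X) 20)) X).map dE

/-- The assembly of the certificate. -/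
theorem cert_of {P Q C S U N : ℕ} {L : List ℕ} (hN : 0 < N) (hQ : 0 < Q) (hPQ : Q ≤ P)
    (h0 : stV S 0 = [(9, 1)]) (hu : 0 < uV U 0)
    (h : ∀ i < N, chkS P Q C S U N i (L.getD i 0) = true) :
    Cert N C P Q (fun i => (stV S i).map dc) (uV U) (fun i => if i = 0 then 0 else 1)
      (fun i => eL (L.getD i 0)) := by
  have hmono : ∀ i j, i < j → j < N → encV (stV S i) 0 < encV (stV S j) 0 := by
    intro i j hij
    induction j with
    | zero => omega
    | succ j ih =>
      intro hj
      have h1 := (chkS_sound (h j (by omega))).2.1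
      rcases Nat.lt_or_ge i j with h2 | h2
      · exact lt_trans (ih h2 (by omega)) h1
      · have : i = j := by omega
        rw [this]
        exact h1
  have hvc : ∀ j, vc ((stV S j).map dc) = (stV S j).map db := by
    intro j
    unfold vc
    rw [List.map_map]
    rfl
  refine ⟨hN, hQ, hPQ, ?_, ?_, ?_, ?_, ?_, ?_, hu, ?_⟩
  · try dsimp only
    rw [h0]
    simp [dc]
  · intro i hi e he
    try dsimp only at he ⊢
    unfold eL at he
    rw [List.mem_map] at he
    obtain ⟨x, hx, rfl⟩ := he
    have h1 := (chkS_sound (h i hi)).2.2.2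
    obtain ⟨h2, _, _⟩ := edV_sound _ _ _ _ _ _ _ _ _ _ _ h1
    have h3 := (h2 x hx).2
    refine ⟨h3.lt, ?_, ?_, h3.c1, h3.c2⟩
    · rw [hvc]
      exact h3.nx
    · rw [hvc]
      exact h3.co
  · intro i hi
    have h1 := (chkS_sound (h i hi)).2.2.2
    obtain ⟨_, h2, _⟩ := edV_sound _ _ _ _ _ _ _ _ _ _ _ h1
    try dsimp only
    unfold eL
    refine List.Nodup.map (fun a b => dE_inj) ?_
    exact h2.imp (fun hab => by omega)
  · intro i hi j hj hij
    try dsimp only at hij
    have h1 : stV S i = stV S j := List.map_injective_iff.2 (fun a b => dc_inj) hij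
    by_contra hne
    rcases Nat.lt_or_gt_of_ne hne with h2 | h2
    · have := hmono i j h2 hj
      rw [h1] at this
      omega
    · have := hmono j i h2 hi
      rw [h1] at this
      omega
  · intro i hi
    exact (chkS_sound (h i hi)).1
  · intro i hi hi0
    have h1 := (chkS_sound (h i hi)).2.2.1
    refine ⟨dE (L.getD i 0 % 2 ^ 20), ?_, ?_⟩
    · try dsimp only
      unfold eL
      rw [cds_succ, List.map_cons]
      exact List.mem_cons_self
    · try dsimp only
      rw [if_neg hi0, if_pos]
      · norm_num
      · unfold dE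
        try dsimp only
        omega
  · intro i hi
    have h1 := (chkS_sound (h i hi)).2.2.2
    obtain ⟨_, _, h2⟩ := edV_sound _ _ _ _ _ _ _ _ _ _ _ h1
    rw [zero_add] at h2
    try dsimp only
    unfold eL
    rw [List.map_map]
    exact h2

end Pool.Agent.Helper78.FG
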