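import Pool.Agent.Helper78.FG.E0
import Pool.Agent.Helper78.FG.E1
import Pool.Agent.Helper78.FG.E2
import Pool.Agent.Helper78.FG.E3
import Pool.Agent.Helper78.FG.E4
import Pool.Agent.Helper78.FG.E5
import Pool.Agent.Helper78.FG.E6
import Pool.Agent.Helper78.FG.E7
import Pool.Agent.Helper78.FG.E8
import Pool.Agent.Helper78.FG.E9
import Pool.Agent.Helper78.FG.Snd2

/-!
# The lower bound for the growth rate
-/

set_option autoImplicit false
set_option maxRecDepth 100000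

namespace Pool.Agent.Helper78.FG

theorem chkL_append (P Q C S U N : ℕ) (L M : List ℕ) : ∀ i, chkL P Q C S U N L i = true →
    chkL P Q C S U N M (i + L.length) = true → chkL P Q C S U N (L ++ M) i = true := by
  induction L with
  | nil => intro i _ h; exact h
  | cons X L ih =>
    intro i h h'
    rw [chkL_cons, ib_and, fo_eq] at h
    rw [List.cons_append, chkL_cons, ib_and, fo_eq]
    refine ⟨h.1, ih _ h.2 ?_⟩
    rw [List.length_cons] at h'
    have e : Nat.succ i + L.length = i + (L.length + 1) := by omega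
    rw [e]
    exact h'

theorem okc9 : chkL 27 10 10 SS UU 745 XX9 664 = true := ok9

theorem len8 : XX8.length = 44 := rfl

theorem okc8 : chkL 27 10 10 SS UU 745 (XX8 ++ XX9) 620 = true :=
  chkL_append _ _ _ _ _ _ _ _ _ ok8 (by rw [len8]; exact okc9)

theorem len7 : XX7.length = 92 := rfl

theorem okc7 : chkL 27 10 10 SS UU 745 (XX7 ++ (XX8 ++ XX9)) 528 = true :=
  chkL_append _ _ _ _ _ _ _ _ _ ok7 (by rw [len7]; exact okc8)

theorem len6 : XX6.length = 145 := rfl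

theorem okc6 : chkL 27 10 10 SS UU 745 (XX6 ++ (XX7 ++ (XX8 ++ XX9))) 383 = true :=
  chkL_append _ _ _ _ _ _ _ _ _ ok6 (by rw [len6]; exact okc7)

theorem len5 : XX5.length = 151 := rfl

theorem okc5 : chkL 27 10 10 SS UU 745 (XX5 ++ (XX6 ++ (XX7 ++ (XX8 ++ XX9)))) 232 = true :=
  chkL_append _ _ _ _ _ _ _ _ _ ok5 (by rw [len5]; exact okc6)

theorem len4 : XX4.length = 91 := rfl

theorem okc4 : chkL 27 10 10 SS UU 745 (XX4 ++ (XX5 ++ (XX6 ++ (XX7 ++ (XX8 ++ XX9))))) 141 = true :=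
  chkL_append _ _ _ _ _ _ _ _ _ ok4 (by rw [len4]; exact okc5)

theorem len3 : XX3.length = 69 := rfl

theorem okc3 : chkL 27 10 10 SS UU 745 (XX3 ++ (XX4 ++ (XX5 ++ (XX6 ++ (XX7 ++ (XX8 ++ XX9)))))) 72 = true :=
  chkL_append _ _ _ _ _ _ _ _ _ ok3 (by rw [len3]; exact okc4)

theorem len2 : XX2.length = 51 := rfl

theorem okc2 : chkL 27 10 10 SS UU 745 (XX2 ++ (XX3 ++ (XX4 ++ (XX5 ++ (XX6 ++ (XX7 ++ (XX8 ++ XX9))))))) 21 = true :=
  chkL_append _ _ _ _ _ _ _ _ _ ok2 (by rw [len2]; exact okc3)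

theorem len1 : XX1.length = 17 := rfl

theorem okc1 : chkL 27 10 10 SS UU 745 (XX1 ++ (XX2 ++ (XX3 ++ (XX4 ++ (XX5 ++ (XX6 ++ (XX7 ++ (XX8 ++ XX9)))))))) 4 = true :=
  chkL_append _ _ _ _ _ _ _ _ _ ok1 (by rw [len1]; exact okc2)

theorem len0 : XX0.length = 4 := rfl

theorem okc0 : chkL 27 10 10 SS UU 745 (XX0 ++ (XX1 ++ (XX2 ++ (XX3 ++ (XX4 ++ (XX5 ++ (XX6 ++ (XX7 ++ (XX8 ++ XX9))))))))) 0 = true :=
  chkL_append _ _ _ _ _ _ _ _ _ ok0 (by rw [len0]; exact okc1)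

theorem lenLast : XX9.length = 81 := rfl

theorem lenAll : (XX0 ++ (XX1 ++ (XX2 ++ (XX3 ++ (XX4 ++ (XX5 ++ (XX6 ++ (XX7 ++ (XX8 ++ XX9))))))))).length = 745 := by
  simp only [List.length_append, len0, len1, len2, len3, len4, len5, len6, len7, len8, lenLast]

/-- The certificate. -/
theorem cert : Cert 745 10 27 10 (fun i => (stV SS i).map dc) (uV UU)
    (fun i => if i = 0 then 0 else 1)
    (fun i => eL ((XX0 ++ (XX1 ++ (XX2 ++ (XX3 ++ (XX4 ++ (XX5 ++ (XX6 ++ (XX7 ++ (XX8 ++ XX9))))))))).getD i 0)) := by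
  refine cert_of (by norm_num) (by norm_num) (by norm_num) (by decide +kernel)
    (by decide +kernel) ?_
  intro i hi
  have h := chkL_sound _ _ _ _ _ _ _ 0 okc0 i (by rw [lenAll]; exact hi)
  rw [zero_add] at h
  exact h

/-- The lower bound. -/
theorem lower (hr : 1 ≤ 2) : (27 : ℝ) / 10 ≤ Pool.Agent.Helper44.FMet.om 2 hr := by
  have h := cert.le_growth hr
  exact_mod_cast h

end Pool.Agent.Helper78.FG
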