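import Pool.Agent.Helper44.FMet.Fekete

/-!
# Words with equal flows, rank two
-/

set_option autoImplicit false

namespace Pool.Agent.Helper78.FG

open Pool.Agent.Helper62.FM

/-- The free metabelian group of rank two. -/
abbrev GG := FMet 2

/-- The derived subgroup. -/
abbrev AA := ↥(commutator GG)

noncomputable instance instCommAA : CommGroup AA :=
  { (inferInstance : Group AA) with
    mul_comm := fun a b => Subtype.ext (comm_of_mem a.2 b.2) }

/-- The first generator. -/
def gX : GG := el [((0, true) : Lt 2)]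

/-- The second generator. -/
def gY : GG := el [((1, true) : Lt 2)]

/-- The normal form of a vertex. -/
def PX (m n : ℤ) : GG := gX ^ m * gY ^ n

/-- The element of a horizontal edge. -/
def EE (m n : ℤ) : GG := PX m n * gX * (PX (m + 1) n)⁻¹

theorem EE_mem (m n : ℤ) : EE m n ∈ commutator GG := by
  have h : EE m n = gX ^ m * (gY ^ n * gX * (gY ^ n)⁻¹ * gX⁻¹) * (gX ^ m)⁻¹ := by
    unfold EE PX
    rw [zpow_add, zpow_one, mul_inv_rev, mul_inv_rev]
    simp only [mul_assoc]
  rw [h]
  exact conj_mem (comm_mem _ _) _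

/-- The element of a coded edge. -/
def Ec (q : ℕ) : AA := ⟨EE ((q : ℤ) / 32 - 16) ((q : ℤ) % 32 - 16), EE_mem _ _⟩

/-- The element of a coded vertex. -/
def Pc (q : ℕ) : GG := PX ((q : ℤ) / 32 - 16) ((q : ℤ) % 32 - 16)

/-- The letter of a digit. -/
def dl (d : ℕ) : Lt 2 :=
  if d = 0 then (0, true) else if d = 1 then (1, true) else if d = 2 then (1, false)
    else (0, false)

/-- The word of length `k` with the code `c`; the first letter is the least significant digit. -/
def wd : ℕ → ℕ → Wd 2
  | 0, _ => []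
  | k + 1, c => dl (c % 4) :: wd k (c / 4)

/-- The horizontal edges crossed to the right. -/
def posC : ℕ → ℕ → ℕ → List ℕ
  | 0, _, _ => []
  | k + 1, c, q =>
    if c % 4 = 0 then q :: posC k (c / 4) (q + 32)
    else if c % 4 = 1 then posC k (c / 4) (q + 1)
    else if c % 4 = 2 then posC k (c / 4) (q - 1)
    else posC k (c / 4) (q - 32)

/-- The horizontal edges crossed to the left. -/
def negC : ℕ → ℕ → ℕ → List ℕ
  | 0, _, _ => []
  | k + 1, c, q =>
    if c % 4 = 0 then negC k (c / 4) (q + 32)
    else if c % 4 = 1 then negC k (c / 4) (q + 1)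
    else if c % 4 = 2 then negC k (c / 4) (q - 1)
    else (q - 32) :: negC k (c / 4) (q - 32)

/-- The end of the walk. -/
def endC : ℕ → ℕ → ℕ → ℕ
  | 0, _, q => q
  | k + 1, c, q =>
    if c % 4 = 0 then endC k (c / 4) (q + 32)
    else if c % 4 = 1 then endC k (c / 4) (q + 1)
    else if c % 4 = 2 then endC k (c / 4) (q - 1)
    else endC k (c / 4) (q - 32)

theorem Pc_right (q : ℕ) : Pc q * gX = (Ec q : GG) * Pc (q + 32) := by
  have e1 : (((q + 32 : ℕ) : ℤ)) / 32 - 16 = (q : ℤ) / 32 - 16 + 1 := by omega
  have e2 : (((q + 32 : ℕ) : ℤ)) % 32 - 16 = (q : ℤ) % 32 - 16 := by omega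
  unfold Pc Ec
  rw [e1, e2]
  unfold EE
  simp only
  rw [inv_mul_cancel_right]

theorem Pc_left {q : ℕ} (h : 32 ≤ q) :
    Pc q * gX⁻¹ = ((Ec (q - 32) : GG))⁻¹ * Pc (q - 32) := by
  have h1 := Pc_right (q - 32)
  have e : q - 32 + 32 = q := by omega
  rw [e] at h1
  have h2 : Pc q = ((Ec (q - 32) : GG))⁻¹ * (Pc (q - 32) * gX) := by
    rw [h1, inv_mul_cancel_left]
  rw [h2, mul_assoc, mul_inv_cancel_right]

theorem Pc_up {q : ℕ} (h : q % 32 < 31) : Pc q * gY = Pc (q + 1) := by
  have e1 : (((q + 1 : ℕ) : ℤ)) / 32 - 16 = (q : ℤ) / 32 - 16 := by omega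
  have e2 : (((q + 1 : ℕ) : ℤ)) % 32 - 16 = (q : ℤ) % 32 - 16 + 1 := by omega
  unfold Pc PX
  rw [e1, e2, zpow_add_one, mul_assoc]

theorem Pc_down {q : ℕ} (h : 1 ≤ q % 32) : Pc q * gY⁻¹ = Pc (q - 1) := by
  have h1 := Pc_up (q := q - 1) (by omega)
  have e : q - 1 + 1 = q := by omega
  rw [e] at h1
  rw [← h1, mul_inv_cancel_right]

theorem el_X' : el [((0, false) : Lt 2)] = gX⁻¹ := by
  have := el_bar ((0, true) : Lt 2)
  exact this

theorem el_Y' : el [((1, false) : Lt 2)] = gY⁻¹ := by
  have := el_bar ((1, true) : Lt 2)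
  exact this

/-- The walk of a word. -/
theorem walk : ∀ (k c q : ℕ), k ≤ q % 32 → q % 32 + k ≤ 31 → k ≤ q / 32 →
    Pc q * el (wd k c) = ((((posC k c q).map Ec).prod * (((negC k c q).map Ec).prod)⁻¹ : AA) : GG) *
      Pc (endC k c q) := by
  intro k
  induction k with
  | zero =>
    intro c q _ _ _
    simp [wd, posC, negC, endC, el_nil]
  | succ k ih =>
    intro c q h1 h2 h3
    have e0 : wd (k + 1) c = dl (c % 4) :: wd k (c / 4) := rfl
    rw [e0, el_cons, ← mul_assoc]
    have h4 : c % 4 < 4 := Nat.mod_lt _ (by norm_num)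
    by_cases c0 : c % 4 = 0
    · have e : dl (c % 4) = (0, true) := by simp [dl, c0]
      have e1 : posC (k + 1) c q = q :: posC k (c / 4) (q + 32) := by simp [posC, c0]
      have e2 : negC (k + 1) c q = negC k (c / 4) (q + 32) := by simp [negC, c0]
      have e3 : endC (k + 1) c q = endC k (c / 4) (q + 32) := by simp [endC, c0]
      have ih' := ih (c / 4) (q + 32) (by omega) (by omega) (by omega)
      have h5 : Pc q * el [((0, true) : Lt 2)] = (Ec q : GG) * Pc (q + 32) := Pc_right q
      rw [e, e1, e2, e3, h5, mul_assoc, ih', List.map_cons, List.prod_cons, mul_assoc (Ec q),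
        Subgroup.coe_mul (commutator GG) (Ec q), mul_assoc]
    · by_cases c1 : c % 4 = 1
      · have e : dl (c % 4) = (1, true) := by simp [dl, c1]
        have e1 : posC (k + 1) c q = posC k (c / 4) (q + 1) := by simp [posC, c1]
        have e2 : negC (k + 1) c q = negC k (c / 4) (q + 1) := by simp [negC, c1]
        have e3 : endC (k + 1) c q = endC k (c / 4) (q + 1) := by simp [endC, c1]
        have ih' := ih (c / 4) (q + 1) (by omega) (by omega) (by omega)
        have h5 : Pc q * el [((1, true) : Lt 2)] = Pc (q + 1) := Pc_up (by omega)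
        rw [e, e1, e2, e3, h5, ih']
      · by_cases c2 : c % 4 = 2
        · have e : dl (c % 4) = (1, false) := by simp [dl, c2]
          have e1 : posC (k + 1) c q = posC k (c / 4) (q - 1) := by simp [posC, c2]
          have e2 : negC (k + 1) c q = negC k (c / 4) (q - 1) := by simp [negC, c2]
          have e3 : endC (k + 1) c q = endC k (c / 4) (q - 1) := by simp [endC, c2]
          have ih' := ih (c / 4) (q - 1) (by omega) (by omega) (by omega)
          have h5 : Pc q * el [((1, false) : Lt 2)] = Pc (q - 1) := by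
            rw [el_Y']
            exact Pc_down (by omega)
          rw [e, e1, e2, e3, h5, ih']
        · have c3 : c % 4 = 3 := by omega
          have e : dl (c % 4) = (0, false) := by simp [dl, c3]
          have e1 : posC (k + 1) c q = posC k (c / 4) (q - 32) := by simp [posC, c3]
          have e2 : negC (k + 1) c q = (q - 32) :: negC k (c / 4) (q - 32) := by simp [negC, c3]
          have e3 : endC (k + 1) c q = endC k (c / 4) (q - 32) := by simp [endC, c3]
          have ih' := ih (c / 4) (q - 32) (by omega) (by omega) (by omega)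
          have h5 : Pc q * el [((0, false) : Lt 2)] =
              ((Ec (q - 32) : GG))⁻¹ * Pc (q - 32) := by
            rw [el_X']
            exact Pc_left (by omega)
          rw [e, e1, e2, e3, h5, mul_assoc, ih', List.map_cons, List.prod_cons, mul_inv,
            mul_left_comm, Subgroup.coe_mul (commutator GG) (Ec (q - 32))⁻¹, mul_assoc,
            Subgroup.coe_inv]

/-- Words with equal flows and equal ends represent the same element. -/
theorem el_eq {k c k' c' q : ℕ} (h1 : k ≤ q % 32) (h2 : q % 32 + k ≤ 31) (h3 : k ≤ q / 32)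
    (h1' : k' ≤ q % 32) (h2' : q % 32 + k' ≤ 31) (h3' : k' ≤ q / 32)
    (he : endC k c q = endC k' c' q)
    (hp : (posC k c q ++ negC k' c' q).Perm (posC k' c' q ++ negC k c q)) :
    el (wd k c) = el (wd k' c') := by
  have w1 := walk k c q h1 h2 h3
  have w2 := walk k' c' q h1' h2' h3'
  have h4 := (hp.map Ec).prod_eq
  rw [List.map_append, List.map_append, List.prod_append, List.prod_append] at h4
  have h5 : ((posC k c q).map Ec).prod * (((negC k c q).map Ec).prod)⁻¹ =
      ((posC k' c' q).map Ec).prod * (((negC k' c' q).map Ec).prod)⁻¹ := by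
    rw [← div_eq_mul_inv, ← div_eq_mul_inv, div_eq_div_iff_mul_eq_mul]
    exact h4
  rw [he, h5, ← w2] at w1
  exact mul_left_cancel w1

/-! ### Numbers which encode lists -/

/-- The number of a list. -/
def nmb (L : List ℕ) : ℕ := (L.map (fun c => 32 ^ c)).sum

theorem nmb_cons (a : ℕ) (L : List ℕ) : nmb (a :: L) = 32 ^ a + nmb L := rfl

theorem nmb_split (c : ℕ) (L : List ℕ) : ∃ a m, nmb L = a + 32 ^ c * (L.count c + 32 * m) ∧
    32 * a ≤ L.length * 32 ^ c := by
  induction L with
  | nil => exact ⟨0, 0, by simp [nmb]⟩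
  | cons x L ih =>
    obtain ⟨a, m, h1, h2⟩ := ih
    rcases Nat.lt_trichotomy x c with hx | hx | hx
    · refine ⟨a + 32 ^ x, m, ?_, ?_⟩
      · rw [nmb_cons, h1, List.count_cons_of_ne (by omega)]
        ring
      · have h3 : 32 * 32 ^ x ≤ 32 ^ c := by
          rw [← pow_succ']
          exact Nat.pow_le_pow_right (by norm_num) hx
        rw [List.length_cons, Nat.add_mul, one_mul]
        omega
    · subst hx
      refine ⟨a, m, ?_, ?_⟩
      · rw [nmb_cons, h1, List.count_cons_self]
        ring
      · rw [List.length_cons, Nat.add_mul]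
        omega
    · refine ⟨a, m + 32 ^ (x - c - 1), ?_, ?_⟩
      · rw [nmb_cons, h1, List.count_cons_of_ne (by omega)]
        have h3 : 32 ^ x = 32 ^ c * (32 * 32 ^ (x - c - 1)) := by
          rw [← pow_succ', ← pow_add]
          congr 1
          omega
        rw [h3]
        ring
      · rw [List.length_cons, Nat.add_mul]
        omega

theorem nmb_count (c : ℕ) (L : List ℕ) (hL : L.length < 32) :
    L.count c = nmb L / 32 ^ c % 32 := by
  obtain ⟨a, m, h1, h2⟩ := nmb_split c L
  have hpos : 0 < 32 ^ c := pow_pos (by norm_num) c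
  have ha : a < 32 ^ c := by
    have h3 : L.length * 32 ^ c < 32 * 32 ^ c := Nat.mul_lt_mul_of_pos_right hL hpos
    omega
  have h4 : nmb L / 32 ^ c = L.count c + 32 * m := by
    rw [h1, Nat.add_mul_div_left _ _ hpos, Nat.div_eq_of_lt ha, zero_add]
  rw [h4, Nat.add_mul_mod_self_left]
  have h5 : L.count c ≤ L.length := List.count_le_length
  exact (Nat.mod_eq_of_lt (by omega)).symm

theorem nmb_inj {L M : List ℕ} (hL : L.length < 32) (hM : M.length < 32)
    (h : nmb L = nmb M) : L.Perm M := by
  rw [List.perm_iff_count]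
  intro c
  rw [nmb_count c L hL, nmb_count c M hM, h]

theorem nmb_append (L M : List ℕ) : nmb (L ++ M) = nmb L + nmb M := by
  unfold nmb
  rw [List.map_append, List.sum_append]

theorem length_posC : ∀ (k c q : ℕ), (posC k c q).length + (negC k c q).length ≤ k := by
  intro k
  induction k with
  | zero => intro c q; simp [posC, negC]
  | succ k ih =>
    intro c q
    unfold posC negC
    split_ifs
    · have := ih (c / 4) (q + 32)
      simp only [List.length_cons]
      omega
    · have := ih (c / 4) (q + 1)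
      omega
    · have := ih (c / 4) (q - 1)
      omega
    · have := ih (c / 4) (q - 32)
      simp only [List.length_cons]
      omega

end Pool.Agent.Helper78.FG
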