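import Pool.Agent.Helper78.FG.Col

/-!
# Sequences of columns
-/

set_option autoImplicit false

namespace Pool.Agent.Helper78.FG

/-- Align old edges and new edges. -/
def zz : List (ℤ × ℕ) → List ℤ → List ((ℤ × ℕ) × ℤ)
  | [], B => B.map (fun b => ((0, 0), b))
  | a :: A, B => (a, B.headD 0) :: zz A B.tail

/-- The rows of the column between the old edges `A` and the new edges `B`, the latter shifted up
by `sh`. -/
def rowsOf (A : List (ℤ × ℕ)) (B : List ℤ) (sh : ℤ) : List ((ℤ × ℕ) × ℤ) :=
  zz (List.replicate (-sh).toNat (0, 0) ++ A) (List.replicate sh.toNat 0 ++ B)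

/-- Position of the first nonzero entry with label `l`. -/
def fi (L : List (ℤ × ℕ)) (l : ℕ) : ℕ := L.findIdx (fun s => s.1 != 0 && s.2 == l)

/-- Normal form of the labels. -/
def nrm (L : List (ℤ × ℕ)) : List (ℤ × ℕ) :=
  L.map (fun t => if t.1 = 0 then (0, 0) else (t.1, 1 + fi L t.2))

/-- A label larger than all labels of `A`. -/
def fr (A : List (ℤ × ℕ)) : ℕ := A.foldr (fun t m => max t.2 m) 0 + 1

/-- The next state. -/
def next (A : List (ℤ × ℕ)) (B : List ℤ) (sh : ℤ) : Option (List (ℤ × ℕ)) :=
  match col (rowsOf A B sh) 0 0 (fun l => l) [] (fr A) with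
  | none => none
  | some out => some (nrm ((out.reverse.drop sh.toNat).take B.length))

/-- The cost of a step. -/
def nc (A : List (ℤ × ℕ)) (B : List ℤ) (sh : ℤ) : ℕ := ccost (rowsOf A B sh) 0

/-- The edges of a step. -/
def stepE (x o : ℤ) (A : List (ℤ × ℕ)) (B : List ℤ) (sh : ℤ) : Multiset (Vx × Vx) :=
  cE x (o - ((-sh).toNat : ℤ)) (rowsOf A B sh) 0

theorem stepE_card (x o : ℤ) (A : List (ℤ × ℕ)) (B : List ℤ) (sh : ℤ) :
    (stepE x o A B sh).card = nc A B sh := cE_card _ _ _ _

theorem entR_map (x : ℤ) (σ : ℕ → ℕ) (B : List ℤ) : ∀ y,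
    entR x σ y (B.map (fun b => (((0, 0) : ℤ × ℕ), b))) = 0 := by
  induction B with
  | nil => intro y; rfl
  | cons b B ih =>
    intro y
    simp only [List.map_cons, entR]
    rw [ih]
    simp [en]

theorem entR_zz (x : ℤ) (A : List (ℤ × ℕ)) : ∀ (B : List ℤ) (y : ℤ),
    entR x (fun l => l) y (zz A B) = entL x y A := by
  induction A with
  | nil => intro B y; simp only [zz, entL]; exact entR_map _ _ _ _
  | cons a A ih =>
    intro B y
    simp only [zz, entR, entL]
    rw [ih]

theorem entL_append (x : ℤ) (L M : List (ℤ × ℕ)) : ∀ y,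
    entL x y (L ++ M) = entL x y L + entL x (y + L.length) M := by
  induction L with
  | nil => intro y; simp [entL]
  | cons r L ih =>
    intro y
    simp only [List.cons_append, entL, List.length_cons]
    rw [ih]
    have : y + 1 + (L.length : ℤ) = y + ((L.length + 1 : ℕ) : ℤ) := by push_cast; ring
    rw [this, add_assoc]

theorem entL_zero (x : ℤ) (L : List (ℤ × ℕ)) (h : ∀ t ∈ L, t.1 = 0) : ∀ y, entL x y L = 0 := by
  induction L with
  | nil => intro y; rfl
  | cons r L ih =>
    intro y
    simp only [entL]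
    rw [ih (fun t ht => h t (by simp [ht])), h r (by simp)]
    simp [en]

theorem entO_eq (x : ℤ) (out : List (ℤ × ℕ)) : ∀ y : ℤ,
    entO x (y + out.length - 1) out = entL x y out.reverse := by
  induction out with
  | nil => intro y; rfl
  | cons r out ih =>
    intro y
    rw [List.reverse_cons, entL_append, ← ih y]
    simp only [entO, entL, List.length_cons, List.length_reverse]
    have h1 : y + ((out.length + 1 : ℕ) : ℤ) - 1 = y + out.length := by push_cast; ring
    rw [h1, add_zero, add_comm]

theorem mem_entL {x : ℤ} {L : List (ℤ × ℕ)} : ∀ {y : ℤ} {t : Vx × ℤ × ℕ}, t ∈ entL x y L →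
    ∃ s ∈ L, s.1 ≠ 0 ∧ s.2 = t.2.2 := by
  induction L with
  | nil => intro y t h; simp [entL] at h
  | cons r L ih =>
    intro y t h
    simp only [entL, Multiset.mem_add, mem_en] at h
    rcases h with ⟨h1, rfl⟩ | h
    · exact ⟨r, by simp, h1, rfl⟩
    · obtain ⟨s, hs, h2⟩ := ih h
      exact ⟨s, by simp [hs], h2⟩

theorem le_fr {A : List (ℤ × ℕ)} {s : ℤ × ℕ} (h : s ∈ A) : s.2 < fr A := by
  unfold fr
  induction A with
  | nil => simp at h
  | cons r A ih =>
    rw [List.mem_cons] at h
    simp only [List.foldr_cons]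
    rcases h with rfl | h
    · have := le_max_left s.2 (A.foldr (fun t m => max t.2 m) 0)
      omega
    · have := le_max_right r.2 (A.foldr (fun t m => max t.2 m) 0)
      have := ih h
      omega

theorem zz_snd (A : List (ℤ × ℕ)) : ∀ (B : List ℤ),
    (zz A B).map Prod.snd = B ++ List.replicate (A.length - B.length) 0 := by
  induction A with
  | nil =>
    intro B
    simp only [zz, List.map_map, List.length_nil, Nat.zero_sub, List.replicate_zero,
      List.append_nil]
    have : (Prod.snd ∘ fun b : ℤ => (((0, 0) : ℤ × ℕ), b)) = id := rfl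
    rw [this, List.map_id]
  | cons a A ih =>
    intro B
    simp only [zz, List.map_cons, ih]
    cases B with
    | nil => simp [List.replicate_succ]
    | cons b B => simp

theorem rowsOf_snd (A : List (ℤ × ℕ)) (B : List ℤ) (sh : ℤ) : ∃ m,
    (rowsOf A B sh).map Prod.snd = List.replicate sh.toNat 0 ++ (B ++ List.replicate m 0) := by
  unfold rowsOf
  rw [zz_snd, List.append_assoc]
  exact ⟨_, rfl⟩

theorem entL_map (x : ℤ) (ρ : ℕ → ℕ) (L : List (ℤ × ℕ)) : ∀ y,
    entL x y (L.map (fun t => if t.1 = 0 then (0, 0) else (t.1, ρ t.2))) = rl ρ (entL x y L) := by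
  induction L with
  | nil => intro y; rfl
  | cons r L ih =>
    intro y
    simp only [List.map_cons, entL]
    rw [rl_add, ih, rl_en]
    congr 1
    split_ifs with h
    · simp [en, h]
    · rfl

theorem fi_inj {L : List (ℤ × ℕ)} {s s' : ℤ × ℕ} (hs : s ∈ L) (h0 : s.1 ≠ 0) (hs' : s' ∈ L)
    (h0' : s'.1 ≠ 0) (h : fi L s.2 = fi L s'.2) : s.2 = s'.2 := by
  unfold fi at h
  have h1 : L.findIdx (fun t => t.1 != 0 && t.2 == s.2) < L.length :=
    List.findIdx_lt_length_of_exists ⟨s, hs, by simp [h0]⟩
  have h2 : L.findIdx (fun t => t.1 != 0 && t.2 == s'.2) < L.length :=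
    List.findIdx_lt_length_of_exists ⟨s', hs', by simp [h0']⟩
  have e1 := List.findIdx_getElem (w := h1)
  have e2 := List.findIdx_getElem (w := h2)
  simp only [Bool.and_eq_true, bne_iff_ne, ne_eq, beq_iff_eq] at e1 e2
  have e3 : L[L.findIdx (fun t => t.1 != 0 && t.2 == s.2)]'h1 =
      L[L.findIdx (fun t => t.1 != 0 && t.2 == s'.2)]'h2 := by
    simp only [h]
  rw [← e1.2, ← e2.2, e3]

theorem take_drop_ent (x : ℤ) (L : List (ℤ × ℕ)) (B : List ℤ) (k m : ℕ)
    (h : L.map Prod.fst = List.replicate k 0 ++ (B ++ List.replicate m 0)) (y : ℤ) :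
    entL x y L = entL x (y + k) ((L.drop k).take B.length) := by
  have hlen : L.length = k + (B.length + m) := by
    have := congrArg List.length h
    simpa using this
  have h1 : L = L.take k ++ ((L.drop k).take B.length ++ (L.drop k).drop B.length) := by
    rw [List.take_append_drop, List.take_append_drop]
  have h2 : ∀ t ∈ L.take k, t.1 = 0 := by
    intro t ht
    have h3 : t.1 ∈ (L.take k).map Prod.fst := List.mem_map_of_mem ht
    rw [List.map_take, h, List.take_left' (by simp)] at h3
    exact (List.mem_replicate.1 h3).2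
  have h4 : ∀ t ∈ (L.drop k).drop B.length, t.1 = 0 := by
    intro t ht
    have h3 : t.1 ∈ ((L.drop k).drop B.length).map Prod.fst := List.mem_map_of_mem ht
    rw [List.map_drop, List.map_drop, h, List.drop_left' (by simp), List.drop_left' rfl] at h3
    exact (List.mem_replicate.1 h3).2
  conv_lhs => rw [h1]
  rw [entL_append, entL_append, entL_zero x _ h2, entL_zero x _ h4, zero_add, add_zero,
    List.length_take]
  congr 2
  have : min k L.length = k := by omega
  rw [this]

/-- Soundness of `next`. -/
theorem next_sound {E : Multiset (Vx × Vx)} {x o : ℤ} {A A' : List (ℤ × ℕ)} {B : List ℤ} {sh : ℤ}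
    (hI : Inv E (entL x o A)) (h : next A B sh = some A') :
    Inv (E + stepE x o A B sh) (entL (x + 1) (o + sh) A') := by
  unfold next at h
  split at h
  · simp at h
  · rename_i out hcol
    simp only [Option.some.injEq] at h
    subst h
    set y : ℤ := o - ((-sh).toNat : ℤ) with hy
    have hA : entR x (fun l => l) y (rowsOf A B sh) = entL x o A := by
      unfold rowsOf
      rw [entR_zz, entL_append, entL_zero x _ (by
        intro t ht
        rw [(List.mem_replicate.1 ht).2]), zero_add, List.length_replicate, hy]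
      congr 1
      ring
    have e0 : en (x, y) 0 0 + entO (x + 1) (y - 1) [] + entR x (fun l => l) y (rowsOf A B sh) =
        entL x o A := by
      rw [hA]
      simp [en, entO]
    obtain ⟨h1, h2⟩ := col_sound x (rowsOf A B sh) y 0 0 (fun l => l) [] (fr A) E out
      (by rw [e0]; exact hI)
      (by
        rw [e0]
        intro t ht
        obtain ⟨s, hs, _, h3⟩ := mem_entL ht
        rw [← h3]
        exact le_fr hs) hcol
    obtain ⟨m, hm⟩ := rowsOf_snd A B sh
    simp only [List.map_nil, List.append_nil] at h2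
    have hlen : out.length = (rowsOf A B sh).length := by
      have := congrArg List.length h2
      simpa using this
    rw [← hlen, entO_eq] at h1
    have hrev : out.reverse.map Prod.fst =
        List.replicate sh.toNat 0 ++ (B ++ List.replicate m 0) := by
      rw [List.map_reverse, h2, List.reverse_reverse, hm]
    rw [take_drop_ent (x + 1) out.reverse B sh.toNat m hrev y] at h1
    have hy2 : y + (sh.toNat : ℤ) = o + sh := by
      rw [hy]
      omega
    rw [hy2] at h1
    unfold nrm
    rw [entL_map (x + 1)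
      (fun l => 1 + fi ((out.reverse.drop sh.toNat).take B.length) l)
      ((out.reverse.drop sh.toNat).take B.length) (o + sh)]
    unfold stepE
    apply h1.relabel
    intro t ht t' ht' hl
    obtain ⟨s, hs, hs0, hs1⟩ := mem_entL ht
    obtain ⟨s', hs', hs0', hs1'⟩ := mem_entL ht'
    rw [← hs1, ← hs1'] at hl ⊢
    exact fi_inj hs hs0 hs' hs0' (by omega)

/-! ### Horizontal flow -/

/-- The flow on the horizontal edge to the right of `p`. -/
def hc (M : Multiset (Vx × Vx)) (p : Vx) : ℤ :=
  (M.countP (fun e => e = (p, (p.1 + 1, p.2))) : ℤ) - M.countP (fun e => e = ((p.1 + 1, p.2), p))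

theorem hc_add (M N : Multiset (Vx × Vx)) (p : Vx) : hc (M + N) p = hc M p + hc N p := by
  unfold hc
  rw [Multiset.countP_add, Multiset.countP_add]
  push_cast
  ring

theorem countP_replicate' (k : ℕ) (x : Vx × Vx) (P : Vx × Vx → Prop) [DecidablePred P] :
    (Multiset.replicate k x).countP P = if P x then k else 0 := by
  rw [← Multiset.coe_replicate, Multiset.coe_countP, List.countP_replicate]
  simp

theorem hc_edh (x y : ℤ) (n : ℤ) (p : Vx) :
    hc (ed (x, y) (x + 1, y) n) p = if p = (x, y) then n else 0 := by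
  obtain ⟨p1, p2⟩ := p
  unfold hc ed
  split_ifs with h0 <;> rw [countP_replicate', countP_replicate'] <;>
    simp only [Prod.mk.injEq] at * <;> split_ifs <;> omega

theorem hc_edv (x y : ℤ) (n : ℤ) (p : Vx) : hc (ed (x, y) (x, y + 1) n) p = 0 := by
  obtain ⟨p1, p2⟩ := p
  unfold hc ed
  split_ifs with h0 <;> rw [countP_replicate', countP_replicate'] <;>
    simp only [Prod.mk.injEq] at * <;> split_ifs <;> omega

/-- Entries of a list, indexed by integers. -/
def getZ (B : List ℤ) (k : ℤ) : ℤ := if 0 ≤ k then B.getD k.toNat 0 else 0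

theorem getZ_cons (b : ℤ) (B : List ℤ) (k : ℤ) :
    getZ (b :: B) k = if k = 0 then b else getZ B (k - 1) := by
  unfold getZ
  by_cases h0 : k = 0
  · subst h0; simp
  · by_cases h1 : 0 ≤ k
    · have h2 : 0 ≤ k - 1 := by omega
      obtain ⟨n, rfl⟩ : ∃ n : ℕ, k = n + 1 := ⟨(k - 1).toNat, by omega⟩
      rw [if_pos h1, if_neg h0, if_pos h2]
      have e1 : ((n : ℤ) + 1).toNat = n + 1 := by omega
      have e2 : ((n : ℤ) + 1 - 1).toNat = n := by omega
      rw [e1, e2]
      simp
    · have h2 : ¬ 0 ≤ k - 1 := by omega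
      rw [if_neg h1, if_neg h0, if_neg h2]

theorem hc_cE (x : ℤ) (rows : List ((ℤ × ℕ) × ℤ)) : ∀ (y v : ℤ) (p : Vx),
    hc (cE x y rows v) p = if p.1 = x then getZ (rows.map Prod.snd) (p.2 - y) else 0 := by
  induction rows with
  | nil =>
    intro y v p
    have : getZ [] (p.2 - y) = 0 := by unfold getZ; simp
    simp only [cE, List.map_nil, this]
    unfold hc
    simp
  | cons r rs ih =>
    intro y v p
    simp only [cE, List.map_cons]
    rw [hc_add, hc_add, hc_edh, hc_edv, ih, getZ_cons]
    obtain ⟨p1, p2⟩ := p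
    simp only [Prod.mk.injEq]
    have e1 : p2 - (y + 1) = p2 - y - 1 := by ring
    rw [e1]
    by_cases h1 : p1 = x
    · by_cases h2 : p2 = y
      · subst h2
        have : getZ (rs.map Prod.snd) (-1) = 0 := by
          unfold getZ
          rw [if_neg (by omega)]
        simp [h1, this]
      · have h3 : ¬ p2 - y = 0 := by omega
        simp [h1, h2, h3]
    · simp [h1]

theorem getZ_append_zero (B : List ℤ) (m : ℕ) (k : ℤ) :
    getZ (B ++ List.replicate m 0) k = getZ B k := by
  unfold getZ
  split_ifs
  · rw [List.getD_eq_getElem?_getD, List.getD_eq_getElem?_getD, List.getElem?_append]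
    split_ifs with h
    · rfl
    · rw [List.getElem?_replicate]
      have : B[k.toNat]? = none := List.getElem?_eq_none (by omega)
      rw [this]
      split_ifs <;> rfl
  · rfl

theorem getZ_zero_append (B : List ℤ) (m : ℕ) (k : ℤ) :
    getZ (List.replicate m 0 ++ B) k = getZ B (k - m) := by
  unfold getZ
  split_ifs with h1 h2 h2
  · rw [List.getD_eq_getElem?_getD, List.getD_eq_getElem?_getD, List.getElem?_append,
      List.length_replicate, if_neg (by omega)]
    congr 2
    omega
  · rw [List.getD_eq_getElem?_getD, List.getElem?_append, List.length_replicate,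
      if_pos (by omega), List.getElem?_replicate, if_pos (by omega)]
    rfl
  · omega
  · rfl

theorem hc_stepE (x o : ℤ) (A : List (ℤ × ℕ)) (B : List ℤ) (sh : ℤ) (p : Vx) :
    hc (stepE x o A B sh) p = if p.1 = x then getZ B (p.2 - (o + sh)) else 0 := by
  unfold stepE
  rw [hc_cE]
  obtain ⟨m, hm⟩ := rowsOf_snd A B sh
  rw [hm, getZ_zero_append, getZ_append_zero]
  congr 2
  omega

/-- Lists without zeros at the ends. -/
def NB (B : List ℤ) : Prop := getZ B 0 ≠ 0 ∧ getZ B ((B.length : ℤ) - 1) ≠ 0

theorem getZ_ne {B : List ℤ} {k : ℤ} (h : getZ B k ≠ 0) : 0 ≤ k ∧ k < B.length := by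
  unfold getZ at h
  split_ifs at h with h1
  · refine ⟨h1, ?_⟩
    by_contra h2
    apply h
    rw [List.getD_eq_getElem?_getD, List.getElem?_eq_none (by omega)]
    rfl
  · exact absurd rfl h

theorem NB_inj {B B' : List ℤ} {s s' : ℤ} (hB : NB B) (hB' : NB B')
    (h : ∀ y, getZ B (y - s) = getZ B' (y - s')) : B = B' ∧ s = s' := by
  have h1 := h s
  rw [sub_self] at h1
  have h2 := getZ_ne (B := B') (k := s - s') (by rw [← h1]; exact hB.1)
  have h3 := h s'
  rw [sub_self] at h3
  have h4 := getZ_ne (B := B) (k := s' - s) (by rw [h3]; exact hB'.1)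
  have hs : s = s' := by omega
  subst hs
  refine ⟨?_, rfl⟩
  have hk : ∀ k, getZ B k = getZ B' k := by
    intro k
    have := h (k + s)
    simpa using this
  have l1 := getZ_ne (B := B') (k := (B.length : ℤ) - 1) (by rw [← hk]; exact hB.2)
  have l2 := getZ_ne (B := B) (k := (B'.length : ℤ) - 1) (by rw [hk]; exact hB'.2)
  have hlen : B.length = B'.length := by omega
  apply List.ext_getElem hlen
  intro n hn hn'
  have h5 := hk n
  unfold getZ at h5
  rw [if_pos (by omega), if_pos (by omega)] at h5
  simp only [Int.toNat_natCast] at h5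
  rw [List.getD_eq_getElem _ _ hn, List.getD_eq_getElem _ _ hn'] at h5
  exact h5

end Pool.Agent.Helper78.FG
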