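import Pool.Agent.Helper78.FG.Path
import Pool.Agent.Helper44.FMet.Fekete

/-!
# From sequences of columns to words
-/

set_option autoImplicit false

namespace Pool.Agent.Helper78.FG

open Pool.Agent.Helper62.FM

/-- A path: the vectors of the horizontal flows and their shifts. -/
abbrev Pa := List (List ℤ × ℤ)

/-- The state after a path. -/
def run : List (ℤ × ℕ) → Pa → Option (List (ℤ × ℕ))
  | A, [] => some A
  | A, s :: r => (next A s.1 s.2).bind (fun A' => run A' r)

/-- The cost of a path. -/
def pcost : List (ℤ × ℕ) → Pa → ℕ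
  | _, [] => 0
  | A, s :: r => nc A s.1 s.2 + pcost ((next A s.1 s.2).getD []) r

/-- The edges of a path. -/
def pE : ℤ → ℤ → List (ℤ × ℕ) → Pa → Multiset (Vx × Vx)
  | _, _, _, [] => 0
  | x, o, A, s :: r => stepE x o A s.1 s.2 + pE (x + 1) (o + s.2) ((next A s.1 s.2).getD []) r

theorem pE_card (path : Pa) : ∀ (x o : ℤ) (A : List (ℤ × ℕ)),
    (pE x o A path).card = pcost A path := by
  induction path with
  | nil => intro x o A; rfl
  | cons s r ih =>
    intro x o A
    simp only [pE, pcost]
    rw [Multiset.card_add, stepE_card, ih]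

theorem run_sound (path : Pa) : ∀ (x o : ℤ) (A A' : List (ℤ × ℕ)) (E : Multiset (Vx × Vx)),
    Inv E (entL x o A) → run A path = some A' →
    ∃ x' o', Inv (E + pE x o A path) (entL x' o' A') := by
  induction path with
  | nil =>
    intro x o A A' E hI h
    simp only [run, Option.some.injEq] at h
    subst h
    exact ⟨x, o, by simpa [pE] using hI⟩
  | cons s r ih =>
    intro x o A A' E hI h
    simp only [run, Option.bind_eq_some_iff] at h
    obtain ⟨A1, h1, h2⟩ := h
    have h3 := next_sound hI h1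
    obtain ⟨x', o', h4⟩ := ih (x + 1) (o + s.2) A1 A' _ h3 h2
    refine ⟨x', o', ?_⟩
    simp only [pE, h1, Option.getD_some]
    rw [← add_assoc]
    exact h4

theorem hc_pE_lt (path : Pa) : ∀ (x o : ℤ) (A : List (ℤ × ℕ)) (p : Vx), p.1 < x →
    hc (pE x o A path) p = 0 := by
  induction path with
  | nil => intro x o A p _; simp [pE, hc]
  | cons s r ih =>
    intro x o A p hp
    simp only [pE]
    rw [hc_add, hc_stepE, if_neg (by omega), ih _ _ _ _ (by omega), add_zero]

theorem path_inj (path : Pa) : ∀ (path' : Pa) (x o : ℤ) (A A' : List (ℤ × ℕ)),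
    (∀ s ∈ path, NB s.1) → (∀ s ∈ path', NB s.1) →
    (∀ p, hc (pE x o A path) p = hc (pE x o A' path') p) → path = path' := by
  have hne : ∀ (s : List ℤ × ℤ) (r : Pa) (x o : ℤ) (A A' : List (ℤ × ℕ)), NB s.1 →
      ¬ ∀ p, hc (pE x o A (s :: r)) p = hc (pE x o A' []) p := by
    intro s r x o A A' hs h
    have h1 := h (x, o + s.2)
    simp only [pE] at h1
    rw [hc_add, hc_stepE, if_pos rfl, hc_pE_lt _ _ _ _ _ (by simp)] at h1
    simp only [sub_self, add_zero] at h1
    apply hs.1
    rw [h1]
    simp [hc]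
  induction path with
  | nil =>
    intro path' x o A A' _ h2 h
    cases path' with
    | nil => rfl
    | cons s' r' => exact absurd (fun p => (h p).symm) (hne s' r' x o A' A (h2 s' (by simp)))
  | cons s r ih =>
    intro path' x o A A' h1 h2 h
    cases path' with
    | nil => exact absurd h (hne s r x o A A' (h1 s (by simp)))
    | cons s' r' =>
      have h3 := NB_inj (B := s.1) (B' := s'.1) (s := o + s.2) (s' := o + s'.2)
        (h1 s (by simp)) (h2 s' (by simp)) (by
          intro y
          have h4 := h (x, y)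
          simp only [pE] at h4
          rw [hc_add, hc_add, hc_stepE, hc_stepE, if_pos rfl, if_pos rfl,
            hc_pE_lt _ _ _ _ _ (by simp), hc_pE_lt _ _ _ _ _ (by simp), add_zero, add_zero] at h4
          exact h4)
      have hs : s = s' := Prod.ext h3.1 (by have := h3.2; omega)
      subst hs
      have h5 := ih r' (x + 1) (o + s.2) ((next A s.1 s.2).getD []) ((next A' s.1 s.2).getD [])
        (fun t ht => h1 t (by simp [ht])) (fun t ht => h2 t (by simp [ht])) (by
          intro p
          by_cases hp : p.1 < x + 1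
          · rw [hc_pE_lt _ _ _ _ _ hp, hc_pE_lt _ _ _ _ _ hp]
          · have h4 := h p
            simp only [pE] at h4
            rw [hc_add, hc_add, hc_stepE, hc_stepE, if_neg (by omega), zero_add,
              zero_add] at h4
            exact h4)
      rw [h5]

/-! ### Words -/

/-- The corresponding point of the grid. -/
def toPt (p : Vx) : Pt 2 := ![p.1, p.2]

theorem toPt_inj {p q : Vx} : toPt p = toPt q ↔ p = q := by
  constructor
  · intro h
    have h0 := congrFun h 0
    have h1 := congrFun h 1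
    simp only [toPt, Matrix.cons_val_zero, Matrix.cons_val_one] at h0 h1
    exact Prod.ext h0 h1
  · rintro rfl; rfl

/-- Steps between neighbours, with the letter. -/
def Nb (a b : Vx) (l : Lt 2) : Prop := toPt b = toPt a + step l

theorem nb_right (x y : ℤ) : Nb (x, y) (x + 1, y) (0, true) := by
  unfold Nb toPt step sgn
  funext i
  fin_cases i <;> simp

theorem nb_left (x y : ℤ) : Nb (x + 1, y) (x, y) (0, false) := by
  unfold Nb toPt step sgn
  funext i
  fin_cases i <;> simp

theorem nb_up (x y : ℤ) : Nb (x, y) (x, y + 1) (1, true) := by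
  unfold Nb toPt step sgn
  funext i
  fin_cases i <;> simp

theorem nb_down (x y : ℤ) : Nb (x, y + 1) (x, y) (1, false) := by
  unfold Nb toPt step sgn
  funext i
  fin_cases i <;> simp

theorem Nb.right_iff {a b : Vx} {l : Lt 2} (h : Nb a b l) :
    b = (a.1 + 1, a.2) ↔ l = (0, true) := by
  have h1 := nb_right a.1 a.2
  constructor
  · intro hb
    unfold Nb at h h1
    rw [hb, h1] at h
    have h2 := add_left_cancel h
    obtain ⟨i, s⟩ := l
    unfold step sgn at h2
    have e0 := congrFun h2 0
    have e1 := congrFun h2 1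
    fin_cases i <;> cases s <;> simp at e0 e1 ⊢
  · rintro rfl
    unfold Nb at h h1
    rw [← h1] at h
    exact toPt_inj.1 h

theorem Nb.left_iff {a b : Vx} {l : Lt 2} (h : Nb a b l) :
    a = (b.1 + 1, b.2) ↔ l = (0, false) := by
  have h1 := nb_left b.1 b.2
  constructor
  · intro ha
    unfold Nb at h h1
    rw [ha, h1] at h
    have h2 := add_left_cancel h
    obtain ⟨i, s⟩ := l
    unfold step sgn at h2
    have e0 := congrFun h2 0
    have e1 := congrFun h2 1
    fin_cases i <;> cases s <;> simp at e0 e1 ⊢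
  · rintro rfl
    unfold Nb at h h1
    rw [h] at h1
    have h2 : toPt a = toPt (b.1 + 1, b.2) := add_right_cancel h1
    exact toPt_inj.1 h2

theorem hc_cons (a b : Vx) (M : Multiset (Vx × Vx)) (p : Vx) :
    hc ((a, b) ::ₘ M) p = (if p = a ∧ b = (a.1 + 1, a.2) then 1 else 0) -
      (if p = b ∧ a = (b.1 + 1, b.2) then 1 else 0) + hc M p := by
  unfold hc
  rw [Multiset.countP_cons, Multiset.countP_cons]
  have e1 : ((a, b) = (p, (p.1 + 1, p.2))) ↔ (p = a ∧ b = (a.1 + 1, a.2)) := by
    rw [Prod.mk.injEq]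
    constructor
    · rintro ⟨rfl, h⟩; exact ⟨rfl, h⟩
    · rintro ⟨rfl, h⟩; exact ⟨rfl, h⟩
  have e2 : ((a, b) = ((p.1 + 1, p.2), p)) ↔ (p = b ∧ a = (b.1 + 1, b.2)) := by
    rw [Prod.mk.injEq]
    constructor
    · rintro ⟨h, rfl⟩; exact ⟨rfl, h⟩
    · rintro ⟨rfl, h⟩; exact ⟨h, rfl⟩
  simp only [e1, e2]
  push_cast
  split_ifs <;> ring

theorem tr_word {a b : Vx} {M : Multiset (Vx × Vx)} (h : Tr a b M) :
    (∀ e ∈ M, ∃ l, Nb e.1 e.2 l) → ∃ w : Wd 2, w.length = M.card ∧
      ∀ p : Vx, fl w (toPt p - toPt a) (0, true) = hc M p := by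
  induction h with
  | nil a =>
    intro _
    exact ⟨[], by simp, fun p => by simp [fl, hc]⟩
  | @cons a b c M h ih =>
    intro hM
    obtain ⟨w, hw1, hw2⟩ := ih (fun e he => hM e (by simp [he]))
    obtain ⟨l, hl⟩ := hM (a, b) (by simp)
    simp only at hl
    refine ⟨l :: w, by simp [hw1], ?_⟩
    intro p
    rw [hc_cons]
    simp only [fl]
    have e0 : toPt p - toPt a - step l = toPt p - toPt b := by
      have : toPt b = toPt a + step l := hl
      rw [this]
      abel
    rw [e0, hw2 p]
    have e1 : (toPt p - toPt a = 0 ∧ ((0, true) : Lt 2) = l) ↔ (p = a ∧ b = (a.1 + 1, a.2)) := by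
      rw [sub_eq_zero, toPt_inj, hl.right_iff, eq_comm (a := l)]
    have e2 : (toPt p - toPt a = step l ∧ ((0, true) : Lt 2) = bar l) ↔
        (p = b ∧ a = (b.1 + 1, b.2)) := by
      have e3 : toPt p - toPt a = step l ↔ p = b := by
        rw [sub_eq_iff_eq_add, add_comm]
        have : toPt b = toPt a + step l := hl
        rw [← this, toPt_inj]
      rw [e3, hl.left_iff]
      have e4 : ((0, true) : Lt 2) = bar l ↔ l = (0, false) := by
        obtain ⟨i, s⟩ := l
        unfold bar
        cases s <;> simp [eq_comm]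
      rw [e4]
    simp only [e1, e2]

theorem unit_ed {p q : Vx} {n : ℤ} (h1 : ∃ l, Nb p q l) (h2 : ∃ l, Nb q p l) :
    ∀ e ∈ ed p q n, ∃ l, Nb e.1 e.2 l := by
  intro e he
  obtain ⟨_, rfl | rfl⟩ := mem_ed he
  · exact h1
  · exact h2

theorem unit_cE (x : ℤ) (rows : List ((ℤ × ℕ) × ℤ)) : ∀ (y v : ℤ), ∀ e ∈ cE x y rows v,
    ∃ l, Nb e.1 e.2 l := by
  induction rows with
  | nil => intro y v e he; simp [cE] at he
  | cons r rs ih =>
    intro y v e he
    simp only [cE, Multiset.mem_add] at he
    rcases he with (he | he) | he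
    · exact unit_ed ⟨_, nb_right x y⟩ ⟨_, nb_left x y⟩ e he
    · exact unit_ed ⟨_, nb_up x y⟩ ⟨_, nb_down x y⟩ e he
    · exact ih _ _ e he

theorem unit_pE (path : Pa) : ∀ (x o : ℤ) (A : List (ℤ × ℕ)), ∀ e ∈ pE x o A path,
    ∃ l, Nb e.1 e.2 l := by
  induction path with
  | nil => intro x o A e he; simp [pE] at he
  | cons s r ih =>
    intro x o A e he
    simp only [pE, Multiset.mem_add] at he
    rcases he with he | he
    · exact unit_cE _ _ _ _ e he
    · exact ih _ _ _ e he

/-- Every closed path gives a word. -/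
theorem exists_word (path : Pa) (h : run [(1, 1)] path = some [(1, 1)]) :
    ∃ w : Wd 2, w.length = pcost [(1, 1)] path + 1 ∧
      ∀ p : Vx, fl w (toPt p - toPt 0) (0, true) =
        hc (ed 0 (1, 0) 1) p + hc (pE 1 0 [(1, 1)] path) p := by
  have hI : Inv (ed 0 (1, 0) 1) (entL 1 0 [(1, 1)]) := by
    have := inv_start
    simpa [entL] using this
  obtain ⟨x', o', h1⟩ := run_sound path 1 0 [(1, 1)] [(1, 1)] _ hI h
  have h2 : Inv (ed 0 (1, 0) 1 + pE 1 0 [(1, 1)] path) (en (x', o') 1 1) := by
    simpa [entL] using h1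
  have h3 := h2.trail
  obtain ⟨w, hw1, hw2⟩ := tr_word h3 (by
    intro e he
    rw [Multiset.mem_add] at he
    rcases he with he | he
    · exact unit_ed ⟨_, nb_right 0 0⟩ ⟨_, nb_left 0 0⟩ e he
    · exact unit_pE _ _ _ _ e he)
  refine ⟨w, ?_, ?_⟩
  · rw [hw1, Multiset.card_add, ed_card, pE_card]
    omega
  · intro p
    rw [hw2 p, hc_add]

/-- Different closed paths give different elements. -/
theorem word_inj {path path' : Pa} {w w' : Wd 2} (hN : ∀ s ∈ path, NB s.1)
    (hN' : ∀ s ∈ path', NB s.1)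
    (hw : ∀ p : Vx, fl w (toPt p - toPt 0) (0, true) =
        hc (ed 0 (1, 0) 1) p + hc (pE 1 0 [(1, 1)] path) p)
    (hw' : ∀ p : Vx, fl w' (toPt p - toPt 0) (0, true) =
        hc (ed 0 (1, 0) 1) p + hc (pE 1 0 [(1, 1)] path') p)
    (h : el w = el w') : path = path' := by
  have h1 := fl_eq_of_el_eq h
  apply path_inj path path' 1 0 [(1, 1)] [(1, 1)] hN hN'
  intro p
  have h2 := hw p
  have h3 := hw' p
  rw [h1] at h2
  rw [h2] at h3
  exact add_left_cancel h3

end Pool.Agent.Helper78.FG
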