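import Pool.Agent.Helper78.FG.Ker

/-!
# Soundness of the kernel-friendly check
-/

set_option autoImplicit false

namespace Pool.Agent.Helper78.FG

/-- The decoded entry. -/
def dc (t : ℕ × ℕ) : ℤ × ℕ := ((t.1 : ℤ) - 8, t.2)

/-- The decoded flow. -/
def db (t : ℕ × ℕ) : ℤ := (t.1 : ℤ) - 8

theorem dc_inj {s t : ℕ × ℕ} (h : dc s = dc t) : s = t := by
  unfold dc at h
  rw [Prod.mk.injEq] at h
  exact Prod.ext (by omega) h.2

theorem beq_iff {a b : ℕ} : Nat.beq a b = true ↔ a = b :=
  ⟨fun h => Nat.eq_of_beq_eq_true h, fun h => by subst h; exact Nat.beq_refl a⟩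

theorem beq_false_iff {a b : ℕ} : Nat.beq a b = false ↔ a ≠ b := by
  rw [← Bool.not_eq_true, beq_iff]

theorem ble_iff {a b : ℕ} : Nat.ble a b = true ↔ a ≤ b :=
  ⟨fun h => Nat.le_of_ble_eq_true h, fun h => Nat.ble_eq_true_of_le h⟩

theorem ble_false_iff {a b : ℕ} : Nat.ble a b = false ↔ b < a := by
  rw [← Bool.not_eq_true, ble_iff]
  omega

theorem ib_beq {α : Type*} (a b : ℕ) (t e : α) : ib (Nat.beq a b) t e = if a = b then t else e := by
  by_cases h : a = b
  · rw [if_pos h, beq_iff.2 h]; rfl
  · rw [if_neg h, beq_false_iff.2 h]; rfl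

theorem ib_ble {α : Type*} (a b : ℕ) (t e : α) : ib (Nat.ble a b) t e = if a ≤ b then t else e := by
  by_cases h : a ≤ b
  · rw [if_pos h, ble_iff.2 h]; rfl
  · rw [if_neg h, ble_false_iff.2 (by omega)]; rfl

theorem alO_eq (x y : ℕ) (L : List (ℕ × ℕ)) : alO x y L = aliveO x y (L.map dc) := by
  induction L with
  | nil => rfl
  | cons r L ih =>
    have e : alO x y (r :: L) = ib (Nat.beq r.1 8) (alO x y L)
      (ib (Nat.beq r.2 x) true (ib (Nat.beq r.2 y) true (alO x y L))) := rfl
    rw [e, ih, ib_beq, ib_beq, ib_beq]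
    simp only [List.map_cons, aliveO, dc]
    by_cases h : r.1 = 8
    · simp [h]
    · have h' : ((r.1 : ℤ) - 8) ≠ 0 := by omega
      rw [if_neg h]
      have h2 : (((r.1 : ℤ) - 8) != 0) = true := by simp [h']
      rw [h2]
      by_cases h3 : r.2 = x <;> by_cases h4 : r.2 = y <;> simp [h3, h4]

theorem alR_eq (σ : ℕ → ℕ) (x y : ℕ) (L : List (ℕ × ℕ)) : ∀ (B : List ℤ),
    aliveR σ x y (zz (L.map dc) B) = alR σ x y L := by
  induction L with
  | nil =>
    intro B
    simp only [List.map_nil, zz]
    have : alR σ x y [] = false := rfl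
    rw [this]
    induction B with
    | nil => rfl
    | cons b B ih =>
      simp only [List.map_cons, aliveR]
      rw [ih]
      simp
  | cons r L ih =>
    intro B
    have e : alR σ x y (r :: L) = ib (Nat.beq r.1 8) (alR σ x y L)
      (ib (Nat.beq (σ r.2) x) true (ib (Nat.beq (σ r.2) y) true (alR σ x y L))) := rfl
    rw [e, ib_beq, ib_beq, ib_beq]
    simp only [List.map_cons, zz, aliveR]
    rw [ih]
    simp only [dc]
    by_cases h : r.1 = 8
    · simp [h]
    · have h' : ((r.1 : ℤ) - 8) ≠ 0 := by omega
      rw [if_neg h]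
      have h2 : (((r.1 : ℤ) - 8) != 0) = true := by simp [h']
      rw [h2]
      by_cases h3 : σ r.2 = x <;> by_cases h4 : σ r.2 = y <;> simp [h3, h4]

theorem rlL_eq (l c : ℕ) (L : List (ℕ × ℕ)) :
    (rlL l c L).map dc = (L.map dc).map (fun t => (t.1, if t.2 = l then c else t.2)) := by
  induction L with
  | nil => rfl
  | cons r L ih =>
    have e : rlL l c (r :: L) = (r.1, ib (Nat.beq r.2 l) c r.2) :: rlL l c L := rfl
    rw [e, List.map_cons, ih, List.map_cons, List.map_cons, ib_beq]
    rfl

theorem repV_eq (k : ℕ) (L : List (ℕ × ℕ)) : repV k L = List.replicate k (8, 0) ++ L := by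
  induction k with
  | zero => rfl
  | succ k ih =>
    have e : repV (k + 1) L = (8, 0) :: repV k L := rfl
    rw [e, ih, List.replicate_succ, List.cons_append]

theorem dropV_eq (k : ℕ) : ∀ (L : List (ℕ × ℕ)), dropV k L = L.drop k := by
  induction k with
  | zero => intro L; rfl
  | succ k ih =>
    intro L
    cases L with
    | nil => rfl
    | cons r L =>
      have e : dropV (k + 1) (r :: L) = dropV k L := rfl
      rw [e, ih, List.drop_succ_cons]

theorem revV_eq (L : List (ℕ × ℕ)) : ∀ M, revV L M = L.reverse ++ M := by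
  induction L with
  | nil => intro M; rfl
  | cons r L ih =>
    intro M
    have e : revV (r :: L) M = revV L (r :: M) := rfl
    rw [e, ih, List.reverse_cons, List.append_assoc, List.singleton_append]

theorem frV_eq (L : List (ℕ × ℕ)) : frV L = fr (L.map dc) := by
  unfold frV fr
  rw [Nat.succ_eq_add_one]
  congr 1
  induction L with
  | nil => rfl
  | cons r L ih =>
    have e : (@List.rec (ℕ × ℕ) (fun _ => ℕ) 0 (fun r _ ih => ib (Nat.ble r.2 ih) ih r.2)
      (r :: L)) = ib (Nat.ble r.2 (@List.rec (ℕ × ℕ) (fun _ => ℕ) 0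
        (fun r _ ih => ib (Nat.ble r.2 ih) ih r.2) L)) (@List.rec (ℕ × ℕ) (fun _ => ℕ) 0
        (fun r _ ih => ib (Nat.ble r.2 ih) ih r.2) L) r.2 := rfl
    rw [e, ih, ib_ble, List.map_cons, List.foldr_cons, max_def]
    rfl

/-- The property proved for columns. -/
def Snd (fin : List (ℕ × ℕ) → ℕ → Bool) (n : ℕ) : Prop :=
  ∀ (A B : List (ℕ × ℕ)) (v c : ℕ) (σ : ℕ → ℕ) (out : List (ℕ × ℕ)) (f k : ℕ),
    colV fin n A B v c σ out f k = true → ∃ out' k',
      col (zz (A.map dc) (B.map db)) ((v : ℤ) - 64) c σ (out.map dc) f = some (out'.map dc) ∧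
      fin out' k' = true ∧ k' = k + ccost (zz (A.map dc) (B.map db)) ((v : ℤ) - 64)

theorem row_sound {fin : List (ℕ × ℕ) → ℕ → Bool} {n : ℕ} (ih : Snd fin n)
    {a la b : ℕ} {A B : List (ℕ × ℕ)} {v w c : ℕ} {σ : ℕ → ℕ} {out : List (ℕ × ℕ)} {f k : ℕ}
    (hw : (w : ℤ) - 64 = (v : ℤ) - 64 + ((a : ℤ) - 8) - ((b : ℤ) - 8))
    (h : row (colV fin n) a la b A B v w c σ out f k = true) : ∃ out' k',
      col ((((a : ℤ) - 8, la), (b : ℤ) - 8) :: zz (A.map dc) (B.map db)) ((v : ℤ) - 64) c σ
        (out.map dc) f = some (out'.map dc) ∧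
      fin out' k' = true ∧ k' = k + ccost (zz (A.map dc) (B.map db)) ((w : ℤ) - 64) := by
  unfold row at h
  rw [ib_beq, ib_beq] at h
  unfold col
  dsimp only
  rw [← hw]
  by_cases ha : a = 8
  · rw [if_pos ha] at h
    have ha' : (a : ℤ) - 8 = 0 := by omega
    rw [if_pos ha']
    by_cases hv : v = 64
    · rw [if_pos hv] at h
      have hv' : (v : ℤ) - 64 = 0 := by omega
      rw [if_pos hv']
      exact ih A B w f σ ((b, f) :: out) (Nat.succ f) k h
    · rw [if_neg hv] at h
      have hv' : ¬ (v : ℤ) - 64 = 0 := by omega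
      rw [if_neg hv']
      exact ih A B w c σ ((b, c) :: out) f k h
  · rw [if_neg ha] at h
    have ha' : ¬ (a : ℤ) - 8 = 0 := by omega
    rw [if_neg ha']
    rw [ib_beq] at h
    by_cases hv : v = 64
    · rw [if_pos hv] at h
      have hv' : (v : ℤ) - 64 = 0 := by omega
      rw [if_pos hv']
      exact ih A B w (σ la) σ ((b, σ la) :: out) f k h
    · rw [if_neg hv] at h
      have hv' : ¬ (v : ℤ) - 64 = 0 := by omega
      rw [if_neg hv', ib_and] at *
      obtain ⟨h1, h2⟩ := h
      rw [if_pos]
      · rw [ib_beq] at h2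
        by_cases hc : c = σ la
        · rw [if_pos hc] at h2
          have e1 : (fun x => if σ x = σ la then c else σ x) = σ := by
            funext x
            split_ifs with h3
            · rw [h3, hc]
            · rfl
          have e2 : (out.map dc).map (fun t => (t.1, if t.2 = σ la then c else t.2)) =
              out.map dc := by
            rw [List.map_congr_left (g := id), List.map_id]
            intro t _
            split_ifs with h3
            · rw [hc, ← h3]; rfl
            · rfl
          rw [e1, e2]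
          exact ih A B w c σ ((b, c) :: out) f k h2
        · rw [if_neg hc] at h2
          have e1 : (fun x => ib (Nat.beq (σ x) (σ la)) c (σ x)) =
              (fun x => if σ x = σ la then c else σ x) := by
            funext x
            rw [ib_beq]
          rw [e1] at h2
          have := ih A B w c _ ((b, c) :: rlL (σ la) c out) f k h2
          rw [List.map_cons, rlL_eq] at this
          exact this
      · rw [ib_beq] at h1
        by_cases hb : b = 8
        · rw [if_pos hb, ib_beq] at h1
          by_cases hw0 : w = 64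
          · rw [if_pos hw0, ib_true] at h1
            right
            right
            rcases h1 with ⟨h3, _⟩ | ⟨_, h3⟩
            · left
              rw [← alO_eq]
              exact h3
            · right
              rw [alR_eq]
              exact h3
          · right
            left
            omega
        · left
          omega

theorem cs_eq (b w : ℕ) : cs b w = ((b : ℤ) - 8).natAbs + ((w : ℤ) - 64).natAbs := by
  have h : cs b w = ((b - 8) + (8 - b)) + ((w - 64) + (64 - w)) := rfl
  rw [h]
  omega

theorem colV_sound (fin : List (ℕ × ℕ) → ℕ → Bool) (n : ℕ) : Snd fin n := by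
  induction n with
  | zero =>
    intro A B v c σ out f k h
    exact absurd h (by simp [colV])
  | succ n ih =>
    intro A B v c σ out f k h
    cases A with
    | nil =>
      cases B with
      | nil =>
        have e : colV fin (n + 1) [] [] v c σ out f k = ib (Nat.beq v 64) (fin out k) false := rfl
        rw [e, ib_and, beq_iff] at h
        refine ⟨out, k, ?_, h.2, ?_⟩
        · simp only [List.map_nil, zz, col]
          rw [if_pos (by omega)]
        · simp [zz, ccost]
      | cons b B =>
        have e : colV fin (n + 1) [] (b :: B) v c σ out f k =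
          ib (Nat.ble b.1 (Nat.add v 8)) (fo (Nat.sub (Nat.add v 8) b.1) (fun w =>
            row (colV fin n) 8 0 b.1 [] B v w c σ out f (Nat.add k (cs b.1 w)))) false := rfl
        rw [e, ib_and, ble_iff, fo_eq] at h
        obtain ⟨h1, h2⟩ := h
        have h1' : b.1 ≤ v + 8 := h1
        have ew : Nat.sub (Nat.add v 8) b.1 = v + 8 - b.1 := rfl
        rw [ew] at h2
        obtain ⟨out', k', h3, h4, h5⟩ := row_sound ih (by push_cast [h1']; ring) h2
        refine ⟨out', k', ?_, h4, ?_⟩
        · simpa [zz, db, List.map_nil] using h3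
        · rw [h5, cs_eq]
          have e6 : ((v + 8 - b.1 : ℕ) : ℤ) - 64 = (v : ℤ) - 64 + 0 - db b := by
            unfold db
            push_cast [h1']
            ring
          simp only [List.map_nil, List.map_cons, zz, ccost]
          rw [← e6]
          have e7 : Nat.add k (((b.1 : ℤ) - 8).natAbs + (((v + 8 - b.1 : ℕ) : ℤ) - 64).natAbs) =
            k + (((b.1 : ℤ) - 8).natAbs + (((v + 8 - b.1 : ℕ) : ℤ) - 64).natAbs) := rfl
          rw [e7]
          unfold db
          ring
    | cons a A =>
      cases B with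
      | nil =>
        have e : colV fin (n + 1) (a :: A) [] v c σ out f k =
          ib (Nat.ble 8 (Nat.add v a.1)) (fo (Nat.sub (Nat.add v a.1) 8) (fun w =>
            row (colV fin n) a.1 a.2 8 A [] v w c σ out f (Nat.add k (cs 8 w)))) false := rfl
        rw [e, ib_and, ble_iff, fo_eq] at h
        obtain ⟨h1, h2⟩ := h
        have h1' : 8 ≤ v + a.1 := h1
        have ew : Nat.sub (Nat.add v a.1) 8 = v + a.1 - 8 := rfl
        rw [ew] at h2
        obtain ⟨out', k', h3, h4, h5⟩ := row_sound ih (by push_cast [h1']; ring) h2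
        refine ⟨out', k', ?_, h4, ?_⟩
        · have : zz ((a :: A).map dc) (([] : List (ℕ × ℕ)).map db) =
            (((a.1 : ℤ) - 8, a.2), ((8 : ℕ) : ℤ) - 8) ::
              zz (A.map dc) (([] : List (ℕ × ℕ)).map db) := by
            simp [zz, dc]
          rw [this]
          exact h3
        · rw [h5, cs_eq]
          have e6 : ((v + a.1 - 8 : ℕ) : ℤ) - 64 = (v : ℤ) - 64 + ((a.1 : ℤ) - 8) - 0 := by
            push_cast [h1']
            ring
          have this : zz ((a :: A).map dc) (([] : List (ℕ × ℕ)).map db) =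
            (((a.1 : ℤ) - 8, a.2), (0 : ℤ)) ::
              zz (A.map dc) (([] : List (ℕ × ℕ)).map db) := by
            simp [zz, dc]
          rw [this]
          simp only [ccost]
          rw [← e6]
          have e7 : ∀ x, Nat.add k x = k + x := fun x => rfl
          rw [e7]
          have e8 : (((8 : ℕ) : ℤ) - 8).natAbs = 0 := by norm_num
          have e9 : (0 : ℤ).natAbs = 0 := rfl
          rw [e8, e9]
          ring
      | cons b B =>
        have e : colV fin (n + 1) (a :: A) (b :: B) v c σ out f k =
          ib (Nat.ble b.1 (Nat.add v a.1)) (fo (Nat.sub (Nat.add v a.1) b.1) (fun w =>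
            row (colV fin n) a.1 a.2 b.1 A B v w c σ out f (Nat.add k (cs b.1 w)))) false := rfl
        rw [e, ib_and, ble_iff, fo_eq] at h
        obtain ⟨h1, h2⟩ := h
        have h1' : b.1 ≤ v + a.1 := h1
        have ew : Nat.sub (Nat.add v a.1) b.1 = v + a.1 - b.1 := rfl
        rw [ew] at h2
        obtain ⟨out', k', h3, h4, h5⟩ := row_sound ih (by push_cast [h1']; ring) h2
        refine ⟨out', k', ?_, h4, ?_⟩
        · have : zz ((a :: A).map dc) ((b :: B).map db) =
            (((a.1 : ℤ) - 8, a.2), (b.1 : ℤ) - 8) :: zz (A.map dc) (B.map db) := by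
            simp [zz, dc, db]
          rw [this]
          exact h3
        · rw [h5, cs_eq]
          have e6 : ((v + a.1 - b.1 : ℕ) : ℤ) - 64 =
              (v : ℤ) - 64 + ((a.1 : ℤ) - 8) - ((b.1 : ℤ) - 8) := by
            push_cast [h1']
            ring
          have this : zz ((a :: A).map dc) ((b :: B).map db) =
            (((a.1 : ℤ) - 8, a.2), (b.1 : ℤ) - 8) :: zz (A.map dc) (B.map db) := by
            simp [zz, dc, db]
          rw [this]
          simp only [ccost]
          rw [← e6]
          have e7 : ∀ x, Nat.add k x = k + x := fun x => rfl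
          rw [e7]
          ring

end Pool.Agent.Helper78.FG
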