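import Pool.Agent.Helper78.FG.USnd

/-!
# Counting minimal words with an automaton
-/

set_option autoImplicit false

namespace Pool.Agent.Helper78.FG

open Pool.Agent.Helper62.FM Pool.Agent.Helper44.FMet Filter

/-- Minimal extensions of length `n` of a word. -/
noncomputable def ext (n : ℕ) (w : Wd 2) : Finset (Wd 2) := by
  classical
  exact (Wn 2 n).filter (fun y => Gd (w ++ y))

theorem mem_ext {n : ℕ} {w y : Wd 2} : y ∈ ext n w ↔ y.length = n ∧ Gd (w ++ y) := by
  classical
  unfold ext
  rw [Finset.mem_filter, mem_Wn]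

theorem ext_succ_card (n : ℕ) (w : Wd 2) : (ext (n + 1) w).card ≤
    (ext n (w ++ [dl 0])).card + (ext n (w ++ [dl 1])).card + ((ext n (w ++ [dl 2])).card +
      (ext n (w ++ [dl 3])).card) := by
  classical
  have h : ext (n + 1) w ⊆ (Finset.range 4).biUnion
      (fun l => (ext n (w ++ [dl l])).image (fun y => dl l :: y)) := by
    intro y hy
    rw [mem_ext] at hy
    obtain ⟨h1, h2⟩ := hy
    cases y with
    | nil => simp at h1
    | cons a y =>
      rw [Finset.mem_biUnion]
      refine ⟨dg a, Finset.mem_range.2 (dg_lt a), ?_⟩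
      rw [Finset.mem_image]
      refine ⟨y, ?_, by rw [dl_dg]⟩
      rw [mem_ext, dl_dg, List.append_assoc, List.singleton_append]
      exact ⟨by simpa using h1, h2⟩
  refine (Finset.card_le_card h).trans (Finset.card_biUnion_le.trans ?_)
  rw [Finset.sum_range_succ, Finset.sum_range_succ, Finset.sum_range_succ, Finset.sum_range_one]
  have h3 : ∀ l, ((ext n (w ++ [dl l])).image (fun y => dl l :: y)).card ≤
      (ext n (w ++ [dl l])).card := fun l => Finset.card_image_le
  have a0 := h3 0
  have a1 := h3 1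
  have a2 := h3 2
  have a3 := h3 3
  omega

/-- The word of a state. -/
noncomputable def sw' (R : ℕ → ℕ) (i : ℕ) : Wd 2 := wd (rk (R i)) (rcd (R i))

theorem bound {N P Q : ℕ} {R : ℕ → ℕ} (hG : ∀ i < N, GoodS N P Q R i) : ∀ n : ℕ,
    ∀ i < N, ∀ w : Wd 2, sw' R i <:+ w → (ext n w).card * Q ^ n ≤ rW (R i) * P ^ n := by
  intro n
  induction n with
  | zero =>
    intro i hi w _
    have h1 : (ext 0 w).card ≤ 1 := by
      rw [Finset.card_le_one]
      intro a ha b hb
      rw [mem_ext] at ha hb
      rw [List.eq_nil_of_length_eq_zero ha.1, List.eq_nil_of_length_eq_zero hb.1]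
    have h2 := (hG i hi).w1
    simpa using h1.trans h2
  | succ n ih =>
    -- letters
    have hL : ∀ d : ℕ, ∀ i < N, rk (R i) = d → ∀ l < 4, ∀ w : Wd 2, sw' R i <:+ w →
        (ext n (w ++ [dl l])).card * Q ^ n ≤ rD (R i) l * P ^ n := by
      intro d
      induction d using Nat.strong_induction_on with
      | _ d ihd =>
        intro i hi hd l hl w hw
        rcases (hG i hi).le l hl with ⟨f, hf, h1, h2, h3⟩ | ⟨j, hj, h1, h2, h3⟩ | ⟨kv, cv, h1⟩
        · rw [h3]
          apply ihd (rk (R f)) (by omega) f hf rfl l hl w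
          refine List.IsSuffix.trans ?_ hw
          unfold sw'
          rw [h2]
          exact wd_suffix h1.le
        · rw [← h3]
          apply ih j hj
          have h4 : sw' R j = sw' R i ++ [dl l] := by
            unfold sw'
            rw [h1, h2]
            exact wd_snoc (hG i hi).cl hl
          rw [h4]
          obtain ⟨t, ht⟩ := hw
          exact ⟨t, by rw [← ht, List.append_assoc]⟩
        · obtain ⟨h2, h3, h4⟩ := chkF_sound h1
          rw [wd_snoc (hG i hi).cl hl] at h2 h3 h4
          have h5 : ext n (w ++ [dl l]) = ∅ := by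
            rw [Finset.eq_empty_iff_forall_notMem]
            intro y hy
            rw [mem_ext] at hy
            obtain ⟨t, ht⟩ := hw
            have h6 : w ++ [dl l] ++ y = t ++ (sw' R i ++ [dl l]) ++ y := by
              rw [← ht]
              simp only [List.append_assoc]
            rw [h6] at hy
            exact not_Gd h2 h3 h4 hy.2
          rw [h5]
          simp
    intro i hi w hw
    have h1 := ext_succ_card n w
    have h2 := fun l hl => hL _ i hi rfl l hl w hw
    have a0 := h2 0 (by norm_num)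
    have a1 := h2 1 (by norm_num)
    have a2 := h2 2 (by norm_num)
    have a3 := h2 3 (by norm_num)
    have h3 := (hG i hi).sm
    calc (ext (n + 1) w).card * Q ^ (n + 1)
        ≤ ((ext n (w ++ [dl 0])).card + (ext n (w ++ [dl 1])).card +
          ((ext n (w ++ [dl 2])).card + (ext n (w ++ [dl 3])).card)) * Q ^ (n + 1) :=
          Nat.mul_le_mul_right _ h1
      _ = Q * ((ext n (w ++ [dl 0])).card * Q ^ n + (ext n (w ++ [dl 1])).card * Q ^ n +
          ((ext n (w ++ [dl 2])).card * Q ^ n + (ext n (w ++ [dl 3])).card * Q ^ n)) := by ring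
      _ ≤ Q * (rD (R i) 0 * P ^ n + rD (R i) 1 * P ^ n +
          (rD (R i) 2 * P ^ n + rD (R i) 3 * P ^ n)) := by
          apply Nat.mul_le_mul_left
          omega
      _ = (Q * (rD (R i) 0 + rD (R i) 1 + (rD (R i) 2 + rD (R i) 3))) * P ^ n := by ring
      _ ≤ (P * rW (R i)) * P ^ n := Nat.mul_le_mul_right _ h3
      _ = rW (R i) * P ^ (n + 1) := by ring

/-- Every element has a minimal word. -/
theorem exists_Gd (g : FMet 2) : ∃ w : Wd 2, el w = g ∧ w.length = len g ∧ Gd w := by
  classical
  have h1 : ∃ m, ∃ w : Wd 2, el w = g ∧ key w = m := by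
    obtain ⟨w, _, hw⟩ := Pool.Agent.Helper44.FMet.exists_word g
    exact ⟨_, w, hw, rfl⟩
  obtain ⟨w, hw, hk⟩ := Nat.find_spec h1
  have hmin : ∀ v : Wd 2, el v = g → key w ≤ key v := by
    intro v hv
    rw [hk]
    exact Nat.find_min' h1 ⟨v, hv, rfl⟩
  refine ⟨w, hw, ?_, fun v hv => hmin v (hv.trans hw)⟩
  have h2 : len g ≤ w.length := by
    rw [← hw]
    exact len_le w
  apply le_antisymm _ h2
  obtain ⟨v, hv1, hv2⟩ := Pool.Agent.Helper44.FMet.exists_word g
  by_contra h3
  push Not at h3
  have := key_lt_of_length (u := v) (v := w) (by omega)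
  have := hmin v hv2
  omega

theorem sph_le (n : ℕ) : sph 2 n ≤ (ext n []).card := by
  classical
  choose W hW using exists_Gd
  unfold sph
  have h1 : Nat.card (ext n []) = (ext n []).card := by simp
  rw [← h1]
  apply Nat.card_le_card_of_injective
    (fun g : {g : FMet 2 // len g = n} => (⟨W g.1, by
      rw [mem_ext, List.nil_append]
      exact ⟨by rw [(hW g.1).2.1, g.2], (hW g.1).2.2⟩⟩ : ext n []))
  intro g g' h
  simp only [Subtype.mk.injEq] at h
  apply Subtype.ext
  rw [← (hW g.1).1, ← (hW g'.1).1, h]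

/-- The upper bound from an automaton. -/
theorem om_le_of {N P Q : ℕ} {R : ℕ → ℕ} (hN : 0 < N) (hP : 0 < P) (hQ : 0 < Q)
    (h0 : rk (R 0) = 0) (hG : ∀ i < N, GoodS N P Q R i) (hr : 1 ≤ 2) :
    om 2 hr ≤ (P : ℝ) / Q := by
  have hQ' : (0 : ℝ) < Q := by exact_mod_cast hQ
  have hP' : (0 : ℝ) < P := by exact_mod_cast hP
  have hW : 0 < rW (R 0) := (hG 0 hN).w1
  have hW' : (0 : ℝ) < rW (R 0) := by exact_mod_cast hW
  refine om_le (r := 2) hr (C := rW (R 0)) (q := (P : ℝ) / Q) hW' (by positivity) (k := 0) ?_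
  filter_upwards with n
  rw [pow_zero, mul_one, div_pow]
  have h1 := bound hG n 0 hN [] (by
    unfold sw'
    rw [h0]
    exact List.suffix_refl _)
  have h2 := sph_le n
  have h3 : (sph 2 n : ℝ) * Q ^ n ≤ rW (R 0) * P ^ n := by
    have : sph 2 n * Q ^ n ≤ rW (R 0) * P ^ n := (Nat.mul_le_mul_right _ h2).trans h1
    exact_mod_cast this
  rw [mul_div_assoc', le_div_iff₀ (by positivity)]
  exact h3

end Pool.Agent.Helper78.FG
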