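import Pool.Agent.Helper78.FG.UT0
import Pool.Agent.Helper78.FG.UT1
import Pool.Agent.Helper78.FG.UT2
import Pool.Agent.Helper78.FG.UT3
import Pool.Agent.Helper78.FG.UT4
import Pool.Agent.Helper78.FG.UT5

/-!
# The records of the automaton
-/

set_option autoImplicit false

namespace Pool.Agent.Helper78.FG

/-- The records, 132 bits each. -/
noncomputable def TT : List ℕ := [TT0, TT1, TT2, TT3, TT4, TT5, TT6, TT7, TT8, TT9, TT10, TT11, TT12, TT13, TT14, TT15, TT16, TT17, TT18, TT19, TT20, TT21, TT22, TT23, TT24, TT25, TT26, TT27, TT28, TT29, TT30, TT31, TT32, TT33, TT34, TT35, TT36, TT37, TT38, TT39, TT40, TT41, TT42, TT43, TT44, TT45, TT46, TT47, TT48, TT49, TT50, TT51, TT52, TT53, TT54, TT55, TT56, TT57, TT58, TT59, TT60, TT61, TT62, TT63, TT64, TT65, TT66, TT67, TT68, TT69, TT70, TT71, TT72, TT73, TT74, TT75, TT76, TT77, TT78, TT79, TT80]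

end Pool.Agent.Helper78.FG
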