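import Pool.Agent.Helper78.FG.Mag
import Pool.Agent.Helper78.FG.Ker

/-!
# Kernel-friendly check of an automaton
-/

set_option autoImplicit false

namespace Pool.Agent.Helper78.FG

/-- Case distinction on a digit. -/
noncomputable def sw (d : ℕ) (a0 a1 a2 a3 : Bool) : Bool :=
  @Nat.rec (fun _ => Bool) a0 (fun d1 _ => @Nat.rec (fun _ => Bool) a1
    (fun d2 _ => @Nat.rec (fun _ => Bool) a2 (fun _ _ => a3) d2) d1) d

/-- The walk of a word: vertex, edges to the right, edges to the left. -/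
noncomputable def evK (fin : ℕ → ℕ → ℕ → Bool) (k : ℕ) : ℕ → ℕ → ℕ → ℕ → Bool :=
  @Nat.rec (fun _ => ℕ → ℕ → ℕ → ℕ → Bool) (fun _ q P N => fin q P N)
    (fun _ ih c q P N => sw (Nat.mod c 4)
      (fo (Nat.add q 32) (fun q' => ih (Nat.div c 4) q' (Nat.add P (Nat.pow 32 q)) N))
      (fo (Nat.add q 1) (fun q' => ih (Nat.div c 4) q' P N))
      (fo (Nat.sub q 1) (fun q' => ih (Nat.div c 4) q' P N))
      (fo (Nat.sub q 32) (fun q' => ih (Nat.div c 4) q' P (Nat.add N (Nat.pow 32 q'))))) k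

/-- The word `u` is forbidden because of the word `v`. -/
noncomputable def chkF (ku cu kv cv : ℕ) : Bool :=
  ib (Nat.ble ku 15) (ib (Nat.ble kv ku) (ib (ib (Nat.ble ku kv)
      (Nat.ble (Nat.succ (Nat.mod cv (Nat.pow 4 kv))) (Nat.mod cu (Nat.pow 4 ku))) true)
    (evK (fun q P N => evK (fun q' P' N' => ib (Nat.beq q q')
      (Nat.beq (Nat.add P N') (Nat.add P' N)) false) kv cv 528 0 0) ku cu 528 0 0)
    false) false) false

/-- The part number `i` of width `w`. -/
noncomputable def sl (T w i : ℕ) : ℕ :=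
  Nat.mod (Nat.div T (Nat.pow 2 (Nat.mul w i))) (Nat.pow 2 w)

/-- An entry of a list. -/
noncomputable def nth (L : List ℕ) : ℕ → ℕ :=
  @List.rec ℕ (fun _ => ℕ → ℕ) (fun _ => 0) (fun x _ ih i => @Nat.rec (fun _ => ℕ) x
    (fun m _ => ih m) i) L

/-- The record number `i`. -/
noncomputable def rc (T : List ℕ) (i : ℕ) : ℕ :=
  fo (Nat.div i 512) (fun a => fo (Nat.mod (Nat.div i 64) 8) (fun b =>
    sl (sl (nth T a) 8448 b) 132 (Nat.mod i 64)))

/-- The length of the word of a record. -/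
noncomputable def rk (r : ℕ) : ℕ := Nat.mod r 16
/-- The code of the word of a record. -/
noncomputable def rcd (r : ℕ) : ℕ := Nat.mod (Nat.div r 16) 67108864
/-- The weight of a record. -/
noncomputable def rW (r : ℕ) : ℕ := Nat.mod (Nat.div r 1073741824) 1048576
/-- The weights of the successors. -/
noncomputable def rD (r l : ℕ) : ℕ :=
  Nat.mod (Nat.div r (Nat.pow 2 (Nat.add 50 (Nat.mul 20 l)))) 1048576

/-- The check of one letter. -/
noncomputable def chkl (T : List ℕ) (N r rf f l : ℕ) (X : ℕ) (cont : ℕ → Bool) : Bool :=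
  sw (Nat.mod X 4)
    (ib (Nat.ble N f) false (ib (Nat.ble (rk r) (rk rf)) false
      (ib (Nat.beq (rcd rf) (Nat.div (rcd r) (Nat.pow 4 (Nat.sub (rk r) (rk rf)))))
        (ib (Nat.beq (rD r l) (rD rf l)) (fo (Nat.div X 4) cont) false) false)))
    (fo (Nat.mod (Nat.div X 4) 65536) (fun j => ib (Nat.ble N j) false (fo (rc T j) (fun rj =>
      ib (Nat.beq (rk rj) (Nat.succ (rk r)))
        (ib (Nat.beq (rcd rj) (Nat.add (rcd r) (Nat.mul l (Nat.pow 4 (rk r)))))
          (ib (Nat.beq (rW rj) (rD r l)) (fo (Nat.div X 262144) cont) false) false) false))))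
    (ib (chkF (Nat.succ (rk r)) (Nat.add (rcd r) (Nat.mul l (Nat.pow 4 (rk r))))
      (Nat.mod (Nat.div X 4) 16) (Nat.mod (Nat.div X 64) 67108864))
      (fo (Nat.div X 4294967296) cont) false)
    false

/-- The check of one state. -/
noncomputable def chkSt (T : List ℕ) (N P Q i X : ℕ) (cont : ℕ → Bool) : Bool :=
  fo (rc T i) (fun r => fo (Nat.mod X 65536) (fun f => fo (rc T f) (fun rf =>
    ib (Nat.ble (Nat.succ (rcd r)) (Nat.pow 4 (rk r))) (ib (Nat.ble 1 (rW r))
      (ib (Nat.ble (Nat.mul Q (Nat.add (Nat.add (rD r 0) (rD r 1)) (Nat.add (rD r 2) (rD r 3))))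
        (Nat.mul P (rW r)))
        (fo (Nat.div X 65536) (fun X => chkl T N r rf f 0 X (fun X => chkl T N r rf f 1 X (fun X =>
          chkl T N r rf f 2 X (fun X => chkl T N r rf f 3 X cont))))) false) false) false)))

/-- The check of `n` states. -/
noncomputable def chkB (T : List ℕ) (N P Q : ℕ) (n : ℕ) : ℕ → ℕ → Bool :=
  @Nat.rec (fun _ => ℕ → ℕ → Bool) (fun _ _ => true)
    (fun _ ih i X => chkSt T N P Q i X (fun X' => fo (Nat.succ i) (fun i' => ih i' X'))) n

/-- The check of blocks of 64 states. -/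
noncomputable def chkBs (T : List ℕ) (N P Q : ℕ) (L : List ℕ) : ℕ → Bool :=
  @List.rec ℕ (fun _ => ℕ → Bool) (fun _ => true)
    (fun X _ ih i => ib (chkB T N P Q 64 i X) (fo (Nat.add i 64) ih) false) L

end Pool.Agent.Helper78.FG
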