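import Pool.Agent.Helper78.FG.UKer
import Pool.Agent.Helper78.FG.Snd

/-!
# Soundness of the check of an automaton
-/

set_option autoImplicit false

namespace Pool.Agent.Helper78.FG

open Pool.Agent.Helper62.FM

/-! ### Codes of words -/

/-- The digit of a letter. -/
def dg (a : Lt 2) : ℕ :=
  if a = (0, true) then 0 else if a = (1, true) then 1 else if a = (1, false) then 2 else 3

theorem dg_lt (a : Lt 2) : dg a < 4 := by
  unfold dg
  split_ifs <;> norm_num

theorem dl_dg (a : Lt 2) : dl (dg a) = a := by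
  obtain ⟨i, s⟩ := a
  fin_cases i <;> cases s <;> simp [dg, dl]

theorem dg_dl {d : ℕ} (h : d < 4) : dg (dl d) = d := by
  interval_cases d <;> simp [dg, dl]

/-- The code of a word. -/
def cd : Wd 2 → ℕ
  | [] => 0
  | a :: w => dg a + 4 * cd w

/-- The key of a word. -/
def key (w : Wd 2) : ℕ := cd w + 4 ^ w.length

theorem cd_lt (w : Wd 2) : cd w < 4 ^ w.length := by
  induction w with
  | nil => simp [cd]
  | cons a w ih =>
    have := dg_lt a
    simp only [cd, List.length_cons, pow_succ]
    omega

theorem cd_append (u v : Wd 2) : cd (u ++ v) = cd u + 4 ^ u.length * cd v := by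
  induction u with
  | nil => simp [cd]
  | cons a u ih =>
    simp only [cd, List.cons_append, List.length_cons, ih, pow_succ]
    ring

theorem key_append (u v : Wd 2) : key (u ++ v) = cd u + 4 ^ u.length * key v := by
  unfold key
  rw [cd_append, List.length_append, pow_add]
  ring

theorem cd_inj : ∀ {u v : Wd 2}, u.length = v.length → cd u = cd v → u = v := by
  intro u
  induction u with
  | nil =>
    intro v h _
    exact (List.eq_nil_of_length_eq_zero h.symm).symm
  | cons a u ih =>
    intro v h h'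
    cases v with
    | nil => simp at h
    | cons b v =>
      simp only [cd] at h'
      have h1 := dg_lt a
      have h2 := dg_lt b
      have h3 : dg a = dg b := by omega
      have h4 : cd u = cd v := by omega
      have h5 : a = b := by rw [← dl_dg a, h3, dl_dg]
      rw [h5, ih (by simpa using h) h4]

theorem key_inj {u v : Wd 2} (h : key u = key v) : u = v := by
  have h1 := cd_lt u
  have h2 := cd_lt v
  unfold key at h
  rcases Nat.lt_trichotomy u.length v.length with hl | hl | hl
  · have : 4 ^ (u.length + 1) ≤ 4 ^ v.length := Nat.pow_le_pow_right (by norm_num) hl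
    rw [pow_succ] at this
    omega
  · rw [hl] at h
    exact cd_inj hl (by omega)
  · have : 4 ^ (v.length + 1) ≤ 4 ^ u.length := Nat.pow_le_pow_right (by norm_num) hl
    rw [pow_succ] at this
    omega

theorem key_lt_of_length {u v : Wd 2} (h : u.length < v.length) : key u < key v := by
  have h1 := cd_lt u
  have : 4 ^ (u.length + 1) ≤ 4 ^ v.length := Nat.pow_le_pow_right (by norm_num) h
  rw [pow_succ] at this
  unfold key
  omega

/-- Smaller factors give smaller words. -/
theorem key_factor {u v x y : Wd 2} (h : key v < key u) (hl : v.length ≤ u.length) :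
    key (x ++ v ++ y) < key (x ++ u ++ y) := by
  rcases Nat.lt_or_ge v.length u.length with h1 | h1
  · apply key_lt_of_length
    simp only [List.length_append]
    omega
  · have h2 : v.length = u.length := le_antisymm hl h1
    have h3 : cd v < cd u := by
      unfold key at h
      rw [h2] at h
      omega
    rw [List.append_assoc, List.append_assoc, key_append, key_append, key_append, key_append, h2]
    have h4 : 0 < 4 ^ x.length := pow_pos (by norm_num) _
    have h5 : cd v + 4 ^ u.length * key y < cd u + 4 ^ u.length * key y := by omega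
    have := Nat.mul_lt_mul_of_pos_left h5 h4
    omega

/-- Minimal words. -/
def Gd (w : Wd 2) : Prop := ∀ v : Wd 2, el v = el w → key w ≤ key v

theorem not_Gd {u v x y : Wd 2} (he : el v = el u) (h : key v < key u) (hl : v.length ≤ u.length) :
    ¬ Gd (x ++ u ++ y) := by
  intro hG
  have h1 := hG (x ++ v ++ y) (by
    rw [el_append, el_append, el_append, el_append, he])
  have h2 := key_factor (x := x) (y := y) h hl
  omega

theorem length_wd : ∀ (k c : ℕ), (wd k c).length = k := by
  intro k
  induction k with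
  | zero => intro c; rfl
  | succ k ih => intro c; simp [wd, ih]

theorem cd_wd : ∀ (k c : ℕ), cd (wd k c) = c % 4 ^ k := by
  intro k
  induction k with
  | zero => intro c; simp [wd, cd, Nat.mod_one]
  | succ k ih =>
    intro c
    simp only [wd, cd]
    rw [ih, dg_dl (Nat.mod_lt _ (by norm_num)), pow_succ', Nat.mod_mul]

theorem wd_cd (w : Wd 2) : wd w.length (cd w) = w := by
  apply cd_inj (length_wd _ _)
  rw [cd_wd, Nat.mod_eq_of_lt (cd_lt w)]

/-- A suffix. -/
theorem wd_suffix {k m c : ℕ} (h : m ≤ k) : wd m (c / 4 ^ (k - m)) <:+ wd k c := by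
  have h1 : k = (k - m) + m := by omega
  have key2 : ∀ (a b c : ℕ), wd (a + b) c = wd a c ++ wd b (c / 4 ^ a) := by
    intro a
    induction a with
    | zero => intro b c; simp [wd]
    | succ a ih =>
      intro b c
      have e : a + 1 + b = (a + b) + 1 := by omega
      rw [e]
      simp only [wd, List.cons_append]
      rw [ih, Nat.div_div_eq_div_mul, pow_succ']
  conv_rhs => rw [h1, key2]
  exact List.suffix_append _ _

theorem wd_snoc {k c l : ℕ} (hc : c < 4 ^ k) (hl : l < 4) :
    wd (k + 1) (c + l * 4 ^ k) = wd k c ++ [dl l] := by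
  apply cd_inj
  · rw [length_wd, List.length_append, length_wd]; rfl
  · rw [cd_wd, cd_append, cd_wd, length_wd, Nat.mod_eq_of_lt hc]
    have h1 : c + l * 4 ^ k < 4 ^ (k + 1) := by
      rw [pow_succ]
      have : l * 4 ^ k ≤ 3 * 4 ^ k := Nat.mul_le_mul_right _ (by omega)
      omega
    rw [Nat.mod_eq_of_lt h1]
    simp only [cd, dg_dl hl]
    ring

/-! ### The check of a forbidden word -/

theorem sw_eq (d : ℕ) (a0 a1 a2 a3 : Bool) : sw d a0 a1 a2 a3 =
    if d = 0 then a0 else if d = 1 then a1 else if d = 2 then a2 else a3 := by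
  rcases d with _ | _ | _ | d
  · rfl
  · rfl
  · rfl
  · have : sw (d + 1 + 1 + 1) a0 a1 a2 a3 = a3 := rfl
    rw [this, if_neg (by omega), if_neg (by omega), if_neg (by omega)]

theorem evK_sound (fin : ℕ → ℕ → ℕ → Bool) (k : ℕ) : ∀ (c q P N : ℕ),
    evK fin k c q P N = fin (endC k c q) (P + nmb (posC k c q)) (N + nmb (negC k c q)) := by
  induction k with
  | zero => intro c q P N; rfl
  | succ k ih =>
    intro c q P N
    have e : evK fin (k + 1) c q P N = sw (Nat.mod c 4)
      (fo (Nat.add q 32) (fun q' => evK fin k (Nat.div c 4) q' (Nat.add P (Nat.pow 32 q)) N))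
      (fo (Nat.add q 1) (fun q' => evK fin k (Nat.div c 4) q' P N))
      (fo (Nat.sub q 1) (fun q' => evK fin k (Nat.div c 4) q' P N))
      (fo (Nat.sub q 32) (fun q' => evK fin k (Nat.div c 4) q' P (Nat.add N (Nat.pow 32 q')))) :=
        rfl
    rw [e, fo_eq, fo_eq, fo_eq, fo_eq, ih, ih, ih, ih, sw_eq]
    have e1 : Nat.mod c 4 = c % 4 := rfl
    have e2 : Nat.div c 4 = c / 4 := rfl
    have e3 : Nat.add q 32 = q + 32 := rfl
    have e4 : Nat.add q 1 = q + 1 := rfl
    have e5 : Nat.sub q 1 = q - 1 := rfl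
    have e6 : Nat.sub q 32 = q - 32 := rfl
    have e7 : ∀ a b, Nat.add a b = a + b := fun _ _ => rfl
    have e8 : ∀ a b, Nat.pow a b = a ^ b := fun _ _ => rfl
    rw [e1, e2, e3, e4, e5, e6, e7, e7, e8, e8]
    have p1 : posC (k + 1) c q = if c % 4 = 0 then q :: posC k (c / 4) (q + 32)
      else if c % 4 = 1 then posC k (c / 4) (q + 1)
      else if c % 4 = 2 then posC k (c / 4) (q - 1)
      else posC k (c / 4) (q - 32) := rfl
    have p2 : negC (k + 1) c q = if c % 4 = 0 then negC k (c / 4) (q + 32)
      else if c % 4 = 1 then negC k (c / 4) (q + 1)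
      else if c % 4 = 2 then negC k (c / 4) (q - 1)
      else (q - 32) :: negC k (c / 4) (q - 32) := rfl
    have p3 : endC (k + 1) c q = if c % 4 = 0 then endC k (c / 4) (q + 32)
      else if c % 4 = 1 then endC k (c / 4) (q + 1)
      else if c % 4 = 2 then endC k (c / 4) (q - 1)
      else endC k (c / 4) (q - 32) := rfl
    rw [p1, p2, p3]
    split_ifs
    · rw [nmb_cons, add_assoc]
    · rfl
    · rfl
    · rw [nmb_cons, add_assoc]

/-- Soundness of the check of a forbidden word. -/
theorem chkF_sound {ku cu kv cv : ℕ} (h : chkF ku cu kv cv = true) :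
    el (wd kv cv) = el (wd ku cu) ∧ key (wd kv cv) < key (wd ku cu) ∧
      (wd kv cv).length ≤ (wd ku cu).length := by
  unfold chkF at h
  rw [ib_and, ib_and, ib_and, ble_iff, ble_iff, evK_sound, evK_sound, ib_and, beq_iff, beq_iff] at h
  obtain ⟨h1, h2, h3, h4, h5⟩ := h
  simp only [zero_add] at h5
  have l1 := length_posC ku cu 528
  have l2 := length_posC kv cv 528
  have hp : (posC ku cu 528 ++ negC kv cv 528).Perm (posC kv cv 528 ++ negC ku cu 528) := by
    apply nmb_inj
    · rw [List.length_append]; omega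
    · rw [List.length_append]; omega
    · rw [nmb_append, nmb_append]
      exact h5
  refine ⟨?_, ?_, ?_⟩
  · exact (el_eq (q := 528) (by omega) (by omega) (by omega) (by omega) (by omega) (by omega)
      h4 hp).symm
  · rw [ib_ble] at h3
    split_ifs at h3 with h6
    · have h7 : kv = ku := le_antisymm h2 h6
      subst h7
      rw [ble_iff] at h3
      unfold key
      rw [cd_wd, cd_wd, length_wd, length_wd]
      have : cv % 4 ^ kv < cu % 4 ^ kv := h3
      omega
    · apply key_lt_of_length
      rw [length_wd, length_wd]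
      omega
  · rw [length_wd, length_wd]
    exact h2

/-! ### The check of a state -/

/-- The conditions on a letter. -/
def GoodL (N : ℕ) (R : ℕ → ℕ) (i l : ℕ) : Prop :=
  (∃ f < N, rk (R f) < rk (R i) ∧
    rcd (R f) = rcd (R i) / 4 ^ (rk (R i) - rk (R f)) ∧ rD (R i) l = rD (R f) l) ∨
  (∃ j < N, rk (R j) = rk (R i) + 1 ∧ rcd (R j) = rcd (R i) + l * 4 ^ rk (R i) ∧
    rW (R j) = rD (R i) l) ∨
  (∃ kv cv, chkF (rk (R i) + 1) (rcd (R i) + l * 4 ^ rk (R i)) kv cv = true)

/-- The conditions on a state. -/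
structure GoodS (N P Q : ℕ) (R : ℕ → ℕ) (i : ℕ) : Prop where
  cl : rcd (R i) < 4 ^ rk (R i)
  w1 : 1 ≤ rW (R i)
  sm : Q * (rD (R i) 0 + rD (R i) 1 + (rD (R i) 2 + rD (R i) 3)) ≤ P * rW (R i)
  le : ∀ l < 4, GoodL N R i l

theorem chkl_sound {T : List ℕ} {N i f l X : ℕ} {cont : ℕ → Bool}
    (h : chkl T N (rc T i) (rc T f) f l X cont = true) :
    GoodL N (rc T) i l ∧ ∃ X', cont X' = true := by
  unfold chkl at h
  rw [sw_eq] at h
  split_ifs at h with h0 h1 h2
  · rw [ib_ble] at h
    split_ifs at h with h3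
    rw [ib_ble] at h
    split_ifs at h with h4
    rw [ib_and, ib_and, beq_iff, beq_iff, fo_eq] at h
    exact ⟨Or.inl ⟨f, by omega, by omega, h.1, h.2.1⟩, _, h.2.2⟩
  · rw [fo_eq, ib_ble] at h
    split_ifs at h with h3
    rw [fo_eq, ib_and, ib_and, ib_and, beq_iff, beq_iff, beq_iff, fo_eq] at h
    exact ⟨Or.inr (Or.inl ⟨_, by omega, h.1, h.2.1, h.2.2.1⟩), _, h.2.2.2⟩
  · rw [ib_and, fo_eq] at h
    exact ⟨Or.inr (Or.inr ⟨_, _, h.1⟩), _, h.2⟩

theorem chkSt_sound {T : List ℕ} {N P Q i X : ℕ} {cont : ℕ → Bool}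
    (h : chkSt T N P Q i X cont = true) :
    GoodS N P Q (rc T) i ∧ ∃ X', cont X' = true := by
  unfold chkSt at h
  rw [fo_eq, fo_eq, fo_eq, ib_and, ib_and, ib_and, ble_iff, ble_iff, ble_iff, fo_eq] at h
  obtain ⟨h1, h2, h3, h4⟩ := h
  obtain ⟨g0, X0, h5⟩ := chkl_sound h4
  obtain ⟨g1, X1, h6⟩ := chkl_sound h5
  obtain ⟨g2, X2, h7⟩ := chkl_sound h6
  obtain ⟨g3, X3, h8⟩ := chkl_sound h7
  refine ⟨⟨h1, h2, h3, ?_⟩, X3, h8⟩
  intro l hl
  interval_cases l
  · exact g0
  · exact g1
  · exact g2
  · exact g3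

theorem chkB_sound {T : List ℕ} {N P Q : ℕ} (n : ℕ) : ∀ i X, chkB T N P Q n i X = true →
    ∀ k < n, GoodS N P Q (rc T) (i + k) := by
  induction n with
  | zero => intro i X _ k hk; omega
  | succ n ih =>
    intro i X h k hk
    have e : chkB T N P Q (n + 1) i X = chkSt T N P Q i X (fun X' =>
      fo (Nat.succ i) (fun i' => chkB T N P Q n i' X')) := rfl
    rw [e] at h
    obtain ⟨h1, X', h2⟩ := chkSt_sound h
    rw [fo_eq] at h2
    cases k with
    | zero => exact h1
    | succ k =>
      have := ih _ _ h2 k (by omega)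
      have e2 : i + (k + 1) = Nat.succ i + k := by omega
      rw [e2]
      exact this

theorem chkBs_sound {T : List ℕ} {N P Q : ℕ} (L : List ℕ) : ∀ i, chkBs T N P Q L i = true →
    ∀ k < 64 * L.length, GoodS N P Q (rc T) (i + k) := by
  induction L with
  | nil => intro i _ k hk; simp at hk
  | cons X L ih =>
    intro i h k hk
    have e : chkBs T N P Q (X :: L) i = ib (chkB T N P Q 64 i X)
      (fo (Nat.add i 64) (chkBs T N P Q L)) false := rfl
    rw [e, ib_and, fo_eq] at h
    obtain ⟨h1, h2⟩ := h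
    rcases Nat.lt_or_ge k 64 with hk2 | hk2
    · exact chkB_sound 64 i X h1 k hk2
    · have h3 : Nat.add i 64 = i + 64 := rfl
      rw [h3] at h2
      have := ih _ h2 (k - 64) (by rw [List.length_cons] at hk; omega)
      have e2 : i + k = i + 64 + (k - 64) := by omega
      rw [e2]
      exact this

end Pool.Agent.Helper78.FG
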