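import Pool.Agent.Helper78.FG.U0
import Pool.Agent.Helper78.FG.U1
import Pool.Agent.Helper78.FG.U2
import Pool.Agent.Helper78.FG.U3
import Pool.Agent.Helper78.FG.U4
import Pool.Agent.Helper78.FG.U5
import Pool.Agent.Helper78.FG.U6
import Pool.Agent.Helper78.FG.U7
import Pool.Agent.Helper78.FG.U8
import Pool.Agent.Helper78.FG.U9
import Pool.Agent.Helper78.FG.U10
import Pool.Agent.Helper78.FG.U11
import Pool.Agent.Helper78.FG.UCount

/-!
# The upper bound for the growth rate
-/

set_option autoImplicit false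
set_option maxRecDepth 100000

namespace Pool.Agent.Helper78.FG

theorem ulen0 : YY0.length = 54 := rfl

theorem ugood0 : ∀ i, 0 ≤ i → i < 3456 → GoodS 41093 73 25 (rc TT) i := by
  intro i h1 h2
  have h := chkBs_sound YY0 0 uok0 (i - 0) (by rw [ulen0]; omega)
  rwa [Nat.add_sub_cancel' h1] at h

theorem ulen1 : YY1.length = 54 := rfl

theorem ugood1 : ∀ i, 3456 ≤ i → i < 6912 → GoodS 41093 73 25 (rc TT) i := by
  intro i h1 h2
  have h := chkBs_sound YY1 3456 uok1 (i - 3456) (by rw [ulen1]; omega)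
  rwa [Nat.add_sub_cancel' h1] at h

theorem ulen2 : YY2.length = 54 := rfl

theorem ugood2 : ∀ i, 6912 ≤ i → i < 10368 → GoodS 41093 73 25 (rc TT) i := by
  intro i h1 h2
  have h := chkBs_sound YY2 6912 uok2 (i - 6912) (by rw [ulen2]; omega)
  rwa [Nat.add_sub_cancel' h1] at h

theorem ulen3 : YY3.length = 54 := rfl

theorem ugood3 : ∀ i, 10368 ≤ i → i < 13824 → GoodS 41093 73 25 (rc TT) i := by
  intro i h1 h2
  have h := chkBs_sound YY3 10368 uok3 (i - 10368) (by rw [ulen3]; omega)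
  rwa [Nat.add_sub_cancel' h1] at h

theorem ulen4 : YY4.length = 54 := rfl

theorem ugood4 : ∀ i, 13824 ≤ i → i < 17280 → GoodS 41093 73 25 (rc TT) i := by
  intro i h1 h2
  have h := chkBs_sound YY4 13824 uok4 (i - 13824) (by rw [ulen4]; omega)
  rwa [Nat.add_sub_cancel' h1] at h

theorem ulen5 : YY5.length = 54 := rfl

theorem ugood5 : ∀ i, 17280 ≤ i → i < 20736 → GoodS 41093 73 25 (rc TT) i := by
  intro i h1 h2
  have h := chkBs_sound YY5 17280 uok5 (i - 17280) (by rw [ulen5]; omega)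
  rwa [Nat.add_sub_cancel' h1] at h

theorem ulen6 : YY6.length = 54 := rfl

theorem ugood6 : ∀ i, 20736 ≤ i → i < 24192 → GoodS 41093 73 25 (rc TT) i := by
  intro i h1 h2
  have h := chkBs_sound YY6 20736 uok6 (i - 20736) (by rw [ulen6]; omega)
  rwa [Nat.add_sub_cancel' h1] at h

theorem ulen7 : YY7.length = 54 := rfl

theorem ugood7 : ∀ i, 24192 ≤ i → i < 27648 → GoodS 41093 73 25 (rc TT) i := by
  intro i h1 h2
  have h := chkBs_sound YY7 24192 uok7 (i - 24192) (by rw [ulen7]; omega)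
  rwa [Nat.add_sub_cancel' h1] at h

theorem ulen8 : YY8.length = 54 := rfl

theorem ugood8 : ∀ i, 27648 ≤ i → i < 31104 → GoodS 41093 73 25 (rc TT) i := by
  intro i h1 h2
  have h := chkBs_sound YY8 27648 uok8 (i - 27648) (by rw [ulen8]; omega)
  rwa [Nat.add_sub_cancel' h1] at h

theorem ulen9 : YY9.length = 54 := rfl

theorem ugood9 : ∀ i, 31104 ≤ i → i < 34560 → GoodS 41093 73 25 (rc TT) i := by
  intro i h1 h2
  have h := chkBs_sound YY9 31104 uok9 (i - 31104) (by rw [ulen9]; omega)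
  rwa [Nat.add_sub_cancel' h1] at h

theorem ulen10 : YY10.length = 54 := rfl

theorem ugood10 : ∀ i, 34560 ≤ i → i < 38016 → GoodS 41093 73 25 (rc TT) i := by
  intro i h1 h2
  have h := chkBs_sound YY10 34560 uok10 (i - 34560) (by rw [ulen10]; omega)
  rwa [Nat.add_sub_cancel' h1] at h

theorem ulen11 : YY11.length = 48 := rfl

theorem ugood11 : ∀ i, 38016 ≤ i → i < 41088 → GoodS 41093 73 25 (rc TT) i := by
  intro i h1 h2
  have h := chkBs_sound YY11 38016 uok11 (i - 38016) (by rw [ulen11]; omega)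
  rwa [Nat.add_sub_cancel' h1] at h

theorem uokl : chkB TT 41093 73 25 5 41088 0x2dffb607e58000bdfed81f950002fdfb607e52000bfded81f9440007bfdd87e44 = true := by decide +kernel

theorem ugoodl : ∀ i, 41088 ≤ i → i < 41093 → GoodS 41093 73 25 (rc TT) i := by
  intro i h1 h2
  have h := chkB_sound 5 41088 _ uokl (i - 41088) (by omega)
  rwa [Nat.add_sub_cancel' h1] at h

theorem ugood : ∀ i < 41093, GoodS 41093 73 25 (rc TT) i := by
  intro i hi
  rcases Nat.lt_or_ge i 3456 with h0 | h0
  · exact ugood0 i (by omega) h0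
  rcases Nat.lt_or_ge i 6912 with h1 | h1
  · exact ugood1 i (by omega) h1
  rcases Nat.lt_or_ge i 10368 with h2 | h2
  · exact ugood2 i (by omega) h2
  rcases Nat.lt_or_ge i 13824 with h3 | h3
  · exact ugood3 i (by omega) h3
  rcases Nat.lt_or_ge i 17280 with h4 | h4
  · exact ugood4 i (by omega) h4
  rcases Nat.lt_or_ge i 20736 with h5 | h5
  · exact ugood5 i (by omega) h5
  rcases Nat.lt_or_ge i 24192 with h6 | h6
  · exact ugood6 i (by omega) h6
  rcases Nat.lt_or_ge i 27648 with h7 | h7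
  · exact ugood7 i (by omega) h7
  rcases Nat.lt_or_ge i 31104 with h8 | h8
  · exact ugood8 i (by omega) h8
  rcases Nat.lt_or_ge i 34560 with h9 | h9
  · exact ugood9 i (by omega) h9
  rcases Nat.lt_or_ge i 38016 with h10 | h10
  · exact ugood10 i (by omega) h10
  rcases Nat.lt_or_ge i 41088 with h11 | h11
  · exact ugood11 i (by omega) h11
  exact ugoodl i (by omega) hi

/-- The upper bound. -/
theorem upper (hr : 1 ≤ 2) : Pool.Agent.Helper44.FMet.om 2 hr ≤ (73 : ℝ) / 25 := by
  have h0 : rk (rc TT 0) = 0 := by decide +kernel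
  have h := om_le_of (by norm_num) (by norm_num) (by norm_num) h0 ugood hr
  exact_mod_cast h

end Pool.Agent.Helper78.FG
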